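import Mathlib
import Pool.Agent.ZPOrd.RatDefs
import Pool.Agent.ZPOrd.ThreeDens

/-!
Totally split fibres of the denominators: definitions.
-/

namespace Pool.Agent.ZPL

open Pool.Agent.ZPOrd

/-- at a zero of a member of the `j`-th linear system whose coefficients have a residue in `T j`, the
functions `u k a` have residues in the prime field, given by a member of `E4 j` -/
def SplitQ {K : Type*} [Field K] [Algebra ℂ K] {n N : ℕ} (u : Fin n → Fin N → K) (p : ℕ) [Fact p.Prime]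
    (V : ValuationSubring ℂ) (T : Fin n → Finset (Fin N → ZMod p))
    (E4 : Fin n → (Fin N → ZMod p) → Finset (Fin n → Fin N → ZMod p)) : Prop :=
  ∀ j, ∀ β : Fin N → ℚ, (∀ a, ((β a).den : ZMod p) ≠ 0) → (fun a => redQ p (β a)) ∈ T j →
    ∀ W : ValuationSubring K, (∀ c : ℂ, algebraMap ℂ K c ∈ W ↔ c ∈ V) → (∀ a, u j a ∈ W) →
    W.valuation (∑ a, algebraMap ℂ K (β a : ℂ) * u j a) < 1 →
    ∃ ρ ∈ E4 j (fun a => redQ p (β a)), ∀ k a, ∀ m : ℤ, (m : ZMod p) = ρ k a →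
      W.valuation (u k a - algebraMap ℂ K (m : ℂ)) < 1

/-- local conditions at the zeros of the denominators -/
structure Loc4 {p : ℕ} {n N : ℕ} (dd : ZMod p → ℤ) (T : Fin n → Finset (Fin N → ZMod p))
    (E4 : Fin n → (Fin N → ZMod p) → Finset (Fin n → Fin N → ZMod p)) [Fact p.Prime]
    (a b : Fin n → Fin N → ZMod p) (i : Fin n) : Prop where
  split : ∀ j, j ≠ i → b j ∈ T j
  den : ∀ j k, j ≠ i → k ≠ i → j ≠ k → ∀ ρ ∈ E4 j (b j), ∑ s, b k s * ρ k s ≠ 0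
  ord : ∀ j k, j ≠ i → k ≠ i → j ≠ k → ∀ ρ ∈ E4 j (b j), dd ((∑ s, a k s * ρ k s) / (∑ s, b k s * ρ k s)) ≠ 0
  cross : ∀ j k m, j ≠ i → k ≠ i → m ≠ i → j ≠ k → j ≠ m → k ≠ m → ∀ ρ ∈ E4 j (b j),
    ¬ IsSquare (dd ((∑ s, a k s * ρ k s) / (∑ s, b k s * ρ k s)) * dd ((∑ s, a m s * ρ m s) / (∑ s, b m s * ρ m s)))

end Pool.Agent.ZPL
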