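import Mathlib
import Pool.Agent.ZPL.Defs

/-!
Almost all pairs of members of linear systems satisfy the local conditions.
-/

open Filter Topology

namespace Pool.Agent.ZPL

open Pool.Agent.ZPOrd Pool.Agent.Lib.ModularZP Pool.Agent.ZP46 Finset

section general

variable {p : ℕ} [Fact p.Prime]

open Classical in
lemma union_events' {β κ : Type*} [Fintype β] [Fintype κ] [hκ : DecidableEq κ] (Bad : β → (κ → ZMod p) → Prop)
    (B A : ℕ) (G Q : (κ → ZMod p) → Prop)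
    (hG : p ^ Fintype.card κ ≤ A * ((univ : Finset (κ → ZMod p)).filter G).card)
    (hQ : ∀ y, G y → ¬ Q y → ∃ b, Bad b y)
    (h : ∀ b, p * ((univ : Finset (κ → ZMod p)).filter (Bad b)).card ≤ B * p ^ Fintype.card κ)
    (hp : 2 * A * (Fintype.card β * B) ≤ p) :
    p ^ Fintype.card κ ≤ 2 * A * ((univ : Finset (κ → ZMod p)).filter Q).card := by
  have hp0 : 0 < p := (Fact.out : p.Prime).pos
  set X := (univ : Finset β).biUnion fun b => (univ : Finset (κ → ZMod p)).filter (Bad b) with hX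
  have hsub : ((univ : Finset (κ → ZMod p)).filter G) ⊆ ((univ : Finset (κ → ZMod p)).filter Q) ∪ X := by
    intro y hy
    rw [mem_filter] at hy
    rw [mem_union]
    by_cases hq : Q y
    · exact Or.inl (mem_filter.mpr ⟨mem_univ _, hq⟩)
    · obtain ⟨b, hb⟩ := hQ y hy.2 hq
      refine Or.inr ?_
      rw [hX, mem_biUnion]
      exact ⟨b, mem_univ _, mem_filter.mpr ⟨mem_univ _, hb⟩⟩
  have h0 := (card_le_card hsub).trans (card_union_le _ _)
  have h1 : p * X.card ≤ Fintype.card β * B * p ^ Fintype.card κ := by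
    calc p * X.card
        ≤ p * ∑ b : β, ((univ : Finset (κ → ZMod p)).filter (Bad b)).card :=
          Nat.mul_le_mul_left _ card_biUnion_le
      _ = ∑ b : β, p * ((univ : Finset (κ → ZMod p)).filter (Bad b)).card := mul_sum _ _ _
      _ ≤ ∑ _b : β, B * p ^ Fintype.card κ := sum_le_sum fun b _ => h b
      _ = Fintype.card β * B * p ^ Fintype.card κ := by
        rw [sum_const, card_univ, smul_eq_mul, mul_assoc]
  have h3 : 2 * A * X.card ≤ p ^ Fintype.card κ := by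
    have h4 : p * (2 * A * X.card) ≤ p * p ^ Fintype.card κ := by
      calc p * (2 * A * X.card) = 2 * A * (p * X.card) := by ring
        _ ≤ 2 * A * (Fintype.card β * B * p ^ Fintype.card κ) := Nat.mul_le_mul_left _ h1
        _ = 2 * A * (Fintype.card β * B) * p ^ Fintype.card κ := by ring
        _ ≤ p * p ^ Fintype.card κ := Nat.mul_le_mul_right _ hp
    exact Nat.le_of_mul_le_mul_left h4 hp0
  have h5 : 2 * A * ((univ : Finset (κ → ZMod p)).filter G).card ≤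
      2 * A * ((univ : Finset (κ → ZMod p)).filter Q).card + 2 * A * X.card := by
    rw [← mul_add]
    exact Nat.mul_le_mul_left _ h0
  have h6 : 2 * p ^ Fintype.card κ ≤ 2 * A * ((univ : Finset (κ → ZMod p)).filter G).card := by
    rw [mul_assoc]
    exact Nat.mul_le_mul_left _ hG
  omega

open Classical in
lemma card_box_of' {ι : Type*} [Fintype ι] [DecidableEq ι] (s₀ : ι) (P Q : (ι → ZMod p) → Prop)
    (hPQ : ∀ v v', (∀ s, s ≠ s₀ → v s = v' s) → P v → Q v') (A : ℕ)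
    (h : p ^ Fintype.card ι ≤ A * ((univ : Finset (ι → ZMod p)).filter P).card) (hp : 2 * Fintype.card ι ≤ p) :
    p ^ (2 * Fintype.card ι) ≤ 2 * A * p * ((boxS s₀ p).filter fun x => Q (vr x)).card := by
  have h2 := card_nonzero' (ι := ι) hp
  set G := ((univ : Finset (ι → ZMod p)).filter P) ×ˢ ((univ : Finset (ι → ZMod p)).filter NZ') with hG
  have h3 : p ^ (2 * Fintype.card ι) ≤ 2 * A * G.card := by
    rw [hG, card_product, two_mul, pow_add]
    calc _ ≤ (A * ((univ : Finset (ι → ZMod p)).filter P).card) *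
          (2 * ((univ : Finset (ι → ZMod p)).filter NZ').card) := Nat.mul_le_mul h h2
      _ = _ := by ring
  have hvr : ∀ v u : ι → ZMod p, NZ' u → ∀ s, s ≠ s₀ → vr (frX s₀ v u) s = v s := by
    intro v u hu s hs
    unfold vr frX
    simp only [if_neg hs]
    rw [mul_div_cancel_right₀ _ (hu s)]
  have h4 : G.card ≤ p * (G.image fun yu => frX s₀ yu.1 yu.2).card := by
    refine card_le_mul_card_image _ _ fun x _ => ?_
    let Y : ι → Finset (ZMod p) := fun s => if s = s₀ then univ else {vr x s}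
    let U : ι → Finset (ZMod p) := fun s => {if s = s₀ then x (Sum.inl s) else x (Sum.inr s)}
    have hsub : (G.filter fun yu => frX s₀ yu.1 yu.2 = x) ⊆ (Fintype.piFinset Y) ×ˢ (Fintype.piFinset U) := by
      rintro ⟨y, u⟩ h
      rw [mem_filter, hG, mem_product, mem_filter, mem_filter] at h
      obtain ⟨⟨⟨_, hy⟩, _, hu⟩, rfl⟩ := h
      rw [mem_product, Fintype.mem_piFinset, Fintype.mem_piFinset]
      simp only at hy hu ⊢
      refine ⟨fun s => ?_, fun s => ?_⟩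
      · simp only [Y]
        by_cases hs : s = s₀
        · rw [if_pos hs]
          exact mem_univ _
        · rw [if_neg hs, mem_singleton, hvr _ _ hu _ hs]
      · simp only [U, mem_singleton]
        by_cases hs : s = s₀
        · rw [if_pos hs]
          simp only [frX, if_pos hs]
        · rw [if_neg hs]
          simp only [frX, if_neg hs]
    refine (card_le_card hsub).trans ?_
    rw [card_product, Fintype.card_piFinset, Fintype.card_piFinset]
    have hU : ∏ s : ι, (U s).card = 1 := prod_eq_one fun s _ => card_singleton _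
    have hY : ∏ s : ι, (Y s).card = p := by
      have h2 : ∀ s : ι, (Y s).card = if s = s₀ then p else 1 := by
        intro s
        simp only [Y]
        by_cases hs : s = s₀
        · rw [if_pos hs, if_pos hs, card_univ, ZMod.card]
        · rw [if_neg hs, if_neg hs, card_singleton]
      rw [prod_congr rfl fun s _ => h2 s, prod_ite_eq' univ s₀ fun _ => p, if_pos (mem_univ _)]
    rw [hU, hY, mul_one]
  have h5 : (G.image fun yu => frX s₀ yu.1 yu.2) ⊆ (boxS s₀ p).filter fun x => Q (vr x) := by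
    intro x hx
    rw [mem_image] at hx
    obtain ⟨⟨y, u⟩, h, rfl⟩ := hx
    rw [hG, mem_product, mem_filter, mem_filter] at h
    obtain ⟨⟨_, hy⟩, _, hu⟩ := h
    simp only at hy hu ⊢
    rw [mem_filter, mem_boxS]
    refine ⟨⟨by simp [frX], ?_, fun s hs => ?_⟩, ?_⟩
    · simp only [frX, if_true]
      exact hu _
    · simp only [frX, if_neg hs]
      exact hu s
    · exact hPQ y _ (fun s hs => (hvr y u hu s hs).symm) hy
  calc p ^ (2 * Fintype.card ι) ≤ 2 * A * G.card := h3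
    _ ≤ 2 * A * (p * (G.image fun yu => frX s₀ yu.1 yu.2).card) := Nat.mul_le_mul_left _ h4
    _ ≤ 2 * A * (p * ((boxS s₀ p).filter fun x => Q (vr x)).card) :=
        Nat.mul_le_mul_left _ (Nat.mul_le_mul_left _ (card_le_card h5))
    _ = _ := by ring

end general

section params

variable {n N : ℕ} {p : ℕ} [Fact p.Prime]

/-- denominator coefficients of the coordinate `j` -/
def bv (v : TX n N → ZMod p) (j : Fin n) : Fin N → ZMod p := fun s => v (Sum.inr (j, s))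

/-- value of the denominator -/
def dn4 (v : TX n N → ZMod p) (k : Fin n) (ρ : Fin n → Fin N → ZMod p) : ZMod p :=
  ∑ s, v (Sum.inr (k, s)) * ρ k s

/-- value of the numerator -/
def nm4 (v : TX n N → ZMod p) (k : Fin n) (ρ : Fin n → Fin N → ZMod p) : ZMod p :=
  ∑ s, v (Sum.inl (k, s)) * ρ k s

/-- value of the ratio -/
def rt4 (v : TX n N → ZMod p) (k : Fin n) (ρ : Fin n → Fin N → ZMod p) : ZMod p := nm4 v k ρ / dn4 v k ρ

open Classical in
lemma card_T (T : Fin n → Finset (Fin N → ZMod p)) (A : ℕ) (hT : ∀ j, p ^ N ≤ A * (T j).card) :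
    p ^ Fintype.card (TX n N) ≤ A ^ n *
      ((univ : Finset (TX n N → ZMod p)).filter fun v => ∀ j, bv v j ∈ T j).card := by
  have h1 : ((univ : Finset (Fin n × Fin N → ZMod p)) ×ˢ Fintype.piFinset T).card ≤
      ((univ : Finset (TX n N → ZMod p)).filter fun v => ∀ j, bv v j ∈ T j).card := by
    refine card_le_card_of_injOn (fun ab => Sum.elim ab.1 fun x => ab.2 x.1 x.2) ?_ ?_
    · rintro ⟨a, b⟩ hab
      rw [mem_coe, mem_product, Fintype.mem_piFinset] at hab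
      rw [mem_coe, mem_filter]
      exact ⟨mem_univ _, hab.2⟩
    · rintro ⟨a, b⟩ _ ⟨a', b'⟩ _ h
      simp only at h
      have h1 : a = a' := by
        funext x
        exact congrFun h (Sum.inl x)
      have h2 : b = b' := by
        funext x y
        exact congrFun h (Sum.inr (x, y))
      rw [h1, h2]
  rw [card_product, card_univ, Fintype.card_fun, ZMod.card, Fintype.card_prod, Fintype.card_fin, Fintype.card_fin,
    Fintype.card_piFinset] at h1
  have h2 : ∏ _j : Fin n, p ^ N ≤ ∏ j : Fin n, (A * (T j).card) := prod_le_prod' fun j _ => hT j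
  rw [prod_const, card_univ, Fintype.card_fin, prod_mul_distrib, prod_const, card_univ, Fintype.card_fin] at h2
  rw [Fintype.card_sum, Fintype.card_prod, Fintype.card_fin, Fintype.card_fin, pow_add]
  calc p ^ (n * N) * p ^ (n * N) ≤ p ^ (n * N) * (A ^ n * ∏ j : Fin n, (T j).card) := by
        refine Nat.mul_le_mul_left _ ?_
        rw [mul_comm n N, pow_mul]
        exact h2
    _ = A ^ n * (p ^ (n * N) * ∏ j : Fin n, (T j).card) := by ring
    _ ≤ _ := Nat.mul_le_mul_left _ h1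

/-- the conditions on the residues at the zeros of the denominators -/
structure P4 (dd : ZMod p → ℤ) (T : Fin n → Finset (Fin N → ZMod p))
    (E4 : Fin n → (Fin N → ZMod p) → Finset (Fin n → Fin N → ZMod p)) (v : TX n N → ZMod p) : Prop where
  split : ∀ j, bv v j ∈ T j
  den : ∀ j k, j ≠ k → ∀ ρ ∈ E4 j (bv v j), dn4 v k ρ ≠ 0
  ord : ∀ j k, j ≠ k → ∀ ρ ∈ E4 j (bv v j), dd (rt4 v k ρ) ≠ 0
  cross : ∀ j k m, j ≠ k → j ≠ m → k ≠ m → ∀ ρ ∈ E4 j (bv v j), ¬ IsSquare (dd (rt4 v k ρ) * dd (rt4 v m ρ))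

lemma loc4_of {dd : ZMod p → ℤ} {T : Fin n → Finset (Fin N → ZMod p)}
    {E4 : Fin n → (Fin N → ZMod p) → Finset (Fin n → Fin N → ZMod p)} {i : Fin n} {l : Fin N}
    (v v' : TX n N → ZMod p) (hv : ∀ s, s ≠ Sum.inl (i, l) → v s = v' s) (h : P4 dd T E4 v) :
    Loc4 dd T E4 (fun j s => v' (Sum.inl (j, s))) (fun j s => v' (Sum.inr (j, s))) i := by
  have hb : ∀ j, (fun s => v' (Sum.inr (j, s))) = bv v j := by
    intro j
    funext s
    exact (hv _ (by simp)).symm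
  have hd : ∀ k ρ, (∑ s, v' (Sum.inr (k, s)) * ρ k s) = dn4 v k ρ := by
    intro k ρ
    unfold dn4
    refine sum_congr rfl fun s _ => ?_
    rw [hv _ (by simp)]
  have hn : ∀ k, k ≠ i → ∀ ρ, (∑ s, v' (Sum.inl (k, s)) * ρ k s) = nm4 v k ρ := by
    intro k hk ρ
    unfold nm4
    refine sum_congr rfl fun s _ => ?_
    rw [hv _ (by
      intro h'
      exact hk (Prod.ext_iff.mp (Sum.inl.inj h')).1)]
  refine ⟨fun j _ => ?_, fun j k _ _ hjk ρ hρ => ?_, fun j k _ hk hjk ρ hρ => ?_,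
    fun j k m _ hk hm hjk hjm hkm ρ hρ => ?_⟩
  · rw [hb]
    exact h.split j
  · rw [hb] at hρ
    rw [hd]
    exact h.den j k hjk ρ hρ
  · rw [hb] at hρ
    rw [hd, hn k hk]
    exact h.ord j k hjk ρ hρ
  · rw [hb] at hρ
    rw [hd, hn k hk, hd, hn m hm]
    exact h.cross j k m hjk hjm hkm ρ hρ

lemma bv_update_inr (v : TX n N → ZMod p) {j k : Fin n} (h : j ≠ k) (m : Fin N) (w : ZMod p) :
    bv (Function.update v (Sum.inr (k, m)) w) j = bv v j := by
  funext s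
  unfold bv
  rw [Function.update_of_ne]
  intro h'
  exact h (Prod.ext_iff.mp (Sum.inr.inj h')).1

lemma bv_update_inl (v : TX n N → ZMod p) (j : Fin n) (x : Fin n × Fin N) (w : ZMod p) :
    bv (Function.update v (Sum.inl x) w) j = bv v j := by
  funext s
  unfold bv
  rw [Function.update_of_ne (by simp)]

lemma dn4_update (v : TX n N → ZMod p) (k : Fin n) (x : Fin n × Fin N) (w : ZMod p) (ρ : Fin n → Fin N → ZMod p) :
    dn4 (Function.update v (Sum.inl x) w) k ρ = dn4 v k ρ := by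
  unfold dn4
  refine sum_congr rfl fun s _ => ?_
  rw [Function.update_of_ne (by simp)]

lemma rt4_update_ne (v : TX n N → ZMod p) {m k : Fin n} (h : m ≠ k) (a : Fin N) (w : ZMod p)
    (ρ : Fin n → Fin N → ZMod p) : rt4 (Function.update v (Sum.inl (k, a)) w) m ρ = rt4 v m ρ := by
  unfold rt4 nm4
  rw [dn4_update]
  congr 1
  refine sum_congr rfl fun s _ => ?_
  rw [Function.update_of_ne (by
    intro h'
    exact h (Prod.ext_iff.mp (Sum.inl.inj h')).1)]

lemma sum4_update_inj (g : Fin N → TX n N) (hg : Function.Injective g) (v : TX n N → ZMod p)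
    (m : Fin N) (e : Fin N → ZMod p) (he : e m ≠ 0) :
    Function.Injective fun w => ∑ k, Function.update v (g m) w (g k) * e k := by
  intro w w' h
  simp only at h
  have h1 : ∀ w, ∑ k, Function.update v (g m) w (g k) * e k =
      w * e m + ∑ k ∈ univ.erase m, v (g k) * e k := by
    intro w
    rw [← add_sum_erase _ _ (mem_univ m), Function.update_self]
    congr 1
    refine sum_congr rfl fun k hk => ?_
    rw [Function.update_of_ne (fun h => ne_of_mem_erase hk (hg h))]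
  rw [h1, h1, add_left_inj, mul_left_inj' he] at h
  exact h

lemma rt4_update_inj (v : TX n N → ZMod p) (k : Fin n) (a : Fin N) (ρ : Fin n → Fin N → ZMod p)
    (hd : dn4 v k ρ ≠ 0) (he : ρ k a ≠ 0) :
    Function.Injective fun w => rt4 (Function.update v (Sum.inl (k, a)) w) k ρ := by
  intro w w' h
  simp only [rt4, dn4_update] at h
  rw [div_left_inj' hd] at h
  exact sum4_update_inj (fun s => Sum.inl (k, s)) (fun a b hab => (Prod.ext_iff.mp (Sum.inl.inj hab)).2) v a (ρ k) he h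

/-- indices of the bad events -/
abbrev Ev4 (n D : ℕ) : Type :=
  (Fin n × Fin n × Fin D) ⊕ ((Fin n × Fin n × Fin D) ⊕ (Fin n × Fin n × Fin n × Fin D))

/-- the bad events -/
def Bad4 (dd : ZMod p → ℤ) (E4 : Fin n → (Fin N → ZMod p) → Finset (Fin n → Fin N → ZMod p)) (D : ℕ) :
    Ev4 n D → (TX n N → ZMod p) → Prop
  | Sum.inl (j, k, a), v => j ≠ k ∧ ∃ ρ, (E4 j (bv v j)).toList[(a : ℕ)]? = some ρ ∧ dn4 v k ρ = 0
  | Sum.inr (Sum.inl (j, k, a)), v => j ≠ k ∧ ∃ ρ, (E4 j (bv v j)).toList[(a : ℕ)]? = some ρ ∧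
      dn4 v k ρ ≠ 0 ∧ dd (rt4 v k ρ) = 0
  | Sum.inr (Sum.inr (j, k, m, a)), v => j ≠ k ∧ k ≠ m ∧ ∃ ρ, (E4 j (bv v j)).toList[(a : ℕ)]? = some ρ ∧
      dn4 v k ρ ≠ 0 ∧ dd (rt4 v m ρ) ≠ 0 ∧ IsSquare (dd (rt4 v m ρ) * dd (rt4 v k ρ))

lemma exists_bad4 (dd : ZMod p → ℤ) (T : Fin n → Finset (Fin N → ZMod p))
    (E4 : Fin n → (Fin N → ZMod p) → Finset (Fin n → Fin N → ZMod p)) (D : ℕ)
    (hD : ∀ j b, (E4 j b).card ≤ D) (v : TX n N → ZMod p) (hT : ∀ j, bv v j ∈ T j)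
    (hv : ¬ P4 dd T E4 v) : ∃ b, Bad4 dd E4 D b v := by
  by_contra hcon
  push Not at hcon
  apply hv
  have hidx : ∀ j, ∀ ρ ∈ E4 j (bv v j), ∃ a : Fin D, (E4 j (bv v j)).toList[(a : ℕ)]? = some ρ := by
    intro j ρ hρ
    rw [← mem_toList] at hρ
    obtain ⟨a, ha⟩ := List.mem_iff_getElem?.mp hρ
    have h1 : a < (E4 j (bv v j)).toList.length := by
      by_contra h
      rw [List.getElem?_eq_none (by omega)] at ha
      exact absurd ha (by simp)
    rw [length_toList] at h1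
    exact ⟨⟨a, lt_of_lt_of_le h1 (hD _ _)⟩, ha⟩
  have h1 : ∀ j k, j ≠ k → ∀ ρ ∈ E4 j (bv v j), dn4 v k ρ ≠ 0 := by
    intro j k hjk ρ hρ h0
    obtain ⟨a, ha⟩ := hidx j ρ hρ
    exact hcon (Sum.inl (j, k, a)) ⟨hjk, ρ, ha, h0⟩
  have h2 : ∀ j k, j ≠ k → ∀ ρ ∈ E4 j (bv v j), dd (rt4 v k ρ) ≠ 0 := by
    intro j k hjk ρ hρ h0
    obtain ⟨a, ha⟩ := hidx j ρ hρ
    exact hcon (Sum.inr (Sum.inl (j, k, a))) ⟨hjk, ρ, ha, h1 j k hjk ρ hρ, h0⟩
  refine ⟨hT, h1, h2, fun j k m hjk hjm hkm ρ hρ h0 => ?_⟩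
  obtain ⟨a, ha⟩ := hidx j ρ hρ
  refine hcon (Sum.inr (Sum.inr (j, k, m, a))) ⟨hjk, hkm, ρ, ha, h1 j k hjk ρ hρ, h2 j m hjm ρ hρ, ?_⟩
  rwa [mul_comm]

open Classical in
lemma bad4_small (dd : ZMod p → ℤ) (E4 : Fin n → (Fin N → ZMod p) → Finset (Fin n → Fin N → ZMod p)) (D : ℕ)
    (l : Fin n → Fin N) (hl : ∀ j b, ∀ ρ ∈ E4 j b, ∀ k, ρ k (l k) = 1)
    (B : ℕ) (hB : 0 < B)
    (hd : ∀ D : ℤ, D ≠ 0 → ∀ P : ZMod p → Prop, (∀ α, P α → dd α = 0 ∨ IsSquare (D * dd α)) →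
      ((univ : Finset (ZMod p)).filter P).card ≤ B)
    (b : Ev4 n D) :
    p * ((univ : Finset (TX n N → ZMod p)).filter (Bad4 dd E4 D b)).card ≤ B * p ^ Fintype.card (TX n N) := by
  have hempty : ∀ (P : ZMod p → Prop), (∀ v, ¬ P v) → ((univ : Finset (ZMod p)).filter P).card ≤ B := by
    intro P hP
    rw [filter_eq_empty_iff.mpr fun v _ => hP v]
    simp
  have hsub : ∀ (P Q : ZMod p → Prop), (∀ v, P v → Q v) → ((univ : Finset (ZMod p)).filter Q).card ≤ B →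
      ((univ : Finset (ZMod p)).filter P).card ≤ B := by
    intro P Q h hQ
    refine (card_le_card ?_).trans hQ
    intro v hv
    rw [mem_filter] at hv ⊢
    exact ⟨hv.1, h v hv.2⟩
  have hmem : ∀ (s : Finset (Fin n → Fin N → ZMod p)) (a : ℕ) (ρ : Fin n → Fin N → ZMod p),
      s.toList[a]? = some ρ → ρ ∈ s := by
    intro s a ρ h
    rw [← mem_toList]
    exact List.mem_iff_getElem?.mpr ⟨a, h⟩
  rcases b with ⟨j, k, a⟩ | ⟨j, k, a⟩ | ⟨j, k, m, a⟩
  · refine fiber_univ (Sum.inr (k, l k)) _ B fun v => ?_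
    by_cases hjk : j = k
    · exact hempty _ fun w hw => hw.1 hjk
    rcases ho : (E4 j (bv v j)).toList[(a : ℕ)]? with _ | ρ₀
    · refine hempty _ fun w hw => ?_
      obtain ⟨-, ρ, h1, h2⟩ := hw
      rw [bv_update_inr v hjk, ho] at h1
      exact absurd h1 (by simp)
    · have hρ₀ := hl _ _ _ (hmem _ _ _ ho) k
      refine le_trans (card_le_one.mpr ?_) (Nat.succ_le_of_lt hB)
      intro w hw w' hw'
      obtain ⟨-, ρ, h1, h2⟩ := (mem_filter.mp hw).2
      obtain ⟨-, ρ', h1', h2'⟩ := (mem_filter.mp hw').2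
      rw [bv_update_inr v hjk, ho] at h1 h1'
      obtain rfl := Option.some.inj h1
      obtain rfl := Option.some.inj h1'
      exact sum4_update_inj (fun s => Sum.inr (k, s)) (fun a b hab => (Prod.ext_iff.mp (Sum.inr.inj hab)).2) v (l k)
        (ρ₀ k) (by rw [hρ₀]; exact one_ne_zero) (h2.trans h2'.symm)
  · refine fiber_univ (Sum.inl (k, l k)) _ B fun v => ?_
    rcases ho : (E4 j (bv v j)).toList[(a : ℕ)]? with _ | ρ₀
    · refine hempty _ fun w hw => ?_
      obtain ⟨-, ρ, h1, h2⟩ := hw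
      rw [bv_update_inl, ho] at h1
      exact absurd h1 (by simp)
    · have hρ₀ := hl _ _ _ (hmem _ _ _ ho) k
      by_cases h0 : dn4 v k ρ₀ = 0
      · refine hempty _ fun w hw => ?_
        obtain ⟨-, ρ, h1, h2, -⟩ := hw
        rw [bv_update_inl, ho] at h1
        obtain rfl := Option.some.inj h1
        exact h2 (by rw [dn4_update, h0])
      · refine hsub _ (fun w => dd (rt4 (Function.update v (Sum.inl (k, l k)) w) k ρ₀) = 0) (fun w hw => ?_) ?_
        · obtain ⟨-, ρ, h1, -, h2⟩ := hw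
          rw [bv_update_inl, ho] at h1
          obtain rfl := Option.some.inj h1
          exact h2
        · exact card_inj_le (rt4_update_inj v k (l k) ρ₀ h0 (by rw [hρ₀]; exact one_ne_zero))
            (fun α => dd α = 0) (hd 1 one_ne_zero _ fun α h => Or.inl h)
  · refine fiber_univ (Sum.inl (k, l k)) _ B fun v => ?_
    by_cases hkm : k = m
    · exact hempty _ fun w hw => hw.2.1 hkm
    rcases ho : (E4 j (bv v j)).toList[(a : ℕ)]? with _ | ρ₀
    · refine hempty _ fun w hw => ?_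
      obtain ⟨-, -, ρ, h1, h2⟩ := hw
      rw [bv_update_inl, ho] at h1
      exact absurd h1 (by simp)
    · have hρ₀ := hl _ _ _ (hmem _ _ _ ho) k
      by_cases h0 : dn4 v k ρ₀ = 0
      · refine hempty _ fun w hw => ?_
        obtain ⟨-, -, ρ, h1, h2, -⟩ := hw
        rw [bv_update_inl, ho] at h1
        obtain rfl := Option.some.inj h1
        exact h2 (by rw [dn4_update, h0])
      by_cases h1 : dd (rt4 v m ρ₀) = 0
      · refine hempty _ fun w hw => ?_
        obtain ⟨-, -, ρ, h2, -, h3, -⟩ := hw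
        rw [bv_update_inl, ho] at h2
        obtain rfl := Option.some.inj h2
        exact h3 (by rw [rt4_update_ne v (Ne.symm hkm), h1])
      · refine hsub _ (fun w => dd (rt4 (Function.update v (Sum.inl (k, l k)) w) k ρ₀) = 0 ∨
          IsSquare (dd (rt4 v m ρ₀) * dd (rt4 (Function.update v (Sum.inl (k, l k)) w) k ρ₀))) (fun w hw => ?_) ?_
        · obtain ⟨-, -, ρ, h2, -, -, h3⟩ := hw
          rw [bv_update_inl, ho] at h2
          obtain rfl := Option.some.inj h2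
          rw [rt4_update_ne v (Ne.symm hkm)] at h3
          exact Or.inr h3
        · exact card_inj_le (rt4_update_inj v k (l k) ρ₀ h0 (by rw [hρ₀]; exact one_ne_zero))
            (fun α => dd α = 0 ∨ IsSquare (dd (rt4 v m ρ₀) * dd α)) (hd _ h1 _ fun _ h => h)

open Classical in
lemma card_many (dd : ZMod p → ℤ) (r : ℂ → ZMod p) (E : Fin n → Finset (Fin N → ℂ))
    (HH : Fin n → Fin n → MvPolynomial (Fin N ⊕ Fin N) ℂ) (Δ : Finset ℤ) (hΔ : ∀ D ∈ Δ, D ≠ 0)
    (hE : ∀ j, ∀ e ∈ E j, ∃ m, r (e m) ≠ 0) (hHH : ∀ j k, j ≠ k → redP r (HH j k) ≠ 0)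
    (B : ℕ) (hB : 0 < B) (hB' : ∀ j k, (HH j k).totalDegree ≤ B)
    (hd : ∀ D : ℤ, D ≠ 0 → ∀ P : ZMod p → Prop, (∀ α, P α → dd α = 0 ∨ IsSquare (D * dd α)) →
      ((univ : Finset (ZMod p)).filter P).card ≤ B)
    (T : Fin n → Finset (Fin N → ZMod p)) (E4 : Fin n → (Fin N → ZMod p) → Finset (Fin n → Fin N → ZMod p))
    (A D : ℕ) (hT : ∀ j, p ^ N ≤ A * (T j).card) (hD : ∀ j b, (E4 j b).card ≤ D)
    (l : Fin n → Fin N) (hl : ∀ j b, ∀ ρ ∈ E4 j b, ∀ k, ρ k (l k) = 1)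
    (K : ℕ) (hK : Fintype.card (EvT E Δ ⊕ Ev4 n D) ≤ K) (hp : 2 * A ^ n * (K * B) ≤ p)
    (hp2 : 2 * Fintype.card (TX n N) ≤ p) (i : Fin n) :
    p ^ (2 * Fintype.card (TX n N)) ≤ 4 * A ^ n * p *
      ((boxS (Sum.inl (i, l i) : TX n N) p).filter fun x => PT' dd r E HH Δ i (vr x) ∧
        Loc4 dd T E4 (fun j s => vr x (Sum.inl (j, s))) (fun j s => vr x (Sum.inr (j, s))) i).card := by
  have h1 := card_box_of' (ι := TX n N) (Sum.inl (i, l i)) (fun v => PT dd r E HH Δ v ∧ P4 dd T E4 v)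
    (fun v => PT' dd r E HH Δ i v ∧ Loc4 dd T E4 (fun j s => v (Sum.inl (j, s))) (fun j s => v (Sum.inr (j, s))) i)
    (fun v v' hv h => ⟨PT'_of v v' hv h.1, loc4_of v v' hv h.2⟩) (2 * A ^ n) ?_ hp2
  · rw [show 4 * A ^ n * p = 2 * (2 * A ^ n) * p by ring]
    convert h1
  · have hcT : p ^ Fintype.card (TX n N) ≤ A ^ n *
        (@filter _ (fun v : TX n N → ZMod p => ∀ j, bv v j ∈ T j) (fun _ => propDecidable _) univ).card := by
      convert card_T T A hT
    refine union_events' (Sum.elim (BadT dd r E HH Δ) (Bad4 dd E4 D)) B (A ^ n) (fun v => ∀ j, bv v j ∈ T j)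
      (fun v => PT dd r E HH Δ v ∧ P4 dd T E4 v) hcT ?_ ?_ (le_trans ?_ hp)
    · intro v hv hv'
      by_cases h2 : PT dd r E HH Δ v
      · obtain ⟨b, hb⟩ := exists_bad4 dd T E4 D hD v hv (fun h3 => hv' ⟨h2, h3⟩)
        exact ⟨Sum.inr b, hb⟩
      · obtain ⟨b, hb⟩ := exists_badT dd r E HH Δ v h2
        exact ⟨Sum.inl b, hb⟩
    · rintro (b | b)
      · exact badT_small dd r E HH Δ hΔ hE hHH B hB hB' hd b
      · exact bad4_small dd E4 D l hl B hB hd b
    · exact Nat.mul_le_mul_left _ (Nat.mul_le_mul_right _ hK)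

end params

open Classical in
theorem density_many {n N : ℕ} (d : ∀ p : ℕ, ValuationSubring ℂ → ZMod p → ℤ)
    (hd : ∀ ε : ℝ, 0 < ε → ∃ p₀ : ℕ, ∀ p : ℕ, ∀ (_ : Fact p.Prime), p₀ ≤ p → ∀ V : ValuationSubring ℂ,
      V.valuation (p : ℂ) < 1 → ∀ D : ℤ, D ≠ 0 →
      (((Finset.univ : Finset (ZMod p)).filter fun α => d p V α = 0 ∨ IsSquare (D * d p V α)).card : ℝ) ≤ ε * p)
    (S : Finset ℂ) (E : Fin n → Finset (Fin N → ℂ)) (hE : ∀ j, ∀ e ∈ E j, e ≠ 0)
    (HH : Fin n → Fin n → MvPolynomial (Fin N ⊕ Fin N) ℂ) (hHH : ∀ j k, j ≠ k → HH j k ≠ 0)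
    (l : Fin n → Fin N) (S₄ : Finset ℂ) (C₀ D₀ P₀ : ℕ)
    (Q : ∀ (p : ℕ) (_ : Fact p.Prime), ValuationSubring ℂ → (Fin n → Finset (Fin N → ZMod p)) →
      (Fin n → (Fin N → ZMod p) → Finset (Fin n → Fin N → ZMod p)) → Prop)
    (hQ : ∀ (p : ℕ) (hp : Fact p.Prime), P₀ ≤ p → ∀ (V : ValuationSubring ℂ)
      (ψ : ZMod p →+* IsLocalRing.ResidueField V) (r : ℂ → ZMod p), V.valuation (p : ℂ) < 1 →
      (∀ s ∈ S₄, Rs ψ s (r s)) → ∃ (T : Fin n → Finset (Fin N → ZMod p))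
        (E4 : Fin n → (Fin N → ZMod p) → Finset (Fin n → Fin N → ZMod p)),
        (∀ j, p ^ N ≤ C₀ * (T j).card) ∧ (∀ j b, (E4 j b).card ≤ D₀) ∧
        (∀ j b, ∀ ρ ∈ E4 j b, ∀ k, ρ k (l k) = 1) ∧ Q p hp V T E4)
    (Good : (Fin n → Fin N → ℚ × ℚ) → Prop)
    (hGood : ∀ c : Fin n → Fin N → ℚ × ℚ,
      (∀ i, ∃ (p q : ℕ) (hp : Fact p.Prime) (hq : Fact q.Prime) (V V' : ValuationSubring ℂ)
          (ρ ρ' : Fin n → (Fin N → ℂ) → ℤ) (T : Fin n → Finset (Fin N → ZMod p))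
          (E4 : Fin n → (Fin N → ZMod p) → Finset (Fin n → Fin N → ZMod p)) (T' : Fin n → Finset (Fin N → ZMod q))
          (E4' : Fin n → (Fin N → ZMod q) → Finset (Fin n → Fin N → ZMod q)), p ≠ q ∧
        RedT d S E HH (fun i k => (((c i k).1 : ℂ), ((c i k).2 : ℂ))) i (l i) p V ρ ∧
        RedT d S E HH (fun i k => (((c i k).1 : ℂ), ((c i k).2 : ℂ))) i (l i) q V' ρ' ∧
        Q p hp V T E4 ∧ Q q hq V' T' E4' ∧
        (∀ j s, j ≠ i → ((c j s).1.den : ZMod p) ≠ 0) ∧ (∀ j s, ((c j s).2.den : ZMod p) ≠ 0) ∧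
        (∀ j s, j ≠ i → ((c j s).1.den : ZMod q) ≠ 0) ∧ (∀ j s, ((c j s).2.den : ZMod q) ≠ 0) ∧
        Loc4 (d p V) T E4 (fun j s => redQ p (c j s).1) (fun j s => redQ p (c j s).2) i ∧
        Loc4 (d q V') T' E4' (fun j s => redQ q (c j s).1) (fun j s => redQ q (c j s).2) i ∧
        ∀ j, j ≠ i → ∀ e ∈ E j, ∀ e' ∈ E j,
          ¬ IsSquare (d p V (ρ j e : ZMod p) * d q V' (ρ' j e' : ZMod q))) → Good c) :
    Tendsto (fun H : ℕ => ((boxT n N H ∩ {c | ¬ Good c}).ncard : ℝ) / (boxT n N H).ncard) atTop (𝓝 0) := by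
  set U : Finset ℂ := (S ∪ S₄) ∪ ((univ.biUnion fun j => (E j).biUnion fun ζ => univ.image ζ) ∪
    univ.biUnion fun jk : Fin n × Fin n => (HH jk.1 jk.2).support.image fun m => (HH jk.1 jk.2).coeff m) with hU
  have hUS : ∀ s ∈ S, s ∈ U := fun s hs => mem_union_left _ (mem_union_left _ hs)
  have hUS₄ : ∀ s ∈ S₄, s ∈ U := fun s hs => mem_union_left _ (mem_union_right _ hs)
  have hUE : ∀ j, ∀ ζ ∈ E j, ∀ k, ζ k ∈ U := by
    intro j ζ hζ k
    refine mem_union_right _ (mem_union_left _ ?_)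
    rw [mem_biUnion]
    refine ⟨j, mem_univ _, ?_⟩
    rw [mem_biUnion]
    exact ⟨ζ, hζ, mem_image_of_mem _ (mem_univ k)⟩
  have hUH : ∀ j k, ∀ m ∈ (HH j k).support, (HH j k).coeff m ∈ U := by
    intro j k m hm
    refine mem_union_right _ (mem_union_right _ ?_)
    rw [mem_biUnion]
    exact ⟨(j, k), mem_univ _, mem_image_of_mem _ hm⟩
  obtain ⟨PP, hPP, hV⟩ := exists_split_primes U
  choose! V hpV hVU using hV
  -- residues
  let r : ∀ p : Nat.Primes, ℂ → ZMod (p : ℕ) := fun p s =>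
    if h : ∃ m : ℤ, (V p).valuation (s - (m : ℂ)) < 1 then ((h.choose : ℤ) : ZMod (p : ℕ)) else 0
  let ψ : ∀ p : Nat.Primes, p ∈ PP → (ZMod (p : ℕ) →+* IsLocalRing.ResidueField (V p)) := fun p hp =>
    haveI := charP_residue (V := V p) p.2 (hpV p hp)
    ZMod.castHom (dvd_refl (p : ℕ)) _
  have hr : ∀ p (hp : p ∈ PP), ∀ s ∈ U, Rs (ψ p hp) s (r p s) := by
    intro p hp s hs
    obtain ⟨h1, h2, h3⟩ := hVU p hp s hs
    refine ⟨h1, ?_⟩
    have h4 : (V p).valuation (s - (h3.choose : ℂ)) < 1 := h3.choose_spec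
    have h5 : r p s = ((h3.choose : ℤ) : ZMod (p : ℕ)) := by
      simp only [r]
      rw [dif_pos h3]
    rw [h5, map_intCast, ← sub_eq_zero, ← map_intCast (IsLocalRing.residue (V p)), ← map_sub, residue_eq_zero]
    simpa using h4
  have hr0 : ∀ p ∈ PP, ∀ s ∈ U, s ≠ 0 → r p s ≠ 0 := by
    intro p hp s hs h0 h1
    have h2 := hr p hp s hs
    rw [h1] at h2
    have h3 := h2.val_lt
    rw [(hVU p hp s hs).2.1 h0] at h3
    exact lt_irrefl _ h3
  -- the totally split residue classes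
  have hTE : ∀ p : Nat.Primes, ∃ (T : Fin n → Finset (Fin N → ZMod (p : ℕ)))
      (E4 : Fin n → (Fin N → ZMod (p : ℕ)) → Finset (Fin n → Fin N → ZMod (p : ℕ))), p ∈ PP → P₀ ≤ (p : ℕ) →
        (∀ j, (p : ℕ) ^ N ≤ (C₀ + 1) * (T j).card) ∧ (∀ j b, (E4 j b).card ≤ D₀) ∧
        (∀ j b, ∀ ρ ∈ E4 j b, ∀ k, ρ k (l k) = 1) ∧ Q p inferInstance (V p) T E4 := by
    intro p
    by_cases hp : p ∈ PP
    · by_cases hpP : P₀ ≤ (p : ℕ)
      · obtain ⟨T, E4, h1, h2, h3, h4⟩ := hQ p inferInstance hpP (V p) (ψ p hp) (r p) (hpV p hp)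
          fun s hs => hr p hp s (hUS₄ s hs)
        exact ⟨T, E4, fun _ _ => ⟨fun j => (h1 j).trans (Nat.mul_le_mul_right _ (Nat.le_succ _)), h2, h3, h4⟩⟩
      · exact ⟨fun _ => ∅, fun _ _ => ∅, fun _ h => absurd h hpP⟩
    · exact ⟨fun _ => ∅, fun _ _ => ∅, fun h => absurd h hp⟩
  choose T E4 hTE using hTE
  -- the bounds
  set e := ((univ : Finset (Fin n)).sigma E).card with he
  set K : ℕ := (e + (e * (e + 2) + (e * e + n * n))) + (n * (n * D₀) + (n * (n * D₀) + n * (n * (n * D₀)))) with hK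
  set K' : ℕ := (C₀ + 1) ^ n * K with hK'
  set DM : ℕ := ∑ jk : Fin n × Fin n, (HH jk.1 jk.2).totalDegree with hDM
  have hDM' : ∀ j k, (HH j k).totalDegree ≤ DM := fun j k =>
    single_le_sum (f := fun jk : Fin n × Fin n => (HH jk.1 jk.2).totalDegree) (fun _ _ => Nat.zero_le _)
      (mem_univ (j, k))
  obtain ⟨p₀, hp₀⟩ := hd (1 / (2 * ((K' : ℝ) + 1))) (by positivity)
  set P₁ : ℕ := p₀ + 2 * (K' + 1) * (DM + 1) + 2 * Fintype.card (TX n N) + 2 + P₀ with hP₁
  have hkey : ∀ p ∈ PP, P₁ < (p : ℕ) → ∀ Δ : Finset ℤ, (∀ D ∈ Δ, D ≠ 0) → Δ.card ≤ e + 1 →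
      ∀ i : Fin n, (p : ℕ) ^ (2 * Fintype.card (TX n N)) ≤
        4 * (C₀ + 1) ^ n * (p : ℕ) * ((boxS (Sum.inl (i, l i) : TX n N) (p : ℕ)).filter
          fun x => PT' (d p (V p)) (r p) E HH Δ i (vr x) ∧
            Loc4 (d p (V p)) (T p) (E4 p) (fun j s => vr x (Sum.inl (j, s))) (fun j s => vr x (Sum.inr (j, s))) i).card := by
    intro p hp hpP Δ hΔ hΔc i
    have hpR : ((2 * (K' + 1) * (DM + 1) : ℕ) : ℝ) ≤ (p : ℝ) := by
      exact_mod_cast (by omega : 2 * (K' + 1) * (DM + 1) ≤ (p : ℕ))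
    push_cast at hpR
    have hfl : (⌊1 / (2 * ((K' : ℝ) + 1)) * (p : ℝ)⌋₊ : ℝ) ≤ 1 / (2 * ((K' : ℝ) + 1)) * (p : ℝ) :=
      Nat.floor_le (by positivity)
    have hBD : DM + 1 ≤ ⌊1 / (2 * ((K' : ℝ) + 1)) * (p : ℝ)⌋₊ := by
      refine Nat.le_floor ?_
      rw [one_div_mul_eq_div, le_div_iff₀ (by positivity)]
      push_cast
      linarith
    obtain ⟨k1, k2, k3, -⟩ := hTE p hp (by omega)
    refine card_many (d p (V p)) (r p) E HH Δ hΔ ?_ ?_ ⌊1 / (2 * ((K' : ℝ) + 1)) * (p : ℝ)⌋₊ (by omega)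
      (fun j k => (hDM' j k).trans (by omega)) ?_ (T p) (E4 p) (C₀ + 1) D₀ k1 k2 l k3 K ?_ ?_ (by omega) i
    · intro j ζ hζ
      by_contra hcon
      push Not at hcon
      apply hE j ζ hζ
      funext m
      by_contra h0
      exact hr0 p hp _ (hUE j ζ hζ m) h0 (hcon m)
    · intro j k hjk
      refine redP_ne_zero _ _ (hHH j k hjk) fun m hm => hr0 p hp _ (hUH j k m hm) ?_
      exact MvPolynomial.mem_support_iff.mp hm
    · intro D hD P hP
      refine Nat.le_floor (le_trans ?_ (hp₀ p inferInstance (by omega) (V p) (hpV p hp) D hD))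
      refine Nat.cast_le.mpr (card_le_card ?_)
      intro α hα
      rw [mem_filter] at hα ⊢
      exact ⟨hα.1, hP α hα.2⟩
    · rw [Fintype.card_sum, Fintype.card_sum, Fintype.card_sum, Fintype.card_sum, Fintype.card_sum, Fintype.card_sum]
      simp only [Fintype.card_prod, Fintype.card_option, Fintype.card_coe, Fintype.card_fin]
      rw [← he, hK]
      have : e * (Δ.card + 1) ≤ e * (e + 2) := Nat.mul_le_mul_left _ (by omega)
      omega
    · have h2 : (2 * ((K' : ℝ) * (⌊1 / (2 * ((K' : ℝ) + 1)) * (p : ℝ)⌋₊ : ℝ))) ≤ (p : ℝ) := by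
        have h3 : ((K' : ℝ) + 1) * (1 / (2 * ((K' : ℝ) + 1)) * (p : ℝ)) = (p : ℝ) / 2 := by
          field_simp
        have h4 : ((K' : ℝ) + 1) * (⌊1 / (2 * ((K' : ℝ) + 1)) * (p : ℝ)⌋₊ : ℝ) ≤ (p : ℝ) / 2 := by
          rw [← h3]
          exact mul_le_mul_of_nonneg_left hfl (by positivity)
        have h5 : (0 : ℝ) ≤ (⌊1 / (2 * ((K' : ℝ) + 1)) * (p : ℝ)⌋₊ : ℝ) := Nat.cast_nonneg _
        nlinarith
      have h3 : 2 * (C₀ + 1) ^ n * (K * ⌊1 / (2 * ((K' : ℝ) + 1)) * (p : ℝ)⌋₊) =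
          2 * (K' * ⌊1 / (2 * ((K' : ℝ) + 1)) * (p : ℝ)⌋₊) := by
        rw [hK']
        ring
      rw [h3]
      exact_mod_cast h2
  let Δ₂ : ∀ p : Nat.Primes, (TX n N ⊕ TX n N → ZMod (p : ℕ)) → Finset ℤ := fun p x =>
    (((univ : Finset (Fin n)).sigma E).image fun b : (Σ _ : Fin n, (Fin N → ℂ)) =>
      d p (V p) (rtT (r p) (vr x) b.1 b.2)).filter fun D => D ≠ 0
  have hΔ₂ : ∀ p x, (∀ D ∈ Δ₂ p x, D ≠ 0) ∧ (Δ₂ p x).card ≤ e + 1 := by
    intro p x
    refine ⟨fun D hD => (mem_filter.mp hD).2, ?_⟩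
    refine ((card_filter_le _ _).trans card_image_le).trans ?_
    omega
  have hden := density_pair (ι := TX n N) (J := Fin n) (fun c => Good (unT c)) PP hPP (4 * (C₀ + 1) ^ n)
    (by positivity) (fun p i => (boxS (Sum.inl (i, l i) : TX n N) (p : ℕ)).filter
      fun x => PT' (d p (V p)) (r p) E HH ∅ i (vr x) ∧
        Loc4 (d p (V p)) (T p) (E4 p) (fun j s => vr x (Sum.inl (j, s))) (fun j s => vr x (Sum.inr (j, s))) i)
    (fun p x q i => (boxS (Sum.inl (i, l i) : TX n N) (q : ℕ)).filter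
      fun y => PT' (d q (V q)) (r q) E HH (Δ₂ p x) i (vr y) ∧
        Loc4 (d q (V q)) (T q) (E4 q) (fun j s => vr y (Sum.inl (j, s))) (fun j s => vr y (Sum.inr (j, s))) i)
    (fun _ => P₁) P₁
    (fun p hp hpP i => hkey p hp hpP ∅ (by simp) (by simp) i)
    (fun p _ _ i x _ q hq hqP => hkey q hq hqP (Δ₂ p x) (hΔ₂ p x).1 (hΔ₂ p x).2 i) (by
      intro c hc
      apply hGood
      intro i
      obtain ⟨p, hp, q, hq, hpq, hpP, hqP, h1, h2⟩ := hc i
      rw [mem_filter] at h1 h2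
      have k1 := redT_of (ψ p hp) d S E HH (by omega) (hpV p hp) (r p) (fun s hs => (hVU p hp s (hUS s hs)).1)
        (fun j ζ hζ k => hr p hp _ (hUE j ζ hζ k)) (fun j k m hm => hr p hp _ (hUH j k m hm)) h1.1 h1.2.1
      have k2 := redT_of (ψ q hq) d S E HH (by omega) (hpV q hq) (r q) (fun s hs => (hVU q hq s (hUS s hs)).1)
        (fun j ζ hζ k => hr q hq _ (hUE j ζ hζ k)) (fun j k m hm => hr q hq _ (hUH j k m hm)) h2.1 h2.2.1
      have hvr : ∀ (p : Nat.Primes) (s : TX n N), vr (fun k => (toInt c k : ZMod (p : ℕ))) s = redQ p (c s) := by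
        intro p s
        simp [vr, toInt, redQ]
      have hdn : ∀ (p : Nat.Primes), (fun k => (toInt c k : ZMod (p : ℕ))) ∈ boxS (Sum.inl (i, l i) : TX n N) (p : ℕ) →
          ∀ s : TX n N, s ≠ Sum.inl (i, l i) → ((c s).den : ZMod (p : ℕ)) ≠ 0 := by
        intro p hbx s hs
        rw [mem_boxS] at hbx
        have := hbx.2.2 s hs
        simpa [toInt] using this
      have l1 := h1.2.2
      have l2 := h2.2.2
      simp only [hvr] at l1 l2
      refine ⟨p, q, inferInstance, inferInstance, V p, V q, _, _, T p, E4 p, T q, E4 q, fun h => hpq (Subtype.ext h),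
        k1, k2, (hTE p hp (by omega)).2.2.2, (hTE q hq (by omega)).2.2.2, ?_, ?_, ?_, ?_, l1, l2, ?_⟩
      · intro j s hj
        exact hdn p h1.1 (Sum.inl (j, s)) fun h => hj (Prod.ext_iff.mp (Sum.inl.inj h)).1
      · intro j s
        exact hdn p h1.1 (Sum.inr (j, s)) (by simp)
      · intro j s hj
        exact hdn q h2.1 (Sum.inl (j, s)) fun h => hj (Prod.ext_iff.mp (Sum.inl.inj h)).1
      · intro j s
        exact hdn q h2.1 (Sum.inr (j, s)) (by simp)
      intro j hj e he e' he' hsq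
      have hcast : ∀ (p : Nat.Primes) (a : ZMod (p : ℕ)), (((a.val : ℕ) : ℤ) : ZMod (p : ℕ)) = a := by
        intro p a
        have : NeZero (p : ℕ) := ⟨p.2.ne_zero⟩
        rw [Int.cast_natCast, ZMod.natCast_zmod_val]
      have h0 := k1.ord j hj e he
      rw [hcast] at hsq h0
      rw [hcast] at hsq
      refine h2.2.1.del j hj e' he' _ ?_ hsq
      simp only [Δ₂]
      rw [mem_filter]
      refine ⟨mem_image.mpr ⟨⟨j, e⟩, mem_sigma.mpr ⟨mem_univ _, he⟩, rfl⟩, h0⟩)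
  refine hden.congr fun H => ?_
  have habs : ∀ (z : ℤ), z.natAbs ≤ H ↔ |z| ≤ (H : ℤ) := by
    intro z
    rw [Int.abs_eq_natAbs]
    exact_mod_cast Iff.rfl
  have e1 : boxT n N H = unT '' {c : TX n N → ℚ | ∀ s, (c s).num.natAbs ≤ H ∧ (c s).den ≤ H} := by
    ext c
    constructor
    · intro hc
      refine ⟨Sum.elim (fun s => (c s.1 s.2).1) fun s => (c s.1 s.2).2, ?_, rfl⟩
      rintro (s | s)
      · exact ⟨(habs _).mpr (hc s.1 s.2).1, (hc s.1 s.2).2.1⟩
      · exact ⟨(habs _).mpr (hc s.1 s.2).2.2.1, (hc s.1 s.2).2.2.2⟩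
    · rintro ⟨c, hc, rfl⟩ i k
      exact ⟨(habs _).mp (hc (Sum.inl (i, k))).1, (hc (Sum.inl (i, k))).2, (habs _).mp (hc (Sum.inr (i, k))).1,
        (hc (Sum.inr (i, k))).2⟩
  have e2 : boxT n N H ∩ {c | ¬ Good c} =
      unT '' {c : TX n N → ℚ | (∀ s, (c s).num.natAbs ≤ H ∧ (c s).den ≤ H) ∧ ¬ Good (unT c)} := by
    rw [e1]
    ext c
    constructor
    · rintro ⟨⟨c, hc, rfl⟩, hc'⟩
      exact ⟨c, ⟨hc, hc'⟩, rfl⟩
    · rintro ⟨c, ⟨hc, hc'⟩, rfl⟩
      exact ⟨⟨c, hc, rfl⟩, hc'⟩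
  rw [e2, e1, Set.ncard_image_of_injective _ unT_injective, Set.ncard_image_of_injective _ unT_injective]

end Pool.Agent.ZPL
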