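import Mathlib
import Pool.Agent.ZPL.ManyCrit0

/-!
The criterion for curves whose coordinate functions are ratios of members of linear systems: the points with
a non-integral coordinate other than the private one.
-/

namespace Pool.Agent.ZPL

open Pool.Agent.ZPOrd Pool.Agent.Lib.ModularZP Pool.Agent.ZP46

variable {K : Type*} [Field K] [Algebra ℂ K]

lemma rs_redQ {p : ℕ} [Fact p.Prime] {V : ValuationSubring ℂ} (ψ : ZMod p →+* IsLocalRing.ResidueField V) {q : ℚ}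
    (h : (q.den : ZMod p) ≠ 0) : Rs ψ (q : ℂ) (redQ p q) := Rs.rat h

theorem four_of_split (htr : Algebra.trdeg ℂ K = 1) {n N : ℕ} (u : Fin n → Fin N → K)
    (l : Fin n → Fin N) (hl : ∀ i, u i (l i) = 1) {d : ∀ p : ℕ, ValuationSubring ℂ → ZMod p → ℤ}
    {S : Finset ℂ} {E : Fin n → Finset (Fin N → ℂ)} {HH : Fin n → Fin n → MvPolynomial (Fin N ⊕ Fin N) ℂ}
    (hE : ∀ j, ∀ W : ValuationSubring K, (∀ s ∈ S, algebraMap ℂ K s ∈ W) → AtPole W (u j) →
        ∃ m, u j m ∉ W ∧ ∃ ζ ∈ E j, (∀ a, algebraMap ℂ K (ζ a) ∈ W) ∧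
          ∀ a, W.valuation (u j a / u j m - algebraMap ℂ K (ζ a)) < 1)
    {c : Fin n → Fin N → ℚ × ℚ} {i : Fin n} {p : ℕ} [hpf : Fact p.Prime] {V : ValuationSubring ℂ}
    {ρ : Fin n → (Fin N → ℂ) → ℤ} {T : Fin n → Finset (Fin N → ZMod p)}
    {E4 : Fin n → (Fin N → ZMod p) → Finset (Fin n → Fin N → ZMod p)}
    (hR : RedT d S E HH (fun i k => (((c i k).1 : ℂ), ((c i k).2 : ℂ))) i (l i) p V ρ)
    (hQ : SplitQ u p V T E4) (hd1 : ∀ j s, j ≠ i → ((c j s).1.den : ZMod p) ≠ 0)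
    (hd2 : ∀ j s, ((c j s).2.den : ZMod p) ≠ 0)
    (h4 : Loc4 (d p V) T E4 (fun j s => redQ p (c j s).1) (fun j s => redQ p (c j s).2) i) :
    Four d p V i (placeCurve fun i => ratio (u i) (fun k => (((c i k).1 : ℂ), ((c i k).2 : ℂ)))) := by
  classical
  have : NeZero p := ⟨hpf.out.ne_zero⟩
  haveI := charP_residue (V := V) hpf.out hR.val
  let ψ : ZMod p →+* IsLocalRing.ResidueField V := ZMod.castHom (dvd_refl p) _
  have hcast : ∀ a : ZMod p, (((a.val : ℕ) : ℤ) : ZMod p) = a := by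
    intro a
    rw [Int.cast_natCast, ZMod.natCast_zmod_val]
  set cc : Fin n → Fin N → ℂ × ℂ := fun i k => (((c i k).1 : ℂ), ((c i k).2 : ℂ)) with hcc
  rintro x ⟨P, hP, hPt, hPx⟩ j k m hj hk hm hjk hjm hkm hxj
  obtain ⟨W, _, hWc, hWm, hWlt⟩ := exists_comp htr hP hPt V
  have hc0 : ∀ z : ℂ, P.valuation (algebraMap ℂ K z - algebraMap ℂ K z) < 1 := fun z => by
    rw [sub_self, map_zero]; exact zero_lt_one
  have hlt : ∀ z : ℂ, W.valuation (algebraMap ℂ K z) < 1 ↔ V.valuation z < 1 := fun z => hWlt _ z (hc0 z)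
  have hW1 : ∀ z : ℂ, V.valuation z = 1 → W.valuation (algebraMap ℂ K z) = 1 := by
    intro z hz
    refine le_antisymm ((W.valuation_le_one_iff _).mpr ((hWc z).mpr ((V.valuation_le_one_iff _).mp hz.le))) ?_
    by_contra hcon
    push Not at hcon
    have := (hlt z).mp hcon
    rw [hz] at this
    exact lt_irrefl _ this
  have hWS : ∀ s ∈ S, algebraMap ℂ K s ∈ W := fun s hs => (hWc s).mpr (hR.memS s hs)
  have hB : ∀ j k, algebraMap ℂ K (cc j k).2 ∈ W := fun j k => (hWc _).mpr (hR.memB j k)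
  have hA : ∀ j, j ≠ i → ∀ k, algebraMap ℂ K (cc j k).1 ∈ W := fun j hj k =>
    (hWc _).mpr (hR.memA j k fun h => hj (Prod.ext_iff.mp h).1)
  have hlin : ∀ (m : Fin N) (a : Fin N → ℂ), lin (u j) a / u j m = ∑ k, algebraMap ℂ K (a k) * (u j k / u j m) := by
    intro m a
    rw [lin, Finset.sum_div]
    refine Finset.sum_congr rfl fun k _ => ?_
    rw [mul_div_assoc]
  -- the denominator of the `j`-th coordinate is small
  obtain ⟨m', hm0, hmW, hm1⟩ : ∃ m, u j m ≠ 0 ∧ (∀ a, u j a / u j m ∈ W) ∧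
      W.valuation (lin (u j) (fun k => (cc j k).2) / u j m) < 1 := by
    obtain ⟨m, -, hm⟩ := Finset.exists_max_image (Finset.univ : Finset (Fin N)) (fun a => W.valuation (u j a))
      ⟨l j, Finset.mem_univ _⟩
    have hm0 : u j m ≠ 0 := by
      intro h0
      have h1 := hm (l j) (Finset.mem_univ _)
      simp only [hl j, h0, map_one, map_zero] at h1
      exact absurd h1 (not_le.mpr zero_lt_one)
    have hmW : ∀ a, u j a / u j m ∈ W := by
      intro a
      rw [← W.valuation_le_one_iff, map_div₀]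
      exact div_le_one_of_le₀ (hm a (Finset.mem_univ _)) zero_le
    refine ⟨m, hm0, hmW, ?_⟩
    rw [hlin]
    have h1 : ∑ a, algebraMap ℂ K (cc j a).2 * (u j a / u j m) ∈ W :=
      sum_mem fun k _ => W.mul_mem _ _ (hB j k) (hmW k)
    have h2 : ∑ a, algebraMap ℂ K (cc j a).1 * (u j a / u j m) ∈ W :=
      sum_mem fun k _ => W.mul_mem _ _ (hA j hj k) (hmW k)
    by_contra hlt
    have h3 : W.valuation (∑ a, algebraMap ℂ K (cc j a).2 * (u j a / u j m)) = 1 :=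
      le_antisymm ((W.valuation_le_one_iff _).mpr h1) (not_lt.mp hlt)
    apply hxj
    refine (hWm _ _ (hPx j)).mp ?_
    have h4 : ratio (u j) (cc j) = (∑ a, algebraMap ℂ K (cc j a).1 * (u j a / u j m)) /
        (∑ a, algebraMap ℂ K (cc j a).2 * (u j a / u j m)) := by
      rw [← hlin m fun a => (cc j a).1, ← hlin m fun a => (cc j a).2, div_div_div_cancel_right₀ hm0]
      rfl
    change ratio (u j) (cc j) ∈ W
    rw [h4, ← W.valuation_le_one_iff, map_div₀, h3, div_one]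
    exact (W.valuation_le_one_iff _).mpr h2
  -- not at a pole of the linear system
  have hnp : ∀ a, u j a ∈ W := by
    by_contra hcon
    push Not at hcon
    obtain ⟨m2, hm2, ζ, hζE, hζW, hζ⟩ := hE j W hWS hcon
    have hm20 : u j m2 ≠ 0 := fun h => hm2 (by rw [h]; exact W.zero_mem)
    have h1 := lin_close (W := W) (u := u j) (m := m2) (e := ζ) hζ (c := fun k => (cc j k).2) fun k => hB j k
    have h2 := hW1 _ (hR.unit j ζ hζE)
    have h3 : W.valuation (lin (u j) (fun k => (cc j k).2) / u j m2) = 1 := by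
      have h4 : lin (u j) (fun k => (cc j k).2) / u j m2 = (lin (u j) (fun k => (cc j k).2) / u j m2 -
        algebraMap ℂ K (∑ k, (cc j k).2 * ζ k)) + algebraMap ℂ K (∑ k, (cc j k).2 * ζ k) := by ring
      rw [h4, W.valuation.map_add_eq_of_lt_right (by rw [h2]; exact h1), h2]
    have h5 : u j m' / u j m2 ∈ W := by
      have h6 : u j m' / u j m2 = (u j m' / u j m2 - algebraMap ℂ K (ζ m')) + algebraMap ℂ K (ζ m') := by ring
      rw [h6]
      exact W.add_mem _ _ ((W.valuation_le_one_iff _).mp (hζ m').le) (hζW m')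
    have h6 : lin (u j) (fun k => (cc j k).2) / u j m2 =
        (lin (u j) (fun k => (cc j k).2) / u j m') * (u j m' / u j m2) := by
      field_simp
    rw [h6, map_mul] at h3
    have h7 := mul_lt_one_of_lt_of_le hm1 ((W.valuation_le_one_iff _).mpr h5)
    rw [h3] at h7
    exact lt_irrefl _ h7
  have hden : W.valuation (∑ a, algebraMap ℂ K ((c j a).2 : ℂ) * u j a) < 1 := by
    have h1 : ∑ a, algebraMap ℂ K ((c j a).2 : ℂ) * u j a = (lin (u j) (fun k => (cc j k).2) / u j m') * u j m' := by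
      rw [div_mul_cancel₀ _ hm0]
      rfl
    rw [h1, map_mul]
    exact mul_lt_one_of_lt_of_le hm1 ((W.valuation_le_one_iff _).mpr (hnp m'))
  obtain ⟨σ, hσ, hσW⟩ := hQ j (fun a => (c j a).2) (fun a => hd2 j a) (h4.split j hj) W hWc hnp hden
  -- the values of the other coordinates
  have hval : ∀ k, k ≠ i → j ≠ k → ∃ r : ℤ, V.valuation (x k - (r : ℂ)) < 1 ∧ (r : ZMod p) =
      (∑ s, redQ p (c k s).1 * σ k s) / (∑ s, redQ p (c k s).2 * σ k s) := by
    intro k hk hjk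
    refine ⟨(((∑ s, redQ p (c k s).1 * σ k s) / (∑ s, redQ p (c k s).2 * σ k s) : ZMod p).val : ℤ), ?_, hcast _⟩
    set e : Fin N → ℂ := fun s => (((σ k s).val : ℤ) : ℂ) with he
    have h1 : ∀ s, W.valuation (u k s / u k (l k) - algebraMap ℂ K (e s)) < 1 := by
      intro s
      rw [hl k, div_one]
      exact hσW k s _ (hcast _)
    have hes : ∀ s, Rs ψ (e s) (σ k s) := by
      intro s
      have h2 := Rs.int (ψ := ψ) (((σ k s).val : ℕ) : ℤ)
      rw [hcast] at h2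
      exact h2
    have hBk : Rs ψ (∑ s, (cc k s).2 * e s) (∑ s, redQ p (c k s).2 * σ k s) :=
      Rs.sum _ _ _ fun s _ => (rs_redQ ψ (hd2 k s)).mul (hes s)
    have hAk : Rs ψ (∑ s, (cc k s).1 * e s) (∑ s, redQ p (c k s).1 * σ k s) :=
      Rs.sum _ _ _ fun s _ => (rs_redQ ψ (hd1 k s hk)).mul (hes s)
    have hne := h4.den j k hj hk hjk σ hσ
    have h2 := ratio_close (W := W) (u := u k) (m := l k) (by rw [hl k]; exact one_ne_zero) h1 (c := cc k)
      (hA k hk) (hB k) (fun s => (hWc _).mpr (hes s).1) (hW1 _ (hBk.val_one hne))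
    have h3 := hAk.div_sub hBk hne (hcast ((∑ s, redQ p (c k s).1 * σ k s) / (∑ s, redQ p (c k s).2 * σ k s)))
    have h4' : P.valuation (ratio (u k) (cc k) - algebraMap ℂ K ((∑ s, (cc k s).1 * e s) / (∑ s, (cc k s).2 * e s)) -
        algebraMap ℂ K (x k - (∑ s, (cc k s).1 * e s) / (∑ s, (cc k s).2 * e s))) < 1 := by
      have h5 : ratio (u k) (cc k) - algebraMap ℂ K ((∑ s, (cc k s).1 * e s) / (∑ s, (cc k s).2 * e s)) -
          algebraMap ℂ K (x k - (∑ s, (cc k s).1 * e s) / (∑ s, (cc k s).2 * e s)) =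
          ratio (u k) (cc k) - algebraMap ℂ K (x k) := by
        rw [map_sub]; ring
      rw [h5]
      exact hPx k
    have h5 := (hWlt _ _ h4').mp h2
    have h6 : ∀ r : ℂ, x k - r = (x k - (∑ s, (cc k s).1 * e s) / (∑ s, (cc k s).2 * e s)) +
        ((∑ s, (cc k s).1 * e s) / (∑ s, (cc k s).2 * e s) - r) := fun r => by ring
    rw [h6]
    exact V.valuation.map_add_lt h5 h3
  obtain ⟨r, hr, hr'⟩ := hval k hk hjk
  obtain ⟨s, hs, hs'⟩ := hval m hm hjm
  refine ⟨r, s, hr, hs, ?_, ?_, ?_⟩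
  · rw [hr']
    exact h4.ord j k hj hk hjk σ hσ
  · rw [hs']
    exact h4.ord j m hj hm hjm σ hσ
  · rw [hr', hs']
    exact h4.cross j k m hj hk hm hjk hjm hkm σ hσ

theorem manyCrit {K : Type*} [Field K] [Algebra ℂ K] (htr : Algebra.trdeg ℂ K = 1) {n N : ℕ} (u : Fin n → Fin N → K)
    (l : Fin n → Fin N) (hl : ∀ i, u i (l i) = 1) (hu : ∀ i, ∃ k, Transcendental ℂ (u i k))
    {d : ∀ p : ℕ, ValuationSubring ℂ → ZMod p → ℤ} (hd : DiscFn d) :
    ∃ (S : Finset ℂ) (E : Fin n → Finset (Fin N → ℂ)) (HH : Fin n → Fin n → MvPolynomial (Fin N ⊕ Fin N) ℂ),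
      (∀ j, ∀ e ∈ E j, e ≠ 0) ∧ (∀ j k, j ≠ k → HH j k ≠ 0) ∧
      ∀ c : Fin n → Fin N → ℚ × ℚ, (∀ i, ∃ (p q : ℕ) (_ : Fact p.Prime) (_ : Fact q.Prime) (V V' : ValuationSubring ℂ)
          (ρ ρ' : Fin n → (Fin N → ℂ) → ℤ) (T : Fin n → Finset (Fin N → ZMod p))
          (E4 : Fin n → (Fin N → ZMod p) → Finset (Fin n → Fin N → ZMod p)) (T' : Fin n → Finset (Fin N → ZMod q))
          (E4' : Fin n → (Fin N → ZMod q) → Finset (Fin n → Fin N → ZMod q)), p ≠ q ∧
        RedT d S E HH (fun i k => (((c i k).1 : ℂ), ((c i k).2 : ℂ))) i (l i) p V ρ ∧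
        RedT d S E HH (fun i k => (((c i k).1 : ℂ), ((c i k).2 : ℂ))) i (l i) q V' ρ' ∧
        SplitQ u p V T E4 ∧ SplitQ u q V' T' E4' ∧
        (∀ j s, j ≠ i → ((c j s).1.den : ZMod p) ≠ 0) ∧ (∀ j s, ((c j s).2.den : ZMod p) ≠ 0) ∧
        (∀ j s, j ≠ i → ((c j s).1.den : ZMod q) ≠ 0) ∧ (∀ j s, ((c j s).2.den : ZMod q) ≠ 0) ∧
        Loc4 (d p V) T E4 (fun j s => redQ p (c j s).1) (fun j s => redQ p (c j s).2) i ∧
        Loc4 (d q V') T' E4' (fun j s => redQ q (c j s).1) (fun j s => redQ q (c j s).2) i ∧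
        ∀ j, j ≠ i → ∀ e ∈ E j, ∀ e' ∈ E j, ¬ IsSquare (d p V (ρ j e : ZMod p) * d q V' (ρ' j e' : ZMod q))) →
        HodgeGeneric (placeCurve fun i => ratio (u i) (fun k => (((c i k).1 : ℂ), ((c i k).2 : ℂ)))) ∧
          atyp (placeCurve fun i => ratio (u i) (fun k => (((c i k).1 : ℂ), ((c i k).2 : ℂ)))) = ∅ := by
  obtain ⟨S, E, HH, h1, h2, h3, h4⟩ := manyCrit0 htr u l hl hu hd
  refine ⟨S, E, HH, h1, h2, fun c hc => h4 _ fun i => ?_⟩
  obtain ⟨p, q, hp, hq, V, V', ρ, ρ', T, E4, T', E4', hpq, hR, hR', hQ, hQ', a1, a2, a3, a4, b1, b2, hcr⟩ := hc i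
  exact ⟨p, q, V, V', ρ, ρ', hpq, hR, hR', four_of_split htr u l hl h3 hR hQ a1 a2 b1,
    four_of_split htr u l hl h3 hR' hQ' a3 a4 b2, hcr⟩

end Pool.Agent.ZPL
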