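import Mathlib

namespace Pool.Agent.ZPL

/-- the coefficients of the generic member of a linear system vanishing at the generic point -/
noncomputable def zz {K : Type*} [Field K] {N : ℕ} (u : Fin N → K) (l : Fin N) (a : Fin N) :
    FractionRing (MvPolynomial (Fin N) K) := by
  classical
  exact if a = l then
    - ∑ b ∈ Finset.univ.erase l, algebraMap (MvPolynomial (Fin N) K) _ (MvPolynomial.X b * MvPolynomial.C (u b))
  else algebraMap (MvPolynomial (Fin N) K) _ (MvPolynomial.X a)

section aux

variable {K : Type*} [Field K] {N : ℕ}

/-- `zz` in the polynomial ring without the variable number `l` -/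
noncomputable def zy (u : Fin N → K) (l a : Fin N) : MvPolynomial {b : Fin N // b ≠ l} K :=
  if h : a = l then - ∑ b : {b : Fin N // b ≠ l}, MvPolynomial.X b * MvPolynomial.C (u b)
  else MvPolynomial.X ⟨a, h⟩

/-- the inclusion of the polynomial ring without the variable number `l` -/
noncomputable def zmap (l : Fin N) :
    MvPolynomial {b : Fin N // b ≠ l} K →ₐ[K] FractionRing (MvPolynomial (Fin N) K) :=
  (IsScalarTower.toAlgHom K (MvPolynomial (Fin N) K) (FractionRing (MvPolynomial (Fin N) K))).comp
    (MvPolynomial.rename Subtype.val)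

theorem zmap_apply (l : Fin N) (f : MvPolynomial {b : Fin N // b ≠ l} K) :
    zmap l f = algebraMap (MvPolynomial (Fin N) K) _ (MvPolynomial.rename Subtype.val f) := rfl

theorem zmap_injective (l : Fin N) : Function.Injective (zmap (K := K) l) := by
  intro f g h
  rw [zmap_apply, zmap_apply] at h
  exact MvPolynomial.rename_injective _ Subtype.val_injective
    (IsFractionRing.injective (MvPolynomial (Fin N) K) _ h)

theorem zmap_zy (u : Fin N → K) (l a : Fin N) : zmap l (zy u l a) = zz u l a := by
  classical
  unfold zy zz
  by_cases h : a = l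
  · rw [dif_pos h, if_pos h, map_neg, map_sum]
    congr 1
    rw [Finset.sum_subtype (Finset.univ.erase l) (p := fun b => b ≠ l) (by intro x; simp)]
    refine Finset.sum_congr rfl fun b _ => ?_
    rw [zmap_apply]
    simp
  · rw [dif_neg h, if_neg h, zmap_apply]
    simp

end aux

theorem algInd_zy {K : Type*} [Field K] [Algebra ℂ K] {N : ℕ} (u : Fin N → K) (l : Fin N) (hl : u l = 1)
    (hu : ∃ a, Transcendental ℂ (u a)) : AlgebraicIndependent ℂ (zy u l) := by
  classical
  obtain ⟨a₀, ha₀⟩ := hu
  have hal : a₀ ≠ l := by
    rintro rfl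
    exact ha₀ (by rw [hl]; exact isAlgebraic_one)
  rw [algebraicIndependent_iff]
  intro P hP
  -- evaluation at a point of `K`
  have hev : ∀ x : {b : Fin N // b ≠ l} → K, MvPolynomial.aeval
      (fun a => MvPolynomial.eval x (zy u l a)) P = 0 := by
    intro x
    have h1 := congrArg (MvPolynomial.eval x) hP
    rw [map_zero] at h1
    rw [← h1]
    have h2 : ∀ Q : MvPolynomial (Fin N) ℂ, MvPolynomial.aeval
        (fun a => MvPolynomial.eval x (zy u l a)) Q =
        MvPolynomial.eval x (MvPolynomial.aeval (zy u l) Q) := by
      intro Q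
      induction Q using MvPolynomial.induction_on with
      | C a =>
        rw [MvPolynomial.aeval_C, MvPolynomial.aeval_C, MvPolynomial.algebraMap_apply,
          MvPolynomial.eval_C]
      | add p q hp hq => rw [map_add, map_add, map_add, hp, hq]
      | mul_X p n hp => rw [map_mul, map_mul, map_mul, hp, MvPolynomial.aeval_X, MvPolynomial.aeval_X]
    exact h2 P
  -- zeros of P
  have hzero : ∀ c : Fin N → ℂ, ∃ bad : Set ℂ, bad.Finite ∧ ∀ t ∉ bad,
      MvPolynomial.eval (Function.update c a₀ t) P = 0 := by
    intro c
    set s : K := - ∑ b : {b : Fin N // b ≠ l},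
      (if b.1 = a₀ then 0 else algebraMap ℂ K (c b.1)) * u b.1 with hs
    refine ⟨{t | IsAlgebraic ℂ (s - algebraMap ℂ K t * u a₀)}, ?_, ?_⟩
    · apply Set.Subsingleton.finite
      intro t ht t' ht'
      by_contra hne
      apply ha₀
      have h1 : IsAlgebraic ℂ ((s - algebraMap ℂ K t * u a₀) - (s - algebraMap ℂ K t' * u a₀)) :=
        IsAlgebraic.sub ht ht'
      have h2 : (s - algebraMap ℂ K t * u a₀) - (s - algebraMap ℂ K t' * u a₀) =
          algebraMap ℂ K (t' - t) * u a₀ := by
        rw [map_sub]
        ring
      rw [h2] at h1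
      have h3 : u a₀ = algebraMap ℂ K (t' - t)⁻¹ * (algebraMap ℂ K (t' - t) * u a₀) := by
        rw [← mul_assoc, ← map_mul, inv_mul_cancel₀ (sub_ne_zero.mpr (Ne.symm hne)), map_one,
          one_mul]
      rw [h3]
      exact (isAlgebraic_algebraMap _).mul h1
    · intro t ht
      have ht' : Transcendental ℂ (s - algebraMap ℂ K t * u a₀) := ht
      set Q : Polynomial ℂ := MvPolynomial.aeval
        (fun a => if a = l then Polynomial.X else Polynomial.C (Function.update c a₀ t a)) P with hQ
      have hQ0 : Polynomial.aeval (s - algebraMap ℂ K t * u a₀) Q = 0 := by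
        rw [← hev (fun b => algebraMap ℂ K (Function.update c a₀ t b.1)), hQ]
        have h5 : ∀ R : MvPolynomial (Fin N) ℂ,
            Polynomial.aeval (s - algebraMap ℂ K t * u a₀) (MvPolynomial.aeval
              (fun a => if a = l then Polynomial.X else Polynomial.C (Function.update c a₀ t a)) R) =
            MvPolynomial.aeval (fun a => Polynomial.aeval (s - algebraMap ℂ K t * u a₀)
              (if a = l then Polynomial.X else Polynomial.C (Function.update c a₀ t a))) R := by
          intro R
          rw [← AlgHom.comp_apply, MvPolynomial.comp_aeval]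
        rw [h5]
        congr 2
        funext a
        unfold zy
        by_cases h : a = l
        · rw [if_pos h, dif_pos h, Polynomial.aeval_X, map_neg, map_sum, hs]
          have h6 : ∀ b : {b : Fin N // b ≠ l},
              MvPolynomial.eval (fun b : {b : Fin N // b ≠ l} =>
                algebraMap ℂ K (Function.update c a₀ t b.1))
                (MvPolynomial.X b * MvPolynomial.C (u b)) =
              (if b.1 = a₀ then 0 else algebraMap ℂ K (c b.1)) * u b.1 +
                (if b = ⟨a₀, hal⟩ then algebraMap ℂ K t * u a₀ else 0) := by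
            intro b
            rw [map_mul, MvPolynomial.eval_X, MvPolynomial.eval_C]
            by_cases hb : b.1 = a₀
            · have hb' : b = ⟨a₀, hal⟩ := Subtype.ext hb
              subst hb'
              simp
            · have hb' : b ≠ ⟨a₀, hal⟩ := fun h => hb (by rw [h])
              rw [if_neg hb, if_neg hb', Function.update_of_ne hb, add_zero]
          rw [Finset.sum_congr rfl (fun b _ => h6 b), Finset.sum_add_distrib,
            Finset.sum_ite_eq' Finset.univ]
          simp only [Finset.mem_univ, if_true]
          ring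
        · rw [if_neg h, dif_neg h, MvPolynomial.eval_X, Polynomial.aeval_C]
      have hQz : Q = 0 := by
        by_contra h
        exact ht' ⟨Q, h, hQ0⟩
      have h7 : Polynomial.eval (Function.update c a₀ t l) Q =
          MvPolynomial.eval (Function.update c a₀ t) P := by
        rw [hQ, ← Polynomial.coe_aeval_eq_eval, ← MvPolynomial.coe_aeval_eq_eval]
        have h8 : ∀ R : MvPolynomial (Fin N) ℂ,
            Polynomial.aeval (Function.update c a₀ t l) (MvPolynomial.aeval
              (fun a => if a = l then Polynomial.X else Polynomial.C (Function.update c a₀ t a)) R) =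
            MvPolynomial.aeval (fun a => Polynomial.aeval (Function.update c a₀ t l)
              (if a = l then Polynomial.X else Polynomial.C (Function.update c a₀ t a))) R := by
          intro R
          rw [← AlgHom.comp_apply, MvPolynomial.comp_aeval]
        rw [h8]
        show MvPolynomial.aeval _ P = MvPolynomial.aeval _ P
        congr 2
        funext a
        by_cases h : a = l
        · rw [if_pos h, Polynomial.aeval_X, h]
        · rw [if_neg h, Polynomial.aeval_C]
          rfl
      rw [← h7, hQz, Polynomial.eval_zero]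
  apply MvPolynomial.funext
  intro c
  rw [map_zero]
  obtain ⟨bad, hbad, hz⟩ := hzero c
  set R : Polynomial ℂ := MvPolynomial.aeval
    (fun a => if a = a₀ then Polynomial.X else Polynomial.C (c a)) P with hR
  have hRe : ∀ t, Polynomial.eval t R = MvPolynomial.eval (Function.update c a₀ t) P := by
    intro t
    rw [hR, ← Polynomial.coe_aeval_eq_eval, ← MvPolynomial.coe_aeval_eq_eval]
    have h8 : ∀ S : MvPolynomial (Fin N) ℂ,
        Polynomial.aeval t (MvPolynomial.aeval
          (fun a => if a = a₀ then Polynomial.X else Polynomial.C (c a)) S) =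
        MvPolynomial.aeval (fun a => Polynomial.aeval t
          (if a = a₀ then Polynomial.X else Polynomial.C (c a))) S := by
      intro S
      rw [← AlgHom.comp_apply, MvPolynomial.comp_aeval]
    rw [h8]
    show MvPolynomial.aeval _ P = MvPolynomial.aeval _ P
    congr 2
    funext a
    by_cases h : a = a₀
    · subst h
      rw [if_pos rfl, Polynomial.aeval_X, Function.update_self]
    · rw [if_neg h, Polynomial.aeval_C, Function.update_of_ne h]
      rfl
  have hR0 : R = 0 := by
    apply Polynomial.eq_zero_of_infinite_isRoot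
    apply (hbad.infinite_compl).mono
    intro t ht
    show Polynomial.IsRoot R t
    rw [Polynomial.IsRoot.def, hRe]
    exact hz t ht
  have h9 := hRe (c a₀)
  rw [Function.update_eq_self, hR0, Polynomial.eval_zero] at h9
  exact h9.symm

theorem algInd_zz {K : Type*} [Field K] [Algebra ℂ K] {N : ℕ} (u : Fin N → K) (l : Fin N) (hl : u l = 1)
    (hu : ∃ a, Transcendental ℂ (u a)) : AlgebraicIndependent ℂ (zz u l) := by
  have h := (algInd_zy u l hl hu).map' (f := (zmap (K := K) l).restrictScalars ℂ) (zmap_injective l)
  convert h using 1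
  funext a
  exact (zmap_zy u l a).symm

theorem isAlgebraic_zz {K : Type*} [Field K] [Algebra ℂ K] (htr : Algebra.trdeg ℂ K = 1) {N : ℕ} (u : Fin N → K)
    (l : Fin N) (hl : u l = 1) (hu : ∃ a, Transcendental ℂ (u a)) (f : K) :
    IsAlgebraic (Algebra.adjoin ℂ (Set.range (zz u l)))
      (algebraMap K (FractionRing (MvPolynomial (Fin N) K)) f) := by
  have hi := algInd_zy u l hl hu
  have htr' : Algebra.trdeg ℂ (MvPolynomial {b : Fin N // b ≠ l} K) = N := by
    rw [← _root_.trdeg_add_eq ℂ K (A := MvPolynomial {b : Fin N // b ≠ l} K), htr,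
      MvPolynomial.trdeg_of_isDomain, Cardinal.mk_fintype, Fintype.card_subtype_compl,
      Fintype.card_fin, Fintype.card_subtype_eq, Cardinal.lift_natCast]
    have hN : 1 ≤ N := by
      have := l.2
      omega
    have h0 : (1 : ℕ) + (N - 1) = N := by omega
    rw [← Nat.cast_one, ← Nat.cast_add, h0]
  have hb : IsTranscendenceBasis ℂ (zy u l) := by
    apply hi.isTranscendenceBasis_of_lift_trdeg_le_of_finite
    rw [htr']
    simp
  have halg := hb.isAlgebraic
  have h1 : IsAlgebraic (Algebra.adjoin ℂ (Set.range (zy u l)))
      (MvPolynomial.C f : MvPolynomial {b : Fin N // b ≠ l} K) := halg.isAlgebraic _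
  have hmem : ∀ x : Algebra.adjoin ℂ (Set.range (zy u l)),
      ((zmap (K := K) l).restrictScalars ℂ) x.1 ∈ Algebra.adjoin ℂ (Set.range (zz u l)) := by
    intro x
    have h2 : ((zmap (K := K) l).restrictScalars ℂ) x.1 ∈
        (Algebra.adjoin ℂ (Set.range (zy u l))).map ((zmap (K := K) l).restrictScalars ℂ) :=
      ⟨x.1, x.2, rfl⟩
    rw [AlgHom.map_adjoin, ← Set.range_comp] at h2
    convert h2 using 3
    funext a
    exact (zmap_zy u l a).symm
  have h3 := h1.ringHom_of_comp_eq
    (((((zmap (K := K) l).restrictScalars ℂ).comp
      (Subalgebra.val (Algebra.adjoin ℂ (Set.range (zy u l))))).codRestrict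
        (Algebra.adjoin ℂ (Set.range (zz u l))) hmem : _ →ₐ[ℂ] _))
    (zmap (K := K) l) ?_ ?_
  · convert h3 using 1
    rw [zmap_apply, MvPolynomial.rename_C]
    rfl
  · intro x y hxy
    apply Subtype.ext
    apply zmap_injective l
    exact congrArg Subtype.val hxy
  · ext x
    rfl

end Pool.Agent.ZPL
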