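import Mathlib

namespace Pool.Agent.ZPL

/-- extension of a valuation ring, the variables being congruent to given elements -/
theorem exists_val {K : Type*} [Field K] (W : ValuationSubring K) {N : ℕ} (β : Fin N → K) (hβ : ∀ a, β a ∈ W) :
    ∃ W₁ : ValuationSubring (AlgebraicClosure (FractionRing (MvPolynomial (Fin N) K))),
      (∀ c : K, algebraMap K _ c ∈ W₁ ↔ c ∈ W) ∧
      (∀ c : K, W₁.valuation (algebraMap K _ c) < 1 ↔ W.valuation c < 1) ∧
      ∀ a, W₁.valuation (algebraMap (FractionRing (MvPolynomial (Fin N) K)) _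
        (algebraMap (MvPolynomial (Fin N) K) _ (MvPolynomial.X a - MvPolynomial.C (β a)))) < 1 := by
  set L := FractionRing (MvPolynomial (Fin N) K) with hL
  set Ω := AlgebraicClosure L with hΩ
  let j : MvPolynomial (Fin N) K →+* Ω := (algebraMap L Ω).comp (algebraMap (MvPolynomial (Fin N) K) L)
  have hj : Function.Injective j := (algebraMap L Ω).injective.comp (IsFractionRing.injective _ L)
  let g : MvPolynomial (Fin N) W →+* Ω := j.comp (MvPolynomial.map (algebraMap W K))
  have hg : Function.Injective g := hj.comp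
    (MvPolynomial.map_injective _ (IsFractionRing.injective W K))
  let e : MvPolynomial (Fin N) W →+* IsLocalRing.ResidueField W :=
    MvPolynomial.eval₂Hom (IsLocalRing.residue W) fun a => IsLocalRing.residue W ⟨β a, hβ a⟩
  let E : MvPolynomial (Fin N) W ≃+* g.range :=
    RingEquiv.ofBijective g.rangeRestrict
      ⟨fun x y h => hg (congrArg Subtype.val h), g.rangeRestrict_surjective⟩
  let I : Ideal g.range := RingHom.ker (e.comp E.symm.toRingHom)
  have hI : I ≠ ⊤ := RingHom.ker_ne_top _
  obtain ⟨B, hB1, hB2⟩ := Ideal.image_subset_nonunits_valuationSubring I hI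
  have hmem : ∀ f : MvPolynomial (Fin N) W, g f ∈ B := fun f => hB1 ⟨f, rfl⟩
  have hnon : ∀ f : MvPolynomial (Fin N) W, e f = 0 → g f ∈ B.nonunits := by
    intro f hf
    apply hB2
    refine ⟨E f, ?_, rfl⟩
    change (e.comp E.symm.toRingHom) (E f) = 0
    simpa using hf
  have hC : ∀ c : W, g (MvPolynomial.C c) = algebraMap K Ω (c : K) := by
    intro c
    change algebraMap L Ω (algebraMap (MvPolynomial (Fin N) K) L (MvPolynomial.map (algebraMap W K)
      (MvPolynomial.C c))) = _
    rw [MvPolynomial.map_C, IsScalarTower.algebraMap_apply K L Ω,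
      IsScalarTower.algebraMap_apply K (MvPolynomial (Fin N) K) L]
    rfl
  have h1 : ∀ c : K, algebraMap K Ω c ∈ B ↔ c ∈ W := by
    intro c
    constructor
    · intro h
      by_contra hc
      have hc0 : c ≠ 0 := by
        rintro rfl
        exact hc W.zero_mem
      have hci : c⁻¹ ∈ W := (W.mem_or_inv_mem c).resolve_left hc
      have h2 : (⟨c⁻¹, hci⟩ : W) ∈ IsLocalRing.maximalIdeal W := by
        rw [← ValuationSubring.coe_mem_nonunits_iff]
        exact W.inv_mem_nonunits_iff.2 (Or.inr hc)
      have h3 : e (MvPolynomial.C ⟨c⁻¹, hci⟩) = 0 := by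
        simp only [e, MvPolynomial.coe_eval₂Hom, MvPolynomial.eval₂_C]
        exact (IsLocalRing.residue_eq_zero_iff _).2 h2
      have h4 := hnon _ h3
      rw [hC, map_inv₀, B.inv_mem_nonunits_iff] at h4
      rcases h4 with h4 | h4
      · exact hc0 ((map_eq_zero _).1 h4)
      · exact h4 h
    · intro h
      have := hmem (MvPolynomial.C ⟨c, h⟩)
      rwa [hC] at this
  refine ⟨B, h1, fun c => ?_, fun a => ?_⟩
  · rw [← ValuationSubring.mem_nonunits_iff, ← ValuationSubring.mem_nonunits_iff,
      ValuationSubring.mem_nonunits_iff_or, ValuationSubring.mem_nonunits_iff_or, ← map_inv₀, h1,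
      map_eq_zero]
  · rw [← ValuationSubring.mem_nonunits_iff]
    have h2 : e (MvPolynomial.X a - MvPolynomial.C ⟨β a, hβ a⟩) = 0 := by
      simp only [e, map_sub, MvPolynomial.coe_eval₂Hom, MvPolynomial.eval₂_C, MvPolynomial.eval₂_X,
        sub_self]
    have h3 := hnon _ h2
    have h4 : g (MvPolynomial.X a - MvPolynomial.C ⟨β a, hβ a⟩) = algebraMap L Ω
        (algebraMap (MvPolynomial (Fin N) K) L (MvPolynomial.X a - MvPolynomial.C (β a))) := by
      change algebraMap L Ω (algebraMap (MvPolynomial (Fin N) K) L (MvPolynomial.map (algebraMap W K)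
        _)) = _
      rw [map_sub (MvPolynomial.map _), MvPolynomial.map_X, MvPolynomial.map_C]
      rfl
    rwa [h4] at h3

end Pool.Agent.ZPL
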