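import Mathlib

open Polynomial

namespace Pool.Agent.ZPL

/-- the evaluation of polynomials at `z`, in the algebraic closure -/
noncomputable def evz {L : Type*} [Field L] [Algebra ℂ L] {N : ℕ} (z : Fin N → L) :
    MvPolynomial (Fin N) ℂ →+* AlgebraicClosure L :=
  (algebraMap L (AlgebraicClosure L)).comp (MvPolynomial.aeval z).toRingHom

/-- a common denominator of finitely many polynomials -/
theorem gal_denom {R K : Type*} [CommRing R] [IsDomain R] [Field K] [Algebra R K] [IsFractionRing R K]
    {ι : Type*} [Fintype ι] (P : ι → K[X]) :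
    ∃ q : R, q ≠ 0 ∧ ∀ i, ∃ Q : R[X], Q.map (algebraMap R K) = C (algebraMap R K q) * P i := by
  classical
  have h : ∀ i, ∃ b : R, b ≠ 0 ∧ ∃ Q : R[X], Q.map (algebraMap R K) = C (algebraMap R K b) * P i := by
    intro i
    obtain ⟨b, hb, h⟩ := IsLocalization.integerNormalization_spec (nonZeroDivisors R) (P i)
    refine ⟨b, nonZeroDivisors.ne_zero hb, _, h.trans ?_⟩
    rw [← smul_eq_C_mul, algebraMap_smul]
  choose b hb Q hQ using h
  refine ⟨∏ i, b i, Finset.prod_ne_zero_iff.2 fun i _ => hb i, fun i => ?_⟩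
  refine ⟨C (∏ j ∈ Finset.univ.erase i, b j) * Q i, ?_⟩
  rw [Polynomial.map_mul, hQ, map_C, ← mul_assoc, ← C_mul, ← map_mul,
    Finset.prod_erase_mul _ _ (Finset.mem_univ i)]

/-- the minimal polynomial of a primitive element of a Galois extension -/
theorem gal_minpoly {K E : Type*} [Field K] [Field E] [Algebra K E] [FiniteDimensional K E] [IsGalois K E]
    [Fintype (E ≃ₐ[K] E)] (y : E) (hy : IntermediateField.adjoin K {y} = ⊤) :
    (minpoly K y).map (algebraMap K E) = ∏ g : E ≃ₐ[K] E, (X - C (g y)) := by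
  classical
  have hint : IsIntegral K y := IsIntegral.of_finite K y
  have hinj : Function.Injective (fun g : E ≃ₐ[K] E => g y) := by
    intro g h hgh
    apply AlgEquiv.ext
    intro x
    have hx : x ∈ IntermediateField.adjoin K ({y} : Set E) := by rw [hy]; trivial
    induction hx using IntermediateField.adjoin_induction with
    | mem x hx => rw [Set.mem_singleton_iff.1 hx]; exact hgh
    | algebraMap x => rw [AlgEquiv.commutes, AlgEquiv.commutes]
    | add x y _ _ h1 h2 => rw [map_add, map_add, h1, h2]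
    | inv x _ h1 => rw [map_inv₀, map_inv₀, h1]
    | mul x y _ _ h1 h2 => rw [map_mul, map_mul, h1, h2]
  have hdeg : (minpoly K y).natDegree = Fintype.card (E ≃ₐ[K] E) := by
    rw [← IntermediateField.adjoin.finrank hint, hy, IntermediateField.finrank_top',
      ← IsGalois.card_aut_eq_finrank, Nat.card_eq_fintype_card]
  have hmon : ((minpoly K y).map (algebraMap K E)).Monic := (minpoly.monic hint).map _
  have hdvd : (∏ g : E ≃ₐ[K] E, (X - C (g y))) ∣ (minpoly K y).map (algebraMap K E) := by
    apply Finset.prod_dvd_of_coprime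
    · intro g _ h _ hgh
      exact pairwise_coprime_X_sub_C hinj hgh
    · intro g _
      rw [dvd_iff_isRoot, IsRoot.def, eval_map_algebraMap]
      have : aeval (g y) (minpoly K y) = g (aeval y (minpoly K y)) := (aeval_algHom_apply g.toAlgHom y _)
      rw [this, minpoly.aeval, map_zero]
  have hmon2 : (∏ g : E ≃ₐ[K] E, (X - C (g y))).Monic := monic_prod_of_monic _ _ fun g _ => monic_X_sub_C _
  refine (eq_of_monic_of_dvd_of_natDegree_le hmon2 hmon hdvd ?_)
  rw [natDegree_map, hdeg, natDegree_prod_of_monic _ _ fun g _ => monic_X_sub_C _]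
  simp

theorem gal_fin {R K E : Type*} [CommRing R] [IsDomain R] [IsIntegrallyClosed R] [Field K] [Algebra R K]
    [IsFractionRing R K] [Field E] [Algebra K E] [Algebra R E] [IsScalarTower R K E] [FiniteDimensional K E]
    [IsGalois K E] {ι : Type*} [Finite ι] (f : ι → E) :
    ∃ (D : ℕ) (F : R[X]) (q : R) (α : Fin D → R[X]) (g₁ : Fin D) (κ : R[X][X]) (A B : R[X]) (φ : ι → R[X])
      (y : E), F.Monic ∧ F.natDegree = D ∧ Irreducible F ∧ q ≠ 0 ∧ α g₁ = C q * X ∧
      C (C q) ^ D * F.map C = (∏ g, (C (C q) * X - C (α g))) + C F * κ ∧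
      A * F + B * derivative F = C q ∧ aeval y F = 0 ∧
      ∀ k, algebraMap R E q * f k = aeval y (φ k) := by
  classical
  haveI : Fintype ι := Fintype.ofFinite ι
  haveI : Fintype (E ≃ₐ[K] E) := Fintype.ofFinite _
  have hRK : Function.Injective (algebraMap R K) := IsFractionRing.injective R K
  haveI : FaithfulSMul R K := (faithfulSMul_iff_algebraMap_injective R K).2 hRK
  haveI : Module.IsTorsionFree R E := Module.IsTorsionFree.trans_faithfulSMul R K E
  have hRKE : ∀ c : R, algebraMap R E c = algebraMap K E (algebraMap R K c) :=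
    fun c => IsScalarTower.algebraMap_apply R K E c
  obtain ⟨a, ha⟩ := Field.exists_primitive_element K E
  have halg : IsAlgebraic R a := (IsFractionRing.isAlgebraic_iff R K E).2 (Algebra.IsAlgebraic.isAlgebraic a)
  obtain ⟨r, hr, hint⟩ := halg.exists_integral_multiple
  set y : E := r • a with hydef
  have hy' : y = algebraMap K E (algebraMap R K r) * a := by
    rw [hydef, Algebra.smul_def, hRKE]
  have hr' : algebraMap K E (algebraMap R K r) ≠ 0 := by
    rw [Ne, map_eq_zero, map_eq_zero_iff _ hRK]; exact hr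
  have hy : IntermediateField.adjoin K {y} = ⊤ := by
    rw [eq_top_iff, ← ha, IntermediateField.adjoin_le_iff]
    intro x hx
    rw [Set.mem_singleton_iff.1 hx]
    have h1 : a = algebraMap K E (algebraMap R K r)⁻¹ * y := by
      rw [hy', ← mul_assoc, map_inv₀, inv_mul_cancel₀ hr', one_mul]
    rw [SetLike.mem_coe]
    rw [h1]
    exact mul_mem (IntermediateField.algebraMap_mem _ _)
      (IntermediateField.subset_adjoin K _ (Set.mem_singleton y))
  have hintK : IsIntegral K y := IsIntegral.of_finite K y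
  have hFK : minpoly K y = (minpoly R y).map (algebraMap R K) :=
    minpoly.isIntegrallyClosed_eq_field_fractions' K hint
  have hmon : (minpoly R y).Monic := minpoly.monic hint
  have hcard : Fintype.card (E ≃ₐ[K] E) = (minpoly R y).natDegree := by
    rw [← hmon.natDegree_map (algebraMap R K), ← hFK, ← IntermediateField.adjoin.finrank hintK, hy,
      IntermediateField.finrank_top', ← IsGalois.card_aut_eq_finrank, Nat.card_eq_fintype_card]
  let e : Fin (minpoly R y).natDegree ≃ (E ≃ₐ[K] E) := (Fintype.equivFinOfCardEq hcard).symm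
  have hsurj : ∀ x : E, ∃ P : K[X], aeval y P = x := by
    intro x
    have hx : x ∈ (IntermediateField.adjoin K {y}).toSubalgebra := by
      rw [hy]; exact Algebra.mem_top
    rw [IntermediateField.adjoin_simple_toSubalgebra_of_isAlgebraic hintK.isAlgebraic,
      Algebra.adjoin_singleton_eq_range_aeval] at hx
    exact hx
  choose pol hpol using hsurj
  obtain ⟨u, v, huv⟩ : ∃ u v : K[X], u * minpoly K y + v * derivative (minpoly K y) = 1 :=
    Algebra.IsSeparable.isSeparable K y
  let P : (E ≃ₐ[K] E) ⊕ (ι ⊕ Fin 2) → K[X] := Sum.elim (fun g => if g = 1 then X else pol (g y))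
    (Sum.elim (fun k => pol (f k)) ![u, v])
  have hP1 : ∀ g : E ≃ₐ[K] E, aeval y (P (Sum.inl g)) = g y := by
    intro g
    by_cases h : g = 1
    · simp [P, h]
    · simp [P, h, hpol]
  obtain ⟨q, hq, hQ⟩ := gal_denom (R := R) P
  choose Q hQ using hQ
  have hQe : ∀ i, aeval y (Q i) = algebraMap R E q * aeval y (P i) := by
    intro i
    rw [← aeval_map_algebraMap K y (Q i), hQ, map_mul, aeval_C, ← hRKE]
  refine ⟨(minpoly R y).natDegree, minpoly R y, q, fun i => Q (Sum.inl (e i)), e.symm 1, ?_⟩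
  have hdvd : C (minpoly R y) ∣ C (C q) ^ (minpoly R y).natDegree * (minpoly R y).map C -
      ∏ g : Fin (minpoly R y).natDegree, (C (C q) * X - C (Q (Sum.inl (e g)))) := by
    rw [C_dvd_iff_dvd_coeff]
    intro j
    apply minpoly.isIntegrallyClosed_dvd hint
    have hmap : (C (C q) ^ (minpoly R y).natDegree * (minpoly R y).map C -
      ∏ g : Fin (minpoly R y).natDegree, (C (C q) * X - C (Q (Sum.inl (e g))))).map
        (aeval y : R[X] →ₐ[R] E).toRingHom = 0 := by
      have h1 : ((minpoly R y).map C).map (aeval y : R[X] →ₐ[R] E).toRingHom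
          = ∏ g : E ≃ₐ[K] E, (X - C (g y)) := by
        rw [← gal_minpoly y hy, hFK, Polynomial.map_map, Polynomial.map_map]
        congr 1
        ext c
        simp [hRKE]
      rw [Polynomial.map_sub, Polynomial.map_mul, Polynomial.map_pow, h1, Polynomial.map_prod]
      have h2 : (∏ g : Fin (minpoly R y).natDegree, ((C (C q) * X - C (Q (Sum.inl (e g)))) : R[X][X]).map
          (aeval y : R[X] →ₐ[R] E).toRingHom) = ∏ g : E ≃ₐ[K] E, (C (algebraMap R E q) * (X - C (g y))) := by
        rw [← Equiv.prod_comp e]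
        refine Finset.prod_congr rfl fun g _ => ?_
        have h3 : (aeval y : R[X] →ₐ[R] E).toRingHom (Q (Sum.inl (e g))) = algebraMap R E q * (e g) y := by
          have := hQe (Sum.inl (e g))
          rw [hP1] at this
          exact this
        rw [Polynomial.map_sub, Polynomial.map_mul, map_C, map_X, map_C, h3, C_mul]
        have h4 : (aeval y : R[X] →ₐ[R] E).toRingHom (C q) = algebraMap R E q := by simp
        rw [h4]
        ring
      rw [h2, Finset.prod_mul_distrib, Finset.prod_const, Finset.card_univ, hcard, map_C]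
      have h4 : (aeval y : R[X] →ₐ[R] E).toRingHom (C q) = algebraMap R E q := by simp
      rw [h4, sub_self]
    have h5 := congrArg (fun p : E[X] => p.coeff j) hmap
    beta_reduce at h5
    rw [coeff_map, coeff_zero] at h5
    exact h5
  obtain ⟨κ, hκ⟩ := hdvd
  refine ⟨κ, Q (Sum.inr (Sum.inr 0)), Q (Sum.inr (Sum.inr 1)), fun k => Q (Sum.inr (Sum.inl k)), y,
    hmon, rfl, minpoly.irreducible hint, hq, ?_, ?_, ?_, minpoly.aeval R y, ?_⟩
  · apply Polynomial.map_injective _ hRK
    simp only [Equiv.apply_symm_apply]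
    rw [hQ]
    simp [P]
  · rw [← hκ]; ring
  · apply Polynomial.map_injective _ hRK
    rw [Polynomial.map_add, Polynomial.map_mul, Polynomial.map_mul, hQ, hQ, ← derivative_map, ← hFK, map_C]
    have h0 : P (Sum.inr (Sum.inr 0)) = u := rfl
    have h1 : P (Sum.inr (Sum.inr 1)) = v := rfl
    rw [h0, h1, mul_assoc, mul_assoc, ← mul_add, huv, mul_one]
  · intro k
    rw [hQe]
    have h0 : P (Sum.inr (Sum.inl k)) = pol (f k) := rfl
    rw [h0, hpol]

theorem gal_abs {R K Ω : Type*} [CommRing R] [IsDomain R] [IsIntegrallyClosed R] [Field K] [Algebra R K]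
    [IsFractionRing R K] [CharZero K] [Field Ω] [IsAlgClosed Ω] [Algebra K Ω] [Algebra R Ω]
    [IsScalarTower R K Ω] {ι : Type*} [Finite ι] (f : ι → Ω) (hf : ∀ k, IsAlgebraic K (f k)) :
    ∃ (D : ℕ) (F : R[X]) (q : R) (α : Fin D → R[X]) (g₁ : Fin D) (κ : R[X][X]) (A B : R[X]) (φ : ι → R[X])
      (y : Ω), F.Monic ∧ F.natDegree = D ∧ Irreducible F ∧ q ≠ 0 ∧ α g₁ = C q * X ∧
      C (C q) ^ D * F.map C = (∏ g, (C (C q) * X - C (α g))) + C F * κ ∧
      A * F + B * derivative F = C q ∧ aeval y F = 0 ∧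
      ∀ k, algebraMap R Ω q * f k = aeval y (φ k) := by
  classical
  haveI : Fintype ι := Fintype.ofFinite ι
  let p : K[X] := ∏ k, minpoly K (f k)
  have hp0 : p ≠ 0 := Finset.prod_ne_zero_iff.2 fun k _ => minpoly.ne_zero (hf k).isIntegral
  let E : IntermediateField K Ω := IntermediateField.adjoin K (p.rootSet Ω)
  haveI hsf : p.IsSplittingField K E :=
    IntermediateField.adjoin_rootSet_isSplittingField (IsAlgClosed.splits _)
  haveI : FiniteDimensional K E := Polynomial.IsSplittingField.finiteDimensional E p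
  haveI : Normal K E := Normal.of_isSplittingField p
  haveI : IsGalois K E := ⟨⟩
  have hfE : ∀ k, f k ∈ E := by
    intro k
    apply IntermediateField.subset_adjoin
    rw [mem_rootSet]
    refine ⟨hp0, ?_⟩
    have h1 : minpoly K (f k) ∣ p := Finset.dvd_prod_of_mem _ (Finset.mem_univ k)
    obtain ⟨g, hg⟩ := h1
    rw [hg, map_mul, minpoly.aeval, zero_mul]
  letI : Algebra R E := ((algebraMap K E).comp (algebraMap R K)).toAlgebra
  haveI : IsScalarTower R K E := IsScalarTower.of_algebraMap_eq fun _ => rfl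
  haveI : IsScalarTower R E Ω := IsScalarTower.of_algebraMap_eq fun c => by
    rw [IsScalarTower.algebraMap_apply R K Ω c]; rfl
  obtain ⟨D, F, q, α, g₁, κ, A, B, φ, y, h1, h2, h3, h4, h5, h6, h7, h8, h9⟩ :=
    gal_fin (R := R) (K := K) (E := E) (fun k => (⟨f k, hfE k⟩ : E))
  refine ⟨D, F, q, α, g₁, κ, A, B, φ, algebraMap E Ω y, h1, h2, h3, h4, h5, h6, h7, ?_, ?_⟩
  · rw [aeval_algebraMap_apply, h8, map_zero]
  · intro k
    rw [aeval_algebraMap_apply, ← h9 k, map_mul, ← IsScalarTower.algebraMap_apply]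
    rfl

/-- explicit equations for the Galois closure -/
theorem galData {L : Type*} [Field L] [Algebra ℂ L] {N : ℕ} (z : Fin N → L) (hz : AlgebraicIndependent ℂ z)
    {ι : Type*} [Finite ι] (f : ι → L) (hf : ∀ k, IsAlgebraic (Algebra.adjoin ℂ (Set.range z)) (f k)) :
    ∃ (D : ℕ) (F : (MvPolynomial (Fin N) ℂ)[X]) (q : MvPolynomial (Fin N) ℂ)
      (α : Fin D → (MvPolynomial (Fin N) ℂ)[X]) (g₁ : Fin D) (κ : (MvPolynomial (Fin N) ℂ)[X][X])
      (A B : (MvPolynomial (Fin N) ℂ)[X]) (φ : ι → (MvPolynomial (Fin N) ℂ)[X]) (y : AlgebraicClosure L),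
      F.Monic ∧ F.natDegree = D ∧ Irreducible F ∧ q ≠ 0 ∧ α g₁ = C q * X ∧
      C (C q) ^ D * F.map C = (∏ g, (C (C q) * X - C (α g))) + C F * κ ∧
      A * F + B * derivative F = C q ∧ F.eval₂ (evz z) y = 0 ∧
      ∀ k, evz z q * algebraMap L (AlgebraicClosure L) (f k) = (φ k).eval₂ (evz z) y := by
  letI iR : Algebra (MvPolynomial (Fin N) ℂ) (AlgebraicClosure L) := (evz z).toAlgebra
  have hinj : Function.Injective (algebraMap (MvPolynomial (Fin N) ℂ) (AlgebraicClosure L)) := by
    have h1 : Function.Injective (MvPolynomial.aeval (R := ℂ) z) := hz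
    exact (algebraMap L (AlgebraicClosure L)).injective.comp h1
  haveI : FaithfulSMul (MvPolynomial (Fin N) ℂ) (AlgebraicClosure L) :=
    (faithfulSMul_iff_algebraMap_injective _ _).2 hinj
  letI iK : Algebra (FractionRing (MvPolynomial (Fin N) ℂ)) (AlgebraicClosure L) :=
    FractionRing.liftAlgebra (MvPolynomial (Fin N) ℂ) (AlgebraicClosure L)
  haveI : IsScalarTower (MvPolynomial (Fin N) ℂ) (FractionRing (MvPolynomial (Fin N) ℂ)) (AlgebraicClosure L) :=
    FractionRing.isScalarTower_liftAlgebra _ _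
  haveI : CharZero (FractionRing (MvPolynomial (Fin N) ℂ)) :=
    charZero_of_injective_algebraMap (IsFractionRing.injective (MvPolynomial (Fin N) ℂ) _)
  have hfK : ∀ k, IsAlgebraic (FractionRing (MvPolynomial (Fin N) ℂ))
      (algebraMap L (AlgebraicClosure L) (f k)) := by
    intro k
    obtain ⟨P, hP0, hP⟩ := hf k
    apply (IsFractionRing.isAlgebraic_iff (MvPolynomial (Fin N) ℂ)
      (FractionRing (MvPolynomial (Fin N) ℂ)) (AlgebraicClosure L)).1
    let e : Algebra.adjoin ℂ (Set.range z) ≃ₐ[ℂ] MvPolynomial (Fin N) ℂ := hz.aevalEquiv.symm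
    have he : ∀ s : Algebra.adjoin ℂ (Set.range z),
        algebraMap (MvPolynomial (Fin N) ℂ) (AlgebraicClosure L) (e s) = algebraMap L (AlgebraicClosure L) s := by
      intro s
      have h1 : (hz.aevalEquiv (e s) : L) = s := by
        simp only [e, AlgEquiv.apply_symm_apply]
      have h2 : (hz.aevalEquiv (e s) : L) = MvPolynomial.aeval z (e s) := hz.algebraMap_aevalEquiv (e s)
      rw [← h1, h2]
      rfl
    refine ⟨P.map (e : Algebra.adjoin ℂ (Set.range z) →+* MvPolynomial (Fin N) ℂ), ?_, ?_⟩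
    · rw [Ne, Polynomial.map_eq_zero_iff]
      · exact hP0
      · exact e.injective
    · have h3 : algebraMap L (AlgebraicClosure L) (aeval (f k) P) = 0 := by rw [hP, map_zero]
      rw [aeval_def, eval₂_map]
      rw [aeval_def, Polynomial.hom_eval₂] at h3
      rw [← h3]
      congr 1
      ext s
      exact he s
  obtain ⟨D, F, q, α, g₁, κ, A, B, φ, y, h1, h2, h3, h4, h5, h6, h7, h8, h9⟩ :=
    gal_abs (R := MvPolynomial (Fin N) ℂ) (K := FractionRing (MvPolynomial (Fin N) ℂ))
      (Ω := AlgebraicClosure L) (fun k => algebraMap L (AlgebraicClosure L) (f k)) hfK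
  exact ⟨D, F, q, α, g₁, κ, A, B, φ, y, h1, h2, h3, h4, h5, h6, h7, h8, h9⟩

end Pool.Agent.ZPL
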