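import Mathlib

/-!
Restriction of polynomials in `N` variables to the line `a + v t`.
-/

open Polynomial

namespace Pool.Agent.ZPL

/-- restriction to the line through `a` with direction `v` -/
noncomputable def sl {R S : Type*} [CommRing R] [CommRing S] {N : ℕ} (φ : R →+* S) (a v : Fin N → S) :
    MvPolynomial (Fin N) R →+* S[X] := MvPolynomial.eval₂Hom (C.comp φ) fun i => C (a i) + C (v i) * X

end Pool.Agent.ZPL
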