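import Mathlib
import Pool.Agent.ZPL.Line

/-!
Bertini's theorem for the lines through a point at which the cover is étale.
-/

open Polynomial

namespace Pool.Agent.ZPL

lemma b23_swap_coeff {R : Type*} [CommRing R] (p : R[X][X]) (n b : ℕ) :
    ((Bivariate.swap p).coeff n).coeff b = (p.coeff b).coeff n := by
  induction p using Polynomial.induction_on' with
  | add p q hp hq => rw [map_add, coeff_add, coeff_add, coeff_add, coeff_add, hp, hq]
  | monomial i a =>
    induction a using Polynomial.induction_on' with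
    | add p q hp hq => rw [map_add, map_add, coeff_add, coeff_add, coeff_add, coeff_add, hp, hq]
    | monomial j r =>
      rw [Bivariate.swap_monomial_monomial, coeff_monomial, coeff_monomial]
      by_cases h1 : j = n <;> by_cases h2 : i = b <;> simp [h1, h2, coeff_monomial]

lemma b23_swap_map {R S : Type*} [CommRing R] [CommRing S] (j : R →+* S) (p : R[X][X]) :
    Bivariate.swap (p.map (mapRingHom j)) = (Bivariate.swap p).map (mapRingHom j) := by
  ext n b
  rw [b23_swap_coeff, coeff_map, coeff_map, coe_mapRingHom, coeff_map, coeff_map, b23_swap_coeff]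

/-- the factors of a split polynomial -/
lemma b23_lift_root {k E : Type*} [Field k] [Field E] [IsAlgClosed E] (φ : k →+* E) {f : k[X]} (hf0 : f ≠ 0)
    (hf : f.Splits) {g : E[X]} (hg : g.Monic) (hgf : g ∣ f.map φ) : ∃ g' : k[X], g'.Monic ∧ g'.map φ = g := by
  have h1 : g ∈ (mapRingHom φ).range := by
    have h2 : g = (g.roots.map fun a => X - C a).prod := (IsAlgClosed.splits g).eq_prod_roots_of_monic hg
    rw [h2]
    refine Subring.multiset_prod_mem _ _ fun x hx => ?_
    obtain ⟨a, ha, rfl⟩ := Multiset.mem_map.mp hx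
    have h3 : a ∈ (f.map φ).roots := Multiset.mem_of_le (Polynomial.roots.le_of_dvd (by
      rw [Ne, Polynomial.map_eq_zero]; exact hf0) hgf) ha
    rw [hf.roots_map] at h3
    obtain ⟨b, -, rfl⟩ := Multiset.mem_map.mp h3
    exact ⟨X - C b, by simp⟩
  obtain ⟨g', hg'⟩ := h1
  rw [coe_mapRingHom] at hg'
  exact ⟨g', Polynomial.monic_of_injective φ.injective (by rw [hg']; exact hg), hg'⟩

lemma b23_coeff_monic {E : Type*} [CommRing E] [Nontrivial E] {G : E[X][X]} (hG : G.Monic) :
    ((Bivariate.swap G).coeff 0).Monic ∧ ((Bivariate.swap G).coeff 0).degree = G.natDegree ∧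
      ∀ n, 0 < n → ((Bivariate.swap G).coeff n).degree < G.natDegree := by
  have h1 : ((Bivariate.swap G).coeff 0).natDegree ≤ G.natDegree := by
    rw [Polynomial.natDegree_le_iff_coeff_eq_zero]
    intro b hb
    rw [b23_swap_coeff, coeff_eq_zero_of_natDegree_lt hb, coeff_zero]
  have h2 : ((Bivariate.swap G).coeff 0).coeff G.natDegree = 1 := by
    rw [b23_swap_coeff, hG.coeff_natDegree, coeff_one_zero]
  refine ⟨Polynomial.monic_of_natDegree_le_of_coeff_eq_one _ h1 h2, ?_, ?_⟩
  · refine le_antisymm (Polynomial.degree_le_of_natDegree_le h1) ?_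
    exact Polynomial.le_degree_of_ne_zero (by rw [h2]; exact one_ne_zero)
  · intro n hn
    rw [Polynomial.degree_lt_iff_coeff_zero]
    intro b hb
    rw [b23_swap_coeff]
    rcases Nat.eq_or_lt_of_le hb with h | h
    · rw [← h, hG.coeff_natDegree, coeff_one, if_neg hn.ne']
    · rw [coeff_eq_zero_of_natDegree_lt h, coeff_zero]

/-- one step of the factorisation: the coefficients are determined by the preceding ones -/
lemma b23_step {k A E : Type*} [Field k] [CommRing A] [Field E] (i : k →+* A) (j : A →+* E) {g₀ h₀ : k[X]}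
    (hg : g₀.Monic) (hco : IsCoprime g₀ h₀) {u v : E[X]} (hu : u.degree < (g₀.map (j.comp i)).degree)
    (h : g₀.map (j.comp i) * v + u * h₀.map (j.comp i) ∈ (mapRingHom j).range) : u ∈ (mapRingHom j).range := by
  obtain ⟨U, W, hUW⟩ := hco
  obtain ⟨R, hR⟩ := h
  rw [coe_mapRingHom] at hR
  have hUW' : U.map (j.comp i) * g₀.map (j.comp i) + W.map (j.comp i) * h₀.map (j.comp i) = 1 := by
    rw [← Polynomial.map_mul, ← Polynomial.map_mul, ← Polynomial.map_add, hUW, Polynomial.map_one]
  have hgm : (g₀.map (j.comp i)).Monic := hg.map _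
  have h1 : (W.map (j.comp i) * R.map j) %ₘ (g₀.map (j.comp i)) = u := by
    rw [← (Polynomial.modByMonic_eq_self_iff hgm).mpr hu]
    apply Polynomial.modByMonic_eq_of_dvd_sub hgm
    refine ⟨W.map (j.comp i) * v - U.map (j.comp i) * u, ?_⟩
    rw [hR]
    linear_combination u * hUW'
  rw [← h1]
  refine ⟨(W.map i * R) %ₘ (g₀.map i), ?_⟩
  rw [coe_mapRingHom, Polynomial.map_modByMonic _ (hg.map i), Polynomial.map_mul, Polynomial.map_map, Polynomial.map_map]

/-- the factors of a family of polynomials which splits at `0` -/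
lemma b23_hensel {k A E : Type*} [Field k] [CommRing A] [Field E] [IsAlgClosed E] (i : k →+* A) (j : A →+* E)
    {G H : E[X][X]} (hG : G.Monic) (hH : H.Monic) {F : A[X][X]} (hF : G * H = F.map (mapRingHom j)) {f₀ : k[X]}
    (hf₀ : (Bivariate.swap F).coeff 0 = f₀.map i) (hsep : f₀.Separable) (hsplit : f₀.Splits) :
    ∀ n, (Bivariate.swap G).coeff n ∈ (mapRingHom j).range ∧ (Bivariate.swap H).coeff n ∈ (mapRingHom j).range := by
  have hf0 : f₀ ≠ 0 := hsep.ne_zero
  have hgh : Bivariate.swap G * Bivariate.swap H = (Bivariate.swap F).map (mapRingHom j) := by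
    rw [← map_mul, hF, b23_swap_map]
  obtain ⟨g1, g2, g3⟩ := b23_coeff_monic hG
  obtain ⟨h1, h2, h3⟩ := b23_coeff_monic hH
  have h00 : (Bivariate.swap G).coeff 0 * (Bivariate.swap H).coeff 0 = f₀.map (j.comp i) := by
    rw [← mul_coeff_zero, hgh, coeff_map, hf₀, coe_mapRingHom, Polynomial.map_map]
  obtain ⟨g₀, hg₀, hg₀'⟩ := b23_lift_root (j.comp i) hf0 hsplit g1 ⟨_, h00.symm⟩
  obtain ⟨h₀, hh₀, hh₀'⟩ := b23_lift_root (j.comp i) hf0 hsplit h1 ⟨_, by rw [mul_comm]; exact h00.symm⟩
  have hprod : g₀ * h₀ = f₀ := by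
    apply Polynomial.map_injective (j.comp i) (j.comp i).injective
    rw [Polynomial.map_mul, hg₀', hh₀', h00]
  have hco : IsCoprime g₀ h₀ := Polynomial.Separable.isCoprime (by rw [hprod]; exact hsep)
  intro n
  induction n using Nat.strong_induction_on with
  | _ n ih =>
    rcases Nat.eq_zero_or_pos n with rfl | hn
    · refine ⟨⟨g₀.map i, ?_⟩, ⟨h₀.map i, ?_⟩⟩
      · rw [coe_mapRingHom, Polynomial.map_map, hg₀']
      · rw [coe_mapRingHom, Polynomial.map_map, hh₀']
    · have h4 : (Bivariate.swap G).coeff 0 * (Bivariate.swap H).coeff n + (Bivariate.swap G).coeff n * (Bivariate.swap H).coeff 0 ∈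
          (mapRingHom j).range := by
        have h5 : ((Bivariate.swap G) * (Bivariate.swap H)).coeff n ∈ (mapRingHom j).range := by
          rw [hgh, coeff_map]
          exact ⟨_, rfl⟩
        rw [coeff_mul] at h5
        have e0 : ((0 : ℕ), n) ∈ Finset.HasAntidiagonal.antidiagonal n := by simp
        have en : (n, (0 : ℕ)) ∈ (Finset.HasAntidiagonal.antidiagonal n).erase (0, n) := by
          rw [Finset.mem_erase]
          exact ⟨fun h => hn.ne' (congrArg Prod.fst h), by simp⟩
        rw [← Finset.add_sum_erase _ _ e0, ← Finset.add_sum_erase _ _ en, ← add_assoc] at h5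
        have h6 : ∑ x ∈ ((Finset.HasAntidiagonal.antidiagonal n).erase (0, n)).erase (n, 0), (Bivariate.swap G).coeff x.1 *
            (Bivariate.swap H).coeff x.2 ∈ (mapRingHom j).range := by
          refine Subring.sum_mem _ fun x hx => ?_
          rw [Finset.mem_erase, Finset.mem_erase, Finset.HasAntidiagonal.mem_antidiagonal] at hx
          obtain ⟨hx1, hx2, hx3⟩ := hx
          have k1 : x.1 ≠ 0 := fun h => hx2 (Prod.ext h (by simp only; omega))
          have k2 : x.2 ≠ 0 := fun h => hx1 (Prod.ext (by simp only; omega) h)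
          exact Subring.mul_mem _ (ih x.1 (by omega)).1 (ih x.2 (by omega)).2
        have h7 := Subring.sub_mem _ h5 h6
        rwa [add_sub_cancel_right] at h7
      constructor
      · refine b23_step i j hg₀ hco (v := (Bivariate.swap H).coeff n) ?_ ?_
        · rw [hg₀', g2]; exact g3 n hn
        · rw [hg₀', hh₀']; exact h4
      · refine b23_step i j hh₀ hco.symm (v := (Bivariate.swap G).coeff n) ?_ ?_
        · rw [hh₀', h2]; exact h3 n hn
        · rw [hg₀', hh₀']
          have e : (Bivariate.swap H).coeff 0 * (Bivariate.swap G).coeff n + (Bivariate.swap H).coeff n * (Bivariate.swap G).coeff 0 =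
            (Bivariate.swap G).coeff 0 * (Bivariate.swap H).coeff n + (Bivariate.swap G).coeff n * (Bivariate.swap H).coeff 0 := by ring
          rw [e]
          exact h4

lemma b23_lift {A E : Type*} [CommRing A] [CommRing E] (j : A →+* E) {G : E[X][X]}
    (h : ∀ n, (Bivariate.swap G).coeff n ∈ (mapRingHom j).range) : ∃ G' : A[X][X], G'.map (mapRingHom j) = G := by
  have h1 : Bivariate.swap G ∈ Polynomial.lifts (mapRingHom j) := by
    rw [Polynomial.lifts_iff_coeff_lifts]
    exact h
  obtain ⟨Q, hQ⟩ := h1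
  rw [coe_mapRingHom] at hQ
  refine ⟨Bivariate.swap Q, ?_⟩
  rw [← b23_swap_map, hQ, Bivariate.swap_swap_apply]

lemma b23_natDegree_map {A E : Type*} [CommRing A] [CommRing E] [Nontrivial E] {j : A →+* E}
    (hj : Function.Injective j) {G' : A[X][X]} (h : (G'.map (mapRingHom j)).Monic) : G'.Monic :=
  Polynomial.monic_of_injective (by rw [coe_mapRingHom]; exact Polynomial.map_injective j hj) h

/-- **Bertini's theorem** for the lines through a point at which the cover is étale -/
theorem bertini {k : Type} [Field k] {N : ℕ} (F : (MvPolynomial (Fin N) k)[X]) (hF : F.Monic)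
    (hirr : Irreducible F) (a : Fin N → k) (hsep : (F.map (MvPolynomial.eval a)).Separable)
    (hsplit : (F.map (MvPolynomial.eval a)).Splits) :
    Irreducible ((F.map (sl MvPolynomial.C (fun i => MvPolynomial.C (a i)) MvPolynomial.X)).map
      (mapRingHom (algebraMap (MvPolynomial (Fin N) k) (AlgebraicClosure (FractionRing (MvPolynomial (Fin N) k)))))) := by
  obtain ⟨sm, hsm⟩ : ∃ sm, sm = sl (R := k) MvPolynomial.C (fun i => MvPolynomial.C (a i))
    (MvPolynomial.X : Fin N → MvPolynomial (Fin N) k) := ⟨_, rfl⟩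
  rw [← hsm]
  have hj : Function.Injective (algebraMap (MvPolynomial (Fin N) k) (AlgebraicClosure (FractionRing (MvPolynomial (Fin N) k)))) := by
    rw [IsScalarTower.algebraMap_eq (MvPolynomial (Fin N) k) (FractionRing (MvPolynomial (Fin N) k))]
    exact (algebraMap (FractionRing (MvPolynomial (Fin N) k))
      (AlgebraicClosure (FractionRing (MvPolynomial (Fin N) k)))).injective.comp (IsFractionRing.injective _ _)
  generalize algebraMap (MvPolynomial (Fin N) k) (AlgebraicClosure (FractionRing (MvPolynomial (Fin N) k))) = j at hj ⊢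
  have hFm : ((F.map sm).map (mapRingHom j)).Monic := (hF.map _).map _
  have hF1 : F ≠ 1 := hirr.ne_one
  have hnd : ((F.map sm).map (mapRingHom j)).natDegree = F.natDegree := by
    rw [(hF.map _).natDegree_map, hF.natDegree_map]
  have hir := (hF.irreducible_iff_natDegree').mp hirr
  rw [hFm.irreducible_iff_natDegree']
  refine ⟨?_, ?_⟩
  · intro h
    rw [h, natDegree_one] at hnd
    exact hF1 (hF.natDegree_eq_zero.mp hnd.symm)
  intro G H hG hH hGH hmem
  rw [hnd] at hmem
  -- the constant term in the variable of the line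
  have h0 : (Bivariate.swap (F.map sm)).coeff 0 = (F.map (MvPolynomial.eval a)).map MvPolynomial.C := by
    ext1 b
    rw [b23_swap_coeff, coeff_map, coeff_map, coeff_map]
    have key : ((constantCoeff).comp sm : MvPolynomial (Fin N) k →+* MvPolynomial (Fin N) k) =
        (MvPolynomial.C).comp (MvPolynomial.eval a) := by
      apply MvPolynomial.ringHom_ext
      · intro r
        rw [hsm]
        simp [sl]
      · intro i
        rw [hsm]
        simp [sl]
    have := RingHom.congr_fun key (F.coeff b)
    simpa using this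
  have hall := b23_hensel MvPolynomial.C j hG hH hGH h0 hsep hsplit
  obtain ⟨G', hG'⟩ := b23_lift j (fun n => (hall n).1)
  obtain ⟨H', hH'⟩ := b23_lift j (fun n => (hall n).2)
  have hG'm : G'.Monic := b23_natDegree_map hj (by rw [hG']; exact hG)
  have hH'm : H'.Monic := b23_natDegree_map hj (by rw [hH']; exact hH)
  have hGH' : G' * H' = F.map sm := by
    apply Polynomial.map_injective (mapRingHom j) (by rw [coe_mapRingHom]; exact Polynomial.map_injective j hj)
    rw [Polynomial.map_mul, hG', hH', hGH]
  -- evaluation at `1` and translation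
  obtain ⟨tr, htr⟩ : ∃ tr : (MvPolynomial (Fin N) k)[X] →+* MvPolynomial (Fin N) k, tr =
    (MvPolynomial.eval₂Hom MvPolynomial.C fun i => MvPolynomial.X i - MvPolynomial.C (a i)).comp
      (evalRingHom (1 : MvPolynomial (Fin N) k)) := ⟨_, rfl⟩
  have hid : tr.comp sm = RingHom.id _ := by
    apply MvPolynomial.ringHom_ext
    · intro r
      rw [hsm, htr]
      simp [sl]
    · intro i
      rw [hsm, htr]
      simp [sl]
  have hfac : G'.map tr * H'.map tr = F := by
    rw [← Polynomial.map_mul, hGH', Polynomial.map_map, hid, Polynomial.map_id]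
  apply hir.2 (G'.map tr) (H'.map tr) (hG'm.map _) (hH'm.map _) hfac
  rw [hH'm.natDegree_map]
  have e : H'.natDegree = H.natDegree := by rw [← hH', hH'm.natDegree_map]
  rw [e]
  exact hmem

end Pool.Agent.ZPL
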