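import Mathlib

open Polynomial

namespace Pool.Agent.ZPL

/-- index type of the coefficients of two generic monic polynomials -/
abbrev ircS (m d e : ℕ) : Type := (Fin d × Fin (m + 1)) ⊕ (Fin e × Fin (m + 1))

/-- monic polynomial of degree `d` in the outer variable with coefficients of degree at most `m` -/
noncomputable def ircG {B : Type*} [CommRing B] (m d : ℕ) (g : Fin d × Fin (m + 1) → B) : B[X][X] :=
  X ^ d + ∑ b : Fin d, C (∑ a : Fin (m + 1), C (g (b, a)) * X ^ (a : ℕ)) * X ^ (b : ℕ)

theorem ircG_map {B B' : Type*} [CommRing B] [CommRing B'] (f : B →+* B') (m d : ℕ)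
    (g : Fin d × Fin (m + 1) → B) :
    (ircG m d g).map (mapRingHom f) = ircG m d (fun i => f (g i)) := by
  simp [ircG, Polynomial.map_add, Polynomial.map_sum, Polynomial.map_mul, Polynomial.map_pow]

theorem ircG_degree_lt {B : Type*} [CommRing B] (m d : ℕ) (g : Fin d × Fin (m + 1) → B) :
    (∑ b : Fin d, C (∑ a : Fin (m + 1), C (g (b, a)) * X ^ (a : ℕ)) * X ^ (b : ℕ) : B[X][X]).degree
      < (d : WithBot ℕ) := by
  exact Polynomial.degree_sum_fin_lt (fun b : Fin d => (∑ a : Fin (m + 1), C (g (b, a)) * X ^ (a : ℕ) : B[X]))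

theorem ircG_monic {B : Type*} [CommRing B] (m d : ℕ) (g : Fin d × Fin (m + 1) → B) :
    (ircG m d g).Monic := by
  unfold ircG
  exact monic_X_pow_add (ircG_degree_lt m d g)

theorem ircG_natDegree {B : Type*} [CommRing B] [Nontrivial B] (m d : ℕ)
    (g : Fin d × Fin (m + 1) → B) : (ircG m d g).natDegree = d := by
  unfold ircG
  have h := ircG_degree_lt m d g
  rw [Polynomial.natDegree_add_eq_left_of_degree_lt]
  · simp
  · rw [degree_X_pow]; exact h

theorem ircG_eq {B : Type*} [CommRing B] {m d : ℕ} {G : B[X][X]} (hG : G.Monic)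
    (hd : G.natDegree = d) (hm : ∀ b, (G.coeff b).natDegree ≤ m) :
    G = ircG m d (fun i => (G.coeff i.1).coeff i.2) := by
  have h1 : ∀ b : ℕ, (∑ a : Fin (m + 1), C ((G.coeff b).coeff (a : ℕ)) * X ^ (a : ℕ) : B[X]) = G.coeff b := by
    intro b
    rw [Fin.sum_univ_eq_sum_range (fun a => C ((G.coeff b).coeff a) * X ^ a) (m + 1)]
    exact ((G.coeff b).as_sum_range_C_mul_X_pow' (by have := hm b; omega)).symm
  unfold ircG
  simp only [h1]
  rw [Fin.sum_univ_eq_sum_range (fun b => C (G.coeff b) * X ^ b) d]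
  conv_lhs => rw [G.as_sum_range_C_mul_X_pow]
  rw [hd, Finset.sum_range_succ, add_comm]
  congr 1
  have : G.coeff d = 1 := by rw [← hd]; exact hG
  rw [this]; simp

/-- if `C r` is not in an ideal of `A[σ]` for any nonzero `r`, the ideal has a zero in the algebraic closure -/
theorem irc_zero {A : Type} [CommRing A] [IsDomain A] {σ : Type} [Finite σ] (I : Ideal (MvPolynomial σ A))
    (hI : ∀ r : A, MvPolynomial.C r ∈ I → r = 0) :
    ∃ φ : MvPolynomial σ A →+* AlgebraicClosure (FractionRing A),
      (∀ c, φ (MvPolynomial.C c) = algebraMap A (AlgebraicClosure (FractionRing A)) c) ∧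
      ∀ x ∈ I, φ x = 0 := by
  let K := FractionRing A
  let S := MvPolynomial σ K
  let j : MvPolynomial σ A →+* S := MvPolynomial.map (algebraMap A K)
  have hJ : I.map j ≠ ⊤ := by
    letI : Algebra (MvPolynomial σ A) S := j.toAlgebra
    haveI : IsLocalization ((nonZeroDivisors A).map (MvPolynomial.C (σ := σ))) S :=
      MvPolynomial.isLocalization (nonZeroDivisors A) K
    have h := (IsLocalization.map_algebraMap_ne_top_iff_disjoint
      ((nonZeroDivisors A).map (MvPolynomial.C (σ := σ))) S I).2 ?_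
    · exact h
    · rw [Set.disjoint_left]
      rintro _ ⟨r, hr, rfl⟩ hrI
      exact nonZeroDivisors.ne_zero hr (hI r hrI)
  obtain ⟨M, hM, hIM⟩ := Ideal.exists_le_maximal _ hJ
  letI : Field (S ⧸ M) := Ideal.Quotient.field M
  haveI : Algebra.FiniteType K (S ⧸ M) :=
    Algebra.FiniteType.of_surjective (Ideal.Quotient.mkₐ K M) (Ideal.Quotient.mkₐ_surjective K M)
  haveI : Module.Finite K (S ⧸ M) := finite_of_finite_type_of_isJacobsonRing K (S ⧸ M)
  haveI : Algebra.IsAlgebraic K (S ⧸ M) := Algebra.IsAlgebraic.of_finite K (S ⧸ M)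
  let ψ : (S ⧸ M) →ₐ[K] AlgebraicClosure K := IsAlgClosed.lift
  refine ⟨(ψ : (S ⧸ M) →+* AlgebraicClosure K).comp ((Ideal.Quotient.mk M).comp j), ?_, ?_⟩
  · intro c
    have h1 : j (MvPolynomial.C c) = algebraMap K S (algebraMap A K c) := by
      exact MvPolynomial.map_C (algebraMap A K) c
    have h2 : (Ideal.Quotient.mk M) (algebraMap K S (algebraMap A K c))
        = algebraMap K (S ⧸ M) (algebraMap A K c) := rfl
    simp only [RingHom.comp_apply, h1, h2]
    have h3 : (ψ : (S ⧸ M) →+* AlgebraicClosure K) (algebraMap K (S ⧸ M) (algebraMap A K c))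
        = algebraMap K (AlgebraicClosure K) (algebraMap A K c) := ψ.commutes _
    rw [h3]
    exact (IsScalarTower.algebraMap_apply A K (AlgebraicClosure K) c).symm
  · intro x hx
    have : (Ideal.Quotient.mk M) (j x) = 0 :=
      Ideal.Quotient.eq_zero_iff_mem.2 (hIM (Ideal.mem_map_of_mem j hx))
    simp only [RingHom.comp_apply, this, map_zero]

/-- the difference of the generic product and `F` -/
noncomputable def ircP {A : Type} [CommRing A] (F : A[X][X]) (m d e : ℕ) : (MvPolynomial (ircS m d e) A)[X][X] :=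
  ircG m d (fun i => MvPolynomial.X (Sum.inl i)) * ircG m e (fun i => MvPolynomial.X (Sum.inr i))
    - F.map (mapRingHom MvPolynomial.C)

theorem ircP_map {A : Type} [CommRing A] (F : A[X][X]) (m d e : ℕ) {B : Type*} [CommRing B]
    (φ : MvPolynomial (ircS m d e) A →+* B) :
    (ircP F m d e).map (mapRingHom φ) = ircG m d (fun i => φ (MvPolynomial.X (Sum.inl i))) *
      ircG m e (fun i => φ (MvPolynomial.X (Sum.inr i))) - F.map (mapRingHom (φ.comp MvPolynomial.C)) := by
  unfold ircP
  rw [Polynomial.map_sub, Polynomial.map_mul, ircG_map, ircG_map, Polynomial.map_map, mapRingHom_comp]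

/-- the certificate for the factors of a given degree -/
theorem irc_one {A : Type} [CommRing A] [IsDomain A] (F : A[X][X])
    (hirr : Irreducible (F.map (mapRingHom (algebraMap A (AlgebraicClosure (FractionRing A))))))
    (m d e : ℕ) (hd : 0 < d) (he : 0 < e) :
    ∃ (r : A) (T : Finset A), r ≠ 0 ∧ ∀ (A₀ : Type) [CommRing A₀] (ι : A₀ →+* A), Function.Injective ι →
      (∀ s ∈ T, s ∈ ι.range) → ∀ F₀ : A₀[X][X], F₀.map (mapRingHom ι) = F → ∀ r₀ : A₀, ι r₀ = r →
      ∀ (k : Type) [Field k] (χ : A₀ →+* k) (g : Fin d × Fin (m + 1) → k) (h : Fin e × Fin (m + 1) → k),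
        F₀.map (mapRingHom χ) = ircG m d g * ircG m e h → χ r₀ = 0 := by
  classical
  let v : ℕ × ℕ → MvPolynomial (ircS m d e) A := fun ij => ((ircP F m d e).coeff ij.1).coeff ij.2
  obtain ⟨r, hr, hrI⟩ : ∃ r : A, r ≠ 0 ∧ MvPolynomial.C r ∈ Ideal.span (Set.range v) := by
    by_contra hcon
    push Not at hcon
    obtain ⟨φ, hφC, hφ⟩ := irc_zero (Ideal.span (Set.range v)) (fun r hr => by
      by_contra h0; exact hcon r h0 hr)
    have hz : (ircP F m d e).map (mapRingHom φ) = 0 := by
      ext i j
      simp only [coeff_map, coe_mapRingHom, coeff_zero]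
      exact hφ _ (Ideal.subset_span ⟨(i, j), rfl⟩)
    rw [ircP_map, sub_eq_zero] at hz
    have hcomp : φ.comp MvPolynomial.C = algebraMap A (AlgebraicClosure (FractionRing A)) := by
      ext c; exact hφC c
    rw [hcomp] at hz
    rw [← hz] at hirr
    rcases hirr.isUnit_or_isUnit rfl with hu | hu
    · have := (ircG_monic m d _).eq_one_of_isUnit hu
      have h2 := congrArg natDegree this
      rw [ircG_natDegree, natDegree_one] at h2
      omega
    · have := (ircG_monic m e _).eq_one_of_isUnit hu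
      have h2 := congrArg natDegree this
      rw [ircG_natDegree, natDegree_one] at h2
      omega
  rw [Finsupp.mem_ideal_span_range_iff_exists_finsupp] at hrI
  obtain ⟨c, hc⟩ := hrI
  refine ⟨r, c.support.biUnion (fun i => (c i).support.image (fun s => (c i).coeff s)), hr, ?_⟩
  intro A₀ _ ι hι hT F₀ hF₀ r₀ hr₀ k _ χ g h hgh
  -- lift the coefficients
  have hlift : ∀ i, ∃ Q : MvPolynomial (ircS m d e) A₀, MvPolynomial.map ι Q = c i := by
    intro i
    have : c i ∈ Set.range (MvPolynomial.map (σ := ircS m d e) ι) := by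
      rw [MvPolynomial.mem_range_map_iff_coeffs_subset]
      intro x hx
      rw [Finset.mem_coe, MvPolynomial.mem_coeffs_iff] at hx
      obtain ⟨s, hs, hsx⟩ := hx
      have hx2 : x ∈ c.support.biUnion (fun i => (c i).support.image (fun s => (c i).coeff s)) := by
        rw [Finset.mem_biUnion]
        refine ⟨i, ?_, Finset.mem_image.2 ⟨s, hs, hsx.symm⟩⟩
        rw [Finsupp.mem_support_iff]
        intro h0
        rw [h0] at hs
        simp at hs
      exact hT x hx2
    exact this
  choose Q hQ using hlift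
  have hv : ∀ ij : ℕ × ℕ, MvPolynomial.map ι (((ircP F₀ m d e).coeff ij.1).coeff ij.2) = v ij := by
    intro ij
    have h1 : (ircP F₀ m d e).map (mapRingHom (MvPolynomial.map ι)) = ircP F m d e := by
      rw [ircP_map]
      unfold ircP
      rw [← hF₀, Polynomial.map_map, mapRingHom_comp]
      have h2 : (MvPolynomial.map (σ := ircS m d e) ι).comp MvPolynomial.C = MvPolynomial.C.comp ι := by
        ext c; simp
      simp only [MvPolynomial.map_X, h2]
    have h3 : ((((ircP F₀ m d e).map (mapRingHom (MvPolynomial.map ι))).coeff ij.1).coeff ij.2)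
        = (((ircP F m d e).coeff ij.1).coeff ij.2) := by rw [h1]
    simpa only [coeff_map, coe_mapRingHom] using h3
  have hsum : (c.sum fun i _ => Q i * (((ircP F₀ m d e).coeff i.1).coeff i.2)) = MvPolynomial.C r₀ := by
    apply MvPolynomial.map_injective ι hι
    rw [MvPolynomial.map_C, hr₀, ← hc, Finsupp.sum, map_sum, Finsupp.sum]
    refine Finset.sum_congr rfl fun i _ => ?_
    rw [map_mul, hQ, hv]
  -- evaluate
  let ev : MvPolynomial (ircS m d e) A₀ →+* k := MvPolynomial.eval₂Hom χ (Sum.elim g h)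
  have hev0 : ∀ i j, ev (((ircP F₀ m d e).coeff i).coeff j) = 0 := by
    intro i j
    have h1 : (ircP F₀ m d e).map (mapRingHom ev) = 0 := by
      rw [ircP_map]
      have h2 : ev.comp MvPolynomial.C = χ := by ext c; simp [ev]
      rw [h2, hgh]
      have h3 : (fun i => ev (MvPolynomial.X (Sum.inl i))) = g := by ext i; simp [ev]
      have h4 : (fun i => ev (MvPolynomial.X (Sum.inr i))) = h := by ext i; simp [ev]
      rw [h3, h4, sub_self]
    have h5 : ((((ircP F₀ m d e).map (mapRingHom ev)).coeff i).coeff j) = 0 := by rw [h1]; simp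
    simpa only [coeff_map, coe_mapRingHom] using h5
  have h6 := congrArg ev hsum
  rw [Finsupp.sum, map_sum, Finset.sum_eq_zero] at h6
  · rw [show ev (MvPolynomial.C r₀) = χ r₀ by simp [ev]] at h6
    exact h6.symm
  · intro i _
    rw [map_mul, hev0, mul_zero]

theorem irc_swap_coeff {B : Type*} [CommRing B] (P : B[X][X]) (i j : ℕ) :
    ((Bivariate.swap P).coeff j).coeff i = (P.coeff i).coeff j := by
  induction P using Polynomial.induction_on' with
  | add p q hp hq => simp only [map_add, coeff_add, hp, hq]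
  | monomial n a =>
    induction a using Polynomial.induction_on' with
    | add p q hp hq => simp only [map_add, coeff_add, hp, hq]
    | monomial l b =>
      rw [Bivariate.swap_monomial_monomial]
      simp only [coeff_monomial]
      by_cases h1 : l = j <;> by_cases h2 : n = i <;> simp [h1, h2, coeff_monomial]

theorem irc_swap_natDegree {B : Type*} [CommRing B] (P : B[X][X]) (m : ℕ) :
    (Bivariate.swap P).natDegree ≤ m ↔ ∀ b, (P.coeff b).natDegree ≤ m := by
  simp only [natDegree_le_iff_coeff_eq_zero]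
  constructor
  · intro h b j hj
    rw [← irc_swap_coeff, h j hj, coeff_zero]
  · intro h j hj
    ext i
    rw [irc_swap_coeff, h i j hj, coeff_zero]

theorem irc_deg_factor {k : Type*} [Field k] {f g P : k[X][X]} (h : f * g = P) (hP : P ≠ 0) {m : ℕ}
    (hm : ∀ b, (P.coeff b).natDegree ≤ m) : ∀ b, (f.coeff b).natDegree ≤ m := by
  rw [← irc_swap_natDegree] at hm ⊢
  refine le_trans ?_ hm
  rw [← h, map_mul, natDegree_mul]
  · exact Nat.le_add_right _ _
  · intro h0
    apply hP
    have : f = 0 := by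
      have := congrArg Bivariate.swap h0
      rwa [Bivariate.swap_swap_apply, map_zero] at this
    rw [← h, this, zero_mul]
  · intro h0
    apply hP
    have : g = 0 := by
      have := congrArg Bivariate.swap h0
      rwa [Bivariate.swap_swap_apply, map_zero] at this
    rw [← h, this, mul_zero]

/-- absolute irreducibility is preserved by good specialisations -/
theorem irrCert {A : Type} [CommRing A] [IsDomain A] (F : A[X][X]) (hF : F.Monic)
    (hirr : Irreducible (F.map (mapRingHom (algebraMap A (AlgebraicClosure (FractionRing A)))))) :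
    ∃ (R : A) (T : Finset A), R ≠ 0 ∧ ∀ (A₀ : Type) [CommRing A₀] (ι : A₀ →+* A), Function.Injective ι →
      (∀ s ∈ T, s ∈ ι.range) → ∀ F₀ : A₀[X][X], F₀.map (mapRingHom ι) = F → ∀ R₀ : A₀, ι R₀ = R →
      ∀ (k : Type) [Field k] (χ : A₀ →+* k), χ R₀ ≠ 0 → Irreducible (F₀.map (mapRingHom χ)) := by
  classical
  set D := F.natDegree with hD
  set m := (Finset.range (D + 1)).sup (fun b => (F.coeff b).natDegree) with hm
  have hmF : ∀ b, (F.coeff b).natDegree ≤ m := by
    intro b
    by_cases hb : b ≤ D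
    · exact Finset.le_sup (f := fun b => (F.coeff b).natDegree) (Finset.mem_range.2 (by omega))
    · rw [coeff_eq_zero_of_natDegree_lt (by omega)]; simp
  have hne1 : F ≠ 1 := by
    intro h
    rw [h] at hirr
    simp only [Polynomial.map_one] at hirr
    exact hirr.not_isUnit isUnit_one
  have key : ∀ d : ℕ, ∃ (r : A) (T : Finset A), r ≠ 0 ∧ (0 < d → d < D → ∀ (A₀ : Type) [CommRing A₀]
      (ι : A₀ →+* A), Function.Injective ι →
      (∀ s ∈ T, s ∈ ι.range) → ∀ F₀ : A₀[X][X], F₀.map (mapRingHom ι) = F → ∀ r₀ : A₀, ι r₀ = r →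
      ∀ (k : Type) [Field k] (χ : A₀ →+* k) (g : Fin d × Fin (m + 1) → k) (h : Fin (D - d) × Fin (m + 1) → k),
        F₀.map (mapRingHom χ) = ircG m d g * ircG m (D - d) h → χ r₀ = 0) := by
    intro d
    by_cases hd : 0 < d ∧ d < D
    · obtain ⟨r, T, hr, h⟩ := irc_one F hirr m d (D - d) hd.1 (by omega)
      exact ⟨r, T, hr, fun _ _ => h⟩
    · exact ⟨1, ∅, one_ne_zero, fun h1 h2 => absurd ⟨h1, h2⟩ hd⟩
  choose r T hr hprop using key
  refine ⟨∏ d ∈ Finset.range D, r d, (Finset.range D).biUnion T ∪ (Finset.range D).image r,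
    Finset.prod_ne_zero_iff.2 fun d _ => hr d, ?_⟩
  intro A₀ _ ι hι hT F₀ hF₀ R₀ hR₀ k _ χ hχ
  have hF₀m : F₀.Monic := by
    have h1 : Function.Injective (mapRingHom ι) := Polynomial.map_injective ι hι
    exact Polynomial.monic_of_injective h1 (by rw [hF₀]; exact hF)
  have hdeg : F₀.natDegree = D := by
    have h1 : Function.Injective (mapRingHom ι) := Polynomial.map_injective ι hι
    rw [hD, ← hF₀, Polynomial.natDegree_map_eq_of_injective h1]
  have hPm : (F₀.map (mapRingHom χ)).Monic := hF₀m.map _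
  have hPdeg : (F₀.map (mapRingHom χ)).natDegree = D := by
    rw [hF₀m.natDegree_map, hdeg]
  have hm₀ : ∀ b, (F₀.coeff b).natDegree ≤ m := by
    intro b
    have h1 : (F₀.coeff b).map ι = F.coeff b := by rw [← hF₀]; simp [coeff_map]
    rw [← Polynomial.natDegree_map_eq_of_injective hι, h1]
    exact hmF b
  have hmP : ∀ b, ((F₀.map (mapRingHom χ)).coeff b).natDegree ≤ m := by
    intro b
    rw [coeff_map, coe_mapRingHom]
    exact le_trans natDegree_map_le (hm₀ b)
  have hDpos : D ≠ 0 := by
    intro h0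
    exact hne1 (hF.natDegree_eq_zero.1 (by rw [← hD, h0]))
  rw [hPm.irreducible_iff_natDegree]
  refine ⟨?_, ?_⟩
  · intro h1
    rw [h1, natDegree_one] at hPdeg
    exact hDpos hPdeg.symm
  · intro f g hf hg hfg
    by_contra hcon
    push Not at hcon
    have hsum : f.natDegree + g.natDegree = D := by
      rw [← hf.natDegree_mul hg, hfg, hPdeg]
    have hd1 : 0 < f.natDegree := Nat.pos_of_ne_zero hcon.1
    have hd2 : f.natDegree < D := by have := Nat.pos_of_ne_zero hcon.2; omega
    have hgd : g.natDegree = D - f.natDegree := by omega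
    have e1 := ircG_eq hf rfl (irc_deg_factor hfg hPm.ne_zero hmP)
    have e2 := ircG_eq hg hgd (irc_deg_factor (by rw [mul_comm]; exact hfg) hPm.ne_zero hmP)
    have hmem : r f.natDegree ∈ ι.range := hT _ (Finset.mem_union_right _
      (Finset.mem_image_of_mem _ (Finset.mem_range.2 hd2)))
    obtain ⟨r₀, hr₀⟩ := hmem
    have h0 : χ r₀ = 0 := hprop f.natDegree hd1 hd2 A₀ ι hι
      (fun s hs => hT s (Finset.mem_union_left _ (Finset.mem_biUnion.2 ⟨_, Finset.mem_range.2 hd2, hs⟩)))
      F₀ hF₀ r₀ hr₀ k χ _ _ (by rw [← e1, ← e2]; exact hfg.symm)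
    -- all the `r d` lift
    have hall : ∀ d ∈ Finset.range D, ∃ s : A₀, ι s = r d := fun d hd =>
      hT _ (Finset.mem_union_right _ (Finset.mem_image_of_mem _ hd))
    choose! s hs using hall
    have hR : R₀ = ∏ d ∈ Finset.range D, s d := by
      apply hι
      rw [hR₀, map_prod]
      exact Finset.prod_congr rfl fun d hd => (hs d hd).symm
    apply hχ
    rw [hR, map_prod]
    refine Finset.prod_eq_zero (Finset.mem_range.2 hd2) ?_
    have : s f.natDegree = r₀ := hι (by rw [hs _ (Finset.mem_range.2 hd2), hr₀])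
    rw [this, h0]

end Pool.Agent.ZPL
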