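import Mathlib
import Pool.Agent.ZPL.IrrCert
import Pool.Agent.ZPL.Bertini

open Polynomial

namespace Pool.Agent.ZPL

/-- the zeros of a polynomial over `𝔽_p` -/
lemma h61_zippel {p : ℕ} [Fact p.Prime] {N : ℕ} (hN : 0 < N) (F : MvPolynomial (Fin N) (ZMod p)) (hF : F ≠ 0)
    (P : (Fin N → ZMod p) → Prop) [DecidablePred P] (hP : ∀ v, P v → MvPolynomial.eval v F = 0) :
    (Finset.univ.filter P).card ≤ F.totalDegree * p ^ (N - 1) := by
  have hp0 : 0 < p := (Fact.out : p.Prime).pos
  have h1 := MvPolynomial.schwartz_zippel_totalDegree hF (Finset.univ : Finset (ZMod p))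
  rw [Finset.card_univ, ZMod.card, Fintype.piFinset_univ] at h1
  have h2 : (Finset.univ.filter P).card ≤
      ((Finset.univ : Finset (Fin N → ZMod p)).filter fun f => MvPolynomial.eval f F = 0).card := by
    refine Finset.card_le_card fun v hv => ?_
    rw [Finset.mem_filter] at hv ⊢
    exact ⟨hv.1, hP v hv.2⟩
  have hp0' : (0 : ℚ≥0) < (p : ℚ≥0) := by exact_mod_cast hp0
  rw [div_le_div_iff₀ (by positivity) hp0'] at h1
  have h4 : ((Finset.univ : Finset (Fin N → ZMod p)).filter fun f => MvPolynomial.eval f F = 0).card * p ≤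
      F.totalDegree * p ^ N := by
    have h5 := h1
    rw [← Nat.cast_mul, ← Nat.cast_pow, ← Nat.cast_mul, Nat.cast_le] at h5
    refine le_trans (le_of_eq ?_) h5
    congr 2
  have h5 : p ^ N = p ^ (N - 1) * p := by
    rw [← pow_succ]
    congr 1
    omega
  rw [h5, ← mul_assoc] at h4
  exact h2.trans (Nat.le_of_mul_le_mul_right h4 hp0)

lemma h61_ne {O : Subring ℂ} {k : Type*} [Field k] (θ : O →+* k) (x : O) {c : ℂ} (hx : (x : ℂ) = c)
    (hc : c ≠ 0) (hi : c⁻¹ ∈ O) : θ x ≠ 0 := by
  intro h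
  have h4 : x * ⟨c⁻¹, hi⟩ = 1 := by
    apply Subtype.ext
    rw [Subring.coe_mul, Subring.coe_one, hx]
    exact mul_inv_cancel₀ hc
  have h5 := congrArg θ h4
  rw [map_mul, h, zero_mul, map_one] at h5
  exact zero_ne_one h5

open Classical in
/-- almost all lines through a point give an absolutely irreducible cover, modulo almost all primes -/
theorem irr_slices {N : ℕ} (hN : 0 < N) (F : (MvPolynomial (Fin N) ℂ)[X]) (hF : F.Monic) (hirr : Irreducible F)
    (a : Fin N → ℤ) (hsep : (F.map (MvPolynomial.eval fun i => (a i : ℂ))).Separable) :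
    ∃ (S : Finset ℂ) (w : ℕ), ∀ (p : ℕ) [Fact p.Prime] (O : Subring ℂ) (θ : O →+* ZMod p) (k : Type) [Field k]
      (ψ : ZMod p →+* k), (∀ s ∈ S, s ∈ O) → ∀ F₀ : (MvPolynomial (Fin N) O)[X],
      F₀.map (MvPolynomial.map O.subtype) = F →
      (Finset.univ.filter fun v : Fin N → ZMod p => ¬ Irreducible (((F₀.map (MvPolynomial.map θ)).map
        (sl (RingHom.id _) (fun i => (a i : ZMod p)) v)).map (mapRingHom ψ))).card ≤ w * p ^ (N - 1) := by
  have hspl : (F.map (MvPolynomial.eval fun i => (a i : ℂ))).Splits := IsAlgClosed.splits _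
  obtain ⟨R, T, hR, hRT⟩ := irrCert (F.map (sl MvPolynomial.C (fun i => MvPolynomial.C (a i : ℂ))
    MvPolynomial.X)) (hF.map _) (bertini F hF hirr (fun i => (a i : ℂ)) hsep hspl)
  obtain ⟨m, hm⟩ := MvPolynomial.ne_zero_iff.1 hR
  refine ⟨R.coeffs ∪ {(R.coeff m)⁻¹} ∪ T.biUnion (fun t => t.coeffs), R.totalDegree, ?_⟩
  intro p _ O θ k _ ψ hS F₀ hF₀
  have hinj : Function.Injective O.subtype := Subtype.val_injective
  have hι : Function.Injective (MvPolynomial.map O.subtype : MvPolynomial (Fin N) O →+* _) :=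
    MvPolynomial.map_injective _ hinj
  have hlift : ∀ t : MvPolynomial (Fin N) ℂ, (∀ c ∈ t.coeffs, c ∈ O) →
      ∃ t₀ : MvPolynomial (Fin N) O, MvPolynomial.map O.subtype t₀ = t := by
    intro t ht
    have h1 : t ∈ Set.range (MvPolynomial.map O.subtype) := by
      rw [MvPolynomial.mem_range_map_iff_coeffs_subset]
      intro c hc
      exact ⟨⟨c, ht c hc⟩, rfl⟩
    exact h1
  obtain ⟨R₀, hR₀⟩ := hlift R fun c hc => hS c (by simp [hc])
  have hT : ∀ s ∈ T, s ∈ (MvPolynomial.map O.subtype : MvPolynomial (Fin N) O →+* _).range := by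
    intro s hs
    obtain ⟨s₀, hs₀⟩ := hlift s fun c hc => hS c (by
      rw [Finset.mem_union]
      right
      exact Finset.mem_biUnion.2 ⟨s, hs, hc⟩)
    exact ⟨s₀, hs₀⟩
  have hsl : (F₀.map (sl MvPolynomial.C (fun i => MvPolynomial.C (a i : O)) MvPolynomial.X)).map
      (mapRingHom (MvPolynomial.map O.subtype)) =
      F.map (sl MvPolynomial.C (fun i => MvPolynomial.C (a i : ℂ)) MvPolynomial.X) := by
    rw [← hF₀, Polynomial.map_map, Polynomial.map_map]
    congr 1
    apply MvPolynomial.ringHom_ext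
    · intro c
      simp [sl]
    · intro i
      simp [sl]
  have hθR : MvPolynomial.map θ R₀ ≠ 0 := by
    intro h0
    have h1 : (MvPolynomial.map θ R₀).coeff m = 0 := by rw [h0, MvPolynomial.coeff_zero]
    rw [MvPolynomial.coeff_map] at h1
    have h2 : ((R₀.coeff m : O) : ℂ) = R.coeff m := by
      rw [← hR₀, MvPolynomial.coeff_map]
      rfl
    have h3 : (R.coeff m)⁻¹ ∈ O := hS _ (by simp)
    exact h61_ne θ _ h2 hm h3 h1
  have hdeg : (MvPolynomial.map θ R₀).totalDegree ≤ R.totalDegree := by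
    have h1 : (MvPolynomial.map θ R₀).support ⊆ R.support := by
      refine (MvPolynomial.support_map_subset θ R₀).trans ?_
      rw [← hR₀, MvPolynomial.support_map_of_injective _ hinj]
    rw [MvPolynomial.totalDegree_eq, MvPolynomial.totalDegree_eq]
    exact Finset.sup_mono h1
  refine (h61_zippel hN _ hθR _ ?_).trans (Nat.mul_le_mul_right _ hdeg)
  intro v hv
  by_contra hne
  apply hv
  let χ : MvPolynomial (Fin N) O →+* k := ψ.comp ((MvPolynomial.eval v).comp (MvPolynomial.map θ))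
  have hχ : χ R₀ ≠ 0 := by
    intro h0
    apply hne
    exact (map_eq_zero ψ).1 h0
  have h1 := hRT (MvPolynomial (Fin N) O) (MvPolynomial.map O.subtype) hι hT _ hsl R₀ hR₀ k χ hχ
  have h2 : ((F₀.map (MvPolynomial.map θ)).map
        (sl (RingHom.id _) (fun i => (a i : ZMod p)) v)).map (mapRingHom ψ) =
      (F₀.map (sl MvPolynomial.C (fun i => MvPolynomial.C (a i : O)) MvPolynomial.X)).map
        (mapRingHom χ) := by
    rw [Polynomial.map_map, Polynomial.map_map, Polynomial.map_map]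
    congr 1
    apply MvPolynomial.ringHom_ext
    · intro c
      simp [sl, χ]
    · intro i
      simp [sl, χ]
  rw [h2]
  exact h1

end Pool.Agent.ZPL
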