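import Mathlib

/-!
Polynomials in two variables `X` (inner) and `Y` (outer): weights, the derivation `F_Y ∂_X - F_X ∂_Y`,
expansions along a parametrised arc.
-/

open Polynomial

namespace Pool.Agent.ZPL

section

variable {R : Type*} [CommRing R]

/-- weight at most `N`; the inner variable has weight `1`, the outer variable has weight `m` -/
def Wt (m N : ℕ) (f : R[X][X]) : Prop := ∀ b, f.coeff b ≠ 0 → (f.coeff b).natDegree + m * b ≤ N

/-- the derivative with respect to the inner variable -/
noncomputable def dX (f : R[X][X]) : R[X][X] := f.sum fun b a => C (derivative a) * X ^ b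

/-- the derivation `F_Y ∂_X - F_X ∂_Y` -/
noncomputable def delta (F f : R[X][X]) : R[X][X] := derivative F * dX f - dX F * derivative f

/-- evaluation at `(x₀ + t, η(t))` -/
noncomputable def tev (x₀ : R) (η : R[X]) : R[X][X] →+* R[X] := eval₂RingHom (compRingHom (X + C x₀)) η

/-- the index set of the auxiliary polynomial -/
def Lam (m D N' : ℕ) : Finset (ℕ × ℕ) :=
  ((Finset.range (N' + 1)) ×ˢ (Finset.range D)).filter fun s => s.1 + m * s.2 ≤ N'

end

end Pool.Agent.ZPL
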