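import Mathlib
import Pool.Agent.ZPL.Biv

/-!
Elementary properties of weights and of the derivation.
-/

open Polynomial

namespace Pool.Agent.ZPL

variable {k : Type*} [Field k] {m D N N' : ℕ} {F f g : k[X][X]}

lemma BivLem_iff : Wt m N f ↔ ∀ b i, (f.coeff b).coeff i ≠ 0 → i + m * b ≤ N := by
  constructor
  · intro h b i hi
    have hb : f.coeff b ≠ 0 := by
      intro h0
      exact hi (by rw [h0, coeff_zero])
    have h1 := h b hb
    have h2 := le_natDegree_of_ne_zero hi
    omega
  · intro h b hb
    exact h b _ (by rwa [coeff_natDegree, leadingCoeff_ne_zero])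

lemma Wt.mono (h : Wt m N f) (hN : N ≤ N') : Wt m N' f := fun b hb => (h b hb).trans hN

lemma Wt.zero (m N : ℕ) : Wt m N (0 : k[X][X]) := fun b hb => absurd (coeff_zero b) hb

lemma Wt.add (h : Wt m N f) (h' : Wt m N g) : Wt m N (f + g) := by
  rw [BivLem_iff] at *
  intro b i hi
  rw [coeff_add, coeff_add] at hi
  by_cases h0 : (f.coeff b).coeff i = 0
  · exact h' b i (by rwa [h0, zero_add] at hi)
  · exact h b i h0

lemma Wt.neg (h : Wt m N f) : Wt m N (-f) := by
  rw [BivLem_iff] at *
  intro b i hi
  rw [coeff_neg, coeff_neg] at hi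
  exact h b i (by simpa using hi)

lemma Wt.sub (h : Wt m N f) (h' : Wt m N g) : Wt m N (f - g) := by
  rw [sub_eq_add_neg]
  exact h.add h'.neg

lemma Wt.mul (h : Wt m N f) (h' : Wt m N' g) : Wt m (N + N') (f * g) := by
  rw [BivLem_iff] at *
  intro b i hi
  rw [coeff_mul, finsetSum_coeff] at hi
  obtain ⟨x, hx, hx0⟩ := Finset.exists_ne_zero_of_sum_ne_zero hi
  rw [coeff_mul] at hx0
  obtain ⟨y, hy, hy0⟩ := Finset.exists_ne_zero_of_sum_ne_zero hx0
  have e1 := h x.1 y.1 (left_ne_zero_of_mul hy0)
  have e2 := h' x.2 y.2 (right_ne_zero_of_mul hy0)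
  rw [Finset.HasAntidiagonal.mem_antidiagonal] at hx hy
  have e3 : m * b = m * x.1 + m * x.2 := by rw [← hx, mul_add]
  omega

lemma BivLem_one (m : ℕ) : Wt m 0 (1 : k[X][X]) := by
  rw [BivLem_iff]
  intro b i hi
  rcases Nat.eq_zero_or_pos b with rfl | hb
  · rcases Nat.eq_zero_or_pos i with rfl | hi'
    · simp
    · exact absurd (by simp [coeff_one, hi'.ne']) hi
  · exact absurd (by simp [coeff_one, hb.ne']) hi

lemma Wt.pow (h : Wt m N f) (j : ℕ) : Wt m (N * j) (f ^ j) := by
  induction j with
  | zero => simpa using BivLem_one m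
  | succ j ih =>
    rw [pow_succ, Nat.mul_succ]
    exact ih.mul h

lemma Wt.sum {ι : Type*} (s : Finset ι) (f : ι → k[X][X]) (h : ∀ i ∈ s, Wt m N (f i)) : Wt m N (∑ i ∈ s, f i) := by
  classical
  induction s using Finset.induction_on with
  | empty => simpa using Wt.zero m N
  | insert a s ha ih =>
    rw [Finset.sum_insert ha]
    exact (h a (Finset.mem_insert_self a s)).add (ih fun i hi => h i (Finset.mem_insert_of_mem hi))

lemma Wt.C' (m : ℕ) {a : k[X]} (h : a.natDegree ≤ N) : Wt m N (C a : k[X][X]) := by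
  intro b hb
  rcases Nat.eq_zero_or_pos b with rfl | hb'
  · simpa using h
  · exact absurd (by rw [coeff_C, if_neg hb'.ne']) hb

lemma Wt.X' (m : ℕ) : Wt m m (X : k[X][X]) := by
  intro b hb
  by_cases h1 : b = 1
  · subst h1
    simp
  · exact absurd (coeff_X_of_ne_one h1) hb

lemma Wt.modByMonic (hF : F.Monic) (hD : F.natDegree = D) (hw : Wt m (m * D) F) (h : Wt m N f) :
    Wt m N (f %ₘ F) := by
  induction hd : f.natDegree using Nat.strong_induction_on generalizing f with
  | _ d ih =>
    by_cases hF0 : F.degree ≤ f.degree ∧ f ≠ 0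
    · have hlt := div_wf_lemma hF0 hF
      set f' := f - F * (C (leadingCoeff f) * X ^ (natDegree f - natDegree F)) with hf'
      have hmod : f %ₘ F = f' %ₘ F := by
        apply modByMonic_eq_of_dvd_sub hF
        rw [hf', sub_sub_cancel]
        exact dvd_mul_right _ _
      have hdle : F.natDegree ≤ f.natDegree := natDegree_le_natDegree hF0.1
      have hwt : Wt m N f' := by
        apply h.sub
        have h1 : Wt m (f.leadingCoeff.natDegree) (C f.leadingCoeff : k[X][X]) := Wt.C' m le_rfl
        have h2 : Wt m (m * (natDegree f - natDegree F)) ((X : k[X][X]) ^ (natDegree f - natDegree F)) :=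
          (Wt.X' m).pow _
        refine (hw.mul (h1.mul h2)).mono ?_
        have h3 := h f.natDegree (by rw [coeff_natDegree]; exact leadingCoeff_ne_zero.mpr hF0.2)
        rw [coeff_natDegree] at h3
        have h4 : m * D + m * (natDegree f - natDegree F) = m * natDegree f := by
          rw [← mul_add, ← hD, Nat.add_sub_cancel' hdle]
        omega
      rw [hmod]
      by_cases h0 : f' = 0
      · rw [h0, zero_modByMonic]
        exact Wt.zero m N
      · exact ih f'.natDegree (by rw [← hd]; exact natDegree_lt_natDegree h0 hlt) hwt rfl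
    · by_cases h0 : f = 0
      · rw [h0, zero_modByMonic]
        exact Wt.zero m N
      · have : f.degree < F.degree := by
          by_contra hc
          exact hF0 ⟨not_lt.mp hc, h0⟩
        rw [(modByMonic_eq_self_iff hF).mpr this]
        exact h

lemma BivLem_coeff_dX (f : k[X][X]) (b : ℕ) : (dX f).coeff b = derivative (f.coeff b) := by
  rw [dX, Polynomial.sum_def, finsetSum_coeff]
  simp only [coeff_C_mul, coeff_X_pow, mul_ite, mul_one, mul_zero]
  rw [Finset.sum_ite_eq]
  split_ifs with h
  · rfl
  · rw [notMem_support_iff.mp h, derivative_zero]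

lemma dX_add (f g : k[X][X]) : dX (f + g) = dX f + dX g := by
  ext1 b
  simp only [BivLem_coeff_dX, coeff_add, derivative_add]

lemma dX_mul (f g : k[X][X]) : dX (f * g) = dX f * g + f * dX g := by
  ext1 b
  rw [BivLem_coeff_dX, coeff_add, coeff_mul, coeff_mul, coeff_mul, derivative_sum, ← Finset.sum_add_distrib]
  refine Finset.sum_congr rfl fun x _ => ?_
  rw [BivLem_coeff_dX, BivLem_coeff_dX, derivative_mul]

lemma dX_C (a : k[X]) : dX (C a) = C (derivative a) := by
  ext1 b
  rw [BivLem_coeff_dX, coeff_C, coeff_C]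
  split_ifs
  · rfl
  · exact derivative_zero

lemma dX_X : dX (X : k[X][X]) = 0 := by
  ext1 b
  rw [BivLem_coeff_dX, coeff_X, coeff_zero]
  split_ifs
  · exact derivative_one
  · exact derivative_zero

lemma BivLem_wt_dX (h : Wt m N f) : Wt m N (dX f) := by
  rw [BivLem_iff] at *
  intro b i hi
  rw [BivLem_coeff_dX, coeff_derivative] at hi
  have := h b (i + 1) (left_ne_zero_of_mul hi)
  omega

lemma BivLem_wt_derivative (h : Wt m N f) : Wt m N (derivative f) := by
  rw [BivLem_iff] at *
  intro b i hi
  have h0 : (f.coeff (b + 1)).coeff i ≠ 0 := by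
    intro h1
    apply hi
    rw [coeff_derivative]
    have : ((b : k[X]) + 1) = C ((b : k) + 1) := by simp
    rw [this, coeff_mul_C, h1, zero_mul]
  have := h (b + 1) i h0
  rw [mul_add] at this
  omega

lemma Wt.delta (hw : Wt m (m * D) F) (h : Wt m N f) : Wt m (N + m * D) (delta F f) := by
  rw [ZPL.delta, add_comm]
  refine ((BivLem_wt_derivative hw).mul (BivLem_wt_dX h)).sub ?_
  exact (BivLem_wt_dX hw).mul (BivLem_wt_derivative h)

lemma Wt.iter (hw : Wt m (m * D) F) (h : Wt m N f) (l : ℕ) : Wt m (N + l * (m * D)) ((ZPL.delta F)^[l] f) := by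
  induction l with
  | zero => simpa using h
  | succ l ih =>
    rw [Function.iterate_succ_apply']
    exact (Wt.delta hw ih).mono (by rw [Nat.succ_mul]; omega)

lemma delta_add (F f g : k[X][X]) : delta F (f + g) = delta F f + delta F g := by
  rw [delta, delta, delta, dX_add, derivative_add]
  ring

lemma delta_mul (F f g : k[X][X]) : delta F (f * g) = delta F f * g + f * delta F g := by
  rw [delta, delta, delta, dX_mul, derivative_mul]
  ring

lemma delta_self (F : k[X][X]) : delta F F = 0 := by
  rw [delta]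
  ring

lemma delta_dvd (h : F ∣ f) : F ∣ delta F f := by
  obtain ⟨g, rfl⟩ := h
  rw [delta_mul, delta_self, zero_mul, zero_add]
  exact dvd_mul_right _ _

lemma iter_delta_dvd (h : F ∣ f) (l : ℕ) : F ∣ (delta F)^[l] f := by
  induction l with
  | zero => exact h
  | succ l ih =>
    rw [Function.iterate_succ_apply']
    exact delta_dvd ih

lemma delta_smul (F : k[X][X]) (c : k) (f : k[X][X]) : delta F (C (C c) * f) = C (C c) * delta F f := by
  have h0 : delta F (C (C c) : k[X][X]) = 0 := by
    rw [delta, dX_C, derivative_C, derivative_C, C_0]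
    ring
  rw [delta_mul, h0, zero_mul, zero_add]

lemma iter_delta_add (F f g : k[X][X]) (l : ℕ) :
    (delta F)^[l] (f + g) = (delta F)^[l] f + (delta F)^[l] g := by
  induction l with
  | zero => rfl
  | succ l ih => rw [Function.iterate_succ_apply', Function.iterate_succ_apply', Function.iterate_succ_apply', ih,
      delta_add]

lemma iter_delta_smul (F : k[X][X]) (c : k) (f : k[X][X]) (l : ℕ) :
    (delta F)^[l] (C (C c) * f) = C (C c) * (delta F)^[l] f := by
  induction l with
  | zero => rfl
  | succ l ih => rw [Function.iterate_succ_apply', Function.iterate_succ_apply', ih, delta_smul]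

lemma BivLem_iter_zero (F : k[X][X]) (l : ℕ) : (delta F)^[l] (0 : k[X][X]) = 0 := by
  have h := iter_delta_smul F 0 (0 : k[X][X]) l
  simpa using h

lemma iter_delta_sum {ι : Type*} (F : k[X][X]) (s : Finset ι) (f : ι → k[X][X]) (l : ℕ) :
    (delta F)^[l] (∑ i ∈ s, f i) = ∑ i ∈ s, (delta F)^[l] (f i) := by
  classical
  induction s using Finset.induction_on with
  | empty => simpa using BivLem_iter_zero F l
  | insert a s ha ih => rw [Finset.sum_insert ha, Finset.sum_insert ha, iter_delta_add, ih]

lemma BivLem_delta_pow (F g : k[X][X]) (n : ℕ) :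
    delta F (g ^ (n + 1)) = ((n + 1 : ℕ) : k[X][X]) * g ^ n * delta F g := by
  induction n with
  | zero => simp
  | succ n ih =>
    rw [pow_succ g (n + 1), delta_mul, ih]
    push_cast
    ring

/-- `p`-th powers are constants of the derivation -/
lemma iter_delta_mul_pow {p : ℕ} [Fact p.Prime] [CharP k p] (F f g : k[X][X]) (l : ℕ) :
    (delta F)^[l] (f * g ^ p) = (delta F)^[l] f * g ^ p := by
  have hp : 0 < p := (Fact.out : p.Prime).pos
  have h0 : delta F (g ^ p) = 0 := by
    obtain ⟨n, hn⟩ : ∃ n, p = n + 1 := ⟨p - 1, by omega⟩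
    have h1 : ((p : ℕ) : k[X][X]) = 0 := CharP.cast_eq_zero (k[X][X]) p
    have h2 := BivLem_delta_pow F g n
    rw [← hn, h1, zero_mul, zero_mul] at h2
    exact h2
  induction l with
  | zero => rfl
  | succ l ih => rw [Function.iterate_succ_apply', Function.iterate_succ_apply', ih, delta_mul, h0, mul_zero, add_zero]

end Pool.Agent.ZPL
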