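import Mathlib
import Pool.Agent.ZPL.BivLem

/-!
The number of zeros of a polynomial on a plane curve.
-/

open Polynomial

namespace Pool.Agent.ZPL

/-- the degree of the norm -/
lemma n23_norm {k : Type*} [Field k] {m N : ℕ} {F f : k[X][X]} (hF : F.Monic)
    (hFw : Wt m (m * F.natDegree) F) (hf : Wt m N f) :
    (Algebra.norm k[X] (AdjoinRoot.mk F f)).natDegree ≤ F.natDegree * N := by
  classical
  rw [Algebra.norm_eq_matrix_det (AdjoinRoot.powerBasisAux' hF)]
  obtain ⟨L, hL⟩ : ∃ L, Algebra.leftMulMatrix (AdjoinRoot.powerBasisAux' hF) (AdjoinRoot.mk F f) = L := ⟨_, rfl⟩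
  have hent : ∀ i j : Fin F.natDegree, L i j ≠ 0 → (L i j).natDegree + m * i ≤ N + m * j := by
    intro i j h
    have h1 : L i j = ((f * X ^ (j : ℕ)) %ₘ F).coeff i := by
      rw [← hL, Algebra.leftMulMatrix_eq_repr_mul, AdjoinRoot.powerBasisAux'_repr_apply_to_fun]
      have h2 : (AdjoinRoot.powerBasisAux' hF) j = AdjoinRoot.mk F (X ^ (j : ℕ)) := by
        rw [map_pow, AdjoinRoot.mk_X]
        exact (AdjoinRoot.powerBasis' hF).basis_eq_pow j
      rw [h2, ← map_mul, AdjoinRoot.modByMonicHom_mk]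
    rw [h1] at h ⊢
    have h3 : Wt m (N + m * j) (f * X ^ (j : ℕ)) := hf.mul ((Wt.X' m).pow j)
    exact (Wt.modByMonic hF rfl hFw h3) i h
  rw [hL, Matrix.det_apply]
  refine natDegree_sum_le_of_forall_le _ _ fun σ _ => ?_
  refine (natDegree_smul_le _ _).trans ?_
  by_cases h0 : ∃ i, L (σ i) i = 0
  · obtain ⟨i, hi⟩ := h0
    have h1 : ∏ i, L (σ i) i = 0 := Finset.prod_eq_zero (Finset.mem_univ i) hi
    exact (congrArg natDegree h1).trans_le (natDegree_zero.trans_le (Nat.zero_le _))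
  · push Not at h0
    refine (natDegree_prod_le _ _).trans ?_
    have h1 : ∑ i, (L (σ i) i).natDegree + ∑ i, m * ((σ i : Fin F.natDegree) : ℕ) ≤
        ∑ i : Fin F.natDegree, N + ∑ i : Fin F.natDegree, m * (i : ℕ) := by
      rw [← Finset.sum_add_distrib, ← Finset.sum_add_distrib]
      exact Finset.sum_le_sum fun i _ => hent _ _ (h0 i)
    have h2 : ∑ i, m * ((σ i : Fin F.natDegree) : ℕ) = ∑ i : Fin F.natDegree, m * (i : ℕ) :=
      Equiv.sum_comp σ fun i : Fin F.natDegree => m * (i : ℕ)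
    rw [h2, Finset.sum_const, Finset.card_univ, Fintype.card_fin, smul_eq_mul] at h1
    exact Nat.le_of_add_le_add_right h1

/-- the polynomials which vanish to order `M` along an arc -/
noncomputable def J23 {k : Type*} [Field k] (M : ℕ) (x₀ : k) (η : k[X]) : Ideal k[X][X] :=
  (Ideal.span {(X ^ M : k[X])}).comap (tev x₀ η)

lemma n23_mem {k : Type*} [Field k] {M : ℕ} {x₀ : k} {η : k[X]} {g : k[X][X]} : g ∈ J23 M x₀ η ↔ X ^ M ∣ tev x₀ η g := by
  rw [J23, Ideal.mem_comap, Ideal.mem_span_singleton]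

lemma n23_tev_C {k : Type*} [Field k] (x₀ : k) (η a : k[X]) : tev x₀ η (C a) = a.comp (X + C x₀) := by
  simp [tev]

lemma n23_tev_X {k : Type*} [Field k] (x₀ : k) (η : k[X]) : tev x₀ η X = η := by
  simp [tev]

lemma n23_coprime {k : Type*} [Field k] (M : ℕ) {P P' : k × k} {η η' : k[X]} (hη : η.eval 0 = P.2)
    (hη' : η'.eval 0 = P'.2) (hne : P ≠ P') : IsCoprime (J23 M P.1 η) (J23 M P'.1 η') := by
  rw [Ideal.isCoprime_iff_sup_eq, Ideal.eq_top_iff_one]
  -- powers of the first coordinate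
  have hA : ∀ (x₀ : k) (η : k[X]), C ((X - C x₀) ^ M) ∈ J23 M x₀ η := by
    intro x₀ η
    rw [n23_mem, n23_tev_C]
    simp
  have key : ∀ w₁ w₂ : k[X], C w₁ ∈ J23 M P.1 η ⊔ J23 M P'.1 η' → C w₂ ∈ J23 M P.1 η ⊔ J23 M P'.1 η' → IsCoprime w₁ w₂ →
      (1 : k[X][X]) ∈ J23 M P.1 η ⊔ J23 M P'.1 η' := by
    rintro w₁ w₂ h1 h2 ⟨u, v, huv⟩
    have e : (1 : k[X][X]) = C u * C w₁ + C v * C w₂ := by
      rw [← C_mul, ← C_mul, ← C_add, huv, C_1]
    rw [e]
    exact Ideal.add_mem _ (Ideal.mul_mem_left _ _ h1) (Ideal.mul_mem_left _ _ h2)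
  by_cases hx : P.1 = P'.1
  · have hy : P.2 ≠ P'.2 := fun h => hne (Prod.ext hx h)
    refine key ((X - C P.1) ^ M) (η'.comp (X - C P.1) - η.comp (X - C P.1)) (Ideal.mem_sup_left (hA _ _)) ?_ ?_
    · have h1 : (X - C (η.comp (X - C P.1)) : k[X][X]) ∈ J23 M P.1 η := by
        rw [n23_mem, map_sub, n23_tev_X, n23_tev_C, comp_assoc]
        simp
      have h2 : (X - C (η'.comp (X - C P.1)) : k[X][X]) ∈ J23 M P'.1 η' := by
        rw [n23_mem, map_sub, n23_tev_X, n23_tev_C, comp_assoc, hx]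
        simp
      have e : (C (η'.comp (X - C P.1) - η.comp (X - C P.1)) : k[X][X]) =
          (X - C (η.comp (X - C P.1))) - (X - C (η'.comp (X - C P.1))) := by
        rw [C_sub]; ring
      rw [e]
      exact Ideal.sub_mem _ (Ideal.mem_sup_left h1) (Ideal.mem_sup_right h2)
    · apply IsCoprime.pow_left
      rw [(irreducible_X_sub_C P.1).coprime_iff_not_dvd, dvd_iff_isRoot]
      intro h
      rw [IsRoot.def, eval_sub, eval_comp, eval_comp] at h
      simp only [eval_sub, eval_X, eval_C, sub_self] at h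
      rw [hη, hη'] at h
      exact hy (sub_eq_zero.mp h).symm
  · refine key ((X - C P.1) ^ M) ((X - C P'.1) ^ M) (Ideal.mem_sup_left (hA _ _)) (Ideal.mem_sup_right (hA _ _)) ?_
    apply IsCoprime.pow
    exact isCoprime_X_sub_C_of_isUnit_sub (sub_ne_zero.mpr hx).isUnit

/-- the number of zeros of a polynomial on a plane curve, with multiplicities at least `M` -/
theorem zero_count {k : Type*} [Field k] {m D N M : ℕ} {F f : k[X][X]} (hF : F.Monic) (hD : F.natDegree = D)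
    (hFw : Wt m (m * D) F) (hirr : Irreducible F) (hf : Wt m N f) (hndvd : ¬ F ∣ f) (Z : Finset (k × k))
    (η : k × k → k[X]) (hη : ∀ P ∈ Z, (η P).eval 0 = P.2) (h1 : ∀ P ∈ Z, X ^ M ∣ tev P.1 (η P) F)
    (h2 : ∀ P ∈ Z, X ^ M ∣ tev P.1 (η P) f) : M * Z.card ≤ D * N := by
  classical
  subst hD
  have hprime : Prime F := hirr.prime
  have : IsDomain (AdjoinRoot F) := AdjoinRoot.isDomain_of_prime hprime
  have hf0 : AdjoinRoot.mk F f ≠ 0 := by rw [Ne, AdjoinRoot.mk_eq_zero]; exact hndvd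
  have hfr := finrank_quotient_span_eq_natDegree_norm (F := k) (AdjoinRoot.powerBasisAux' hF) hf0
  have hI : Ideal.span {AdjoinRoot.mk F f} ≠ ⊥ := by
    rw [Ne, Ideal.span_singleton_eq_bot]; exact hf0
  have hfin : Module.Finite k (AdjoinRoot F ⧸ Ideal.span {AdjoinRoot.mk F f}) :=
    Module.Finite.equiv (Ideal.quotientEquivDirectSum k (AdjoinRoot.powerBasisAux' hF) hI).symm
  refine le_trans ?_ (hfr.le.trans (n23_norm hF hFw hf))
  -- the evaluation along the arcs
  have hz1 : ∀ P : Z, F.eval₂ ((Ideal.Quotient.mk (Ideal.span {(X ^ M : k[X])})).comp (compRingHom (X + C P.1.1)))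
      (Ideal.Quotient.mk (Ideal.span {(X ^ M : k[X])}) (η P.1)) = 0 := by
    intro P
    rw [← hom_eval₂]
    exact Ideal.Quotient.eq_zero_iff_mem.mpr (Ideal.mem_span_singleton.mpr (h1 P.1 P.2))
  obtain ⟨φ, hφ⟩ : ∃ φ : ∀ P : Z, AdjoinRoot F →+* k[X] ⧸ Ideal.span {(X ^ M : k[X])}, ∀ P g,
      φ P (AdjoinRoot.mk F g) = Ideal.Quotient.mk _ (tev P.1.1 (η P.1) g) := by
    refine ⟨fun P => AdjoinRoot.lift _ _ (hz1 P), fun P g => ?_⟩
    rw [AdjoinRoot.lift_mk, ← hom_eval₂]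
    rfl
  have hφf : ∀ P : Z, ∀ g ∈ Ideal.span {AdjoinRoot.mk F f}, φ P g = 0 := by
    intro P g hg
    obtain ⟨a, rfl⟩ := Ideal.mem_span_singleton.mp hg
    rw [map_mul, hφ, Ideal.Quotient.eq_zero_iff_mem.mpr (Ideal.mem_span_singleton.mpr (h2 P.1 P.2)), zero_mul]
  obtain ⟨ψ, hψ⟩ : ∃ ψ : (AdjoinRoot F ⧸ Ideal.span {AdjoinRoot.mk F f}) →ₗ[k] (Z → k[X] ⧸ Ideal.span {(X ^ M : k[X])}),
      ∀ g P, ψ (Ideal.Quotient.mk _ (AdjoinRoot.mk F g)) P = Ideal.Quotient.mk _ (tev P.1.1 (η P.1) g) := by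
    refine ⟨{ toFun := fun g P => Ideal.Quotient.lift _ (φ P) (hφf P) g
              map_add' := fun a b => by funext P; rw [map_add]; rfl
              map_smul' := fun c a => ?_ }, fun g P => ?_⟩
    · funext P
      obtain ⟨a, rfl⟩ := Ideal.Quotient.mk_surjective a
      obtain ⟨a, rfl⟩ := AdjoinRoot.mk_surjective a
      have e : c • (Ideal.Quotient.mk (Ideal.span {AdjoinRoot.mk F f}) (AdjoinRoot.mk F a)) =
          Ideal.Quotient.mk (Ideal.span {AdjoinRoot.mk F f}) (AdjoinRoot.mk F (C (C c) * a)) := by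
        rw [Algebra.smul_def, map_mul, map_mul]
        rfl
      rw [e, Ideal.Quotient.lift_mk, hφ, map_mul, n23_tev_C, C_comp, RingHom.id_apply, Pi.smul_apply,
        Ideal.Quotient.lift_mk, hφ, ← smul_eq_C_mul]
      rfl
    · exact (Ideal.Quotient.lift_mk (Ideal.span {AdjoinRoot.mk F f}) (φ P) (hφf P)).trans (hφ P g)
  have hsurj : Function.Surjective ψ := by
    intro y
    have hco : Pairwise (Function.onFun IsCoprime fun P : Z => J23 M P.1.1 (η P.1)) := by
      intro P P' hne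
      exact n23_coprime M (hη P.1 P.2) (hη P'.1 P'.2) fun h => hne (Subtype.ext h)
    choose u hu using fun P : Z => Ideal.Quotient.mk_surjective (y P)
    obtain ⟨g, hg⟩ := Ideal.pi_quotient_surjective hco fun P : Z => Ideal.Quotient.mk _ (C ((u P).comp (X - C P.1.1)))
    refine ⟨Ideal.Quotient.mk _ (AdjoinRoot.mk F g), ?_⟩
    funext P
    rw [hψ, ← hu P, Ideal.Quotient.eq, Ideal.mem_span_singleton]
    have h3 := Ideal.Quotient.eq.mp (hg P)
    rw [n23_mem, map_sub, n23_tev_C, comp_assoc] at h3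
    simpa using h3
  have h5 := LinearMap.finrank_le_finrank_of_surjective hsurj
  have hfin2 : Module.Finite k (k[X] ⧸ Ideal.span {(X ^ M : k[X])}) :=
    (AdjoinRoot.powerBasis (pow_ne_zero M (X_ne_zero (R := k)))).finite
  refine le_trans (le_of_eq ?_) h5
  rw [Module.finrank_pi_fintype, Finset.sum_const, Finset.card_univ, Fintype.card_coe, finrank_quotient_span_eq_natDegree,
    natDegree_X_pow, smul_eq_mul, mul_comm]

end Pool.Agent.ZPL
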