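import Mathlib
import Pool.Agent.ZPL.BivLem

open Polynomial

namespace Pool.Agent.ZPL

lemma tev_eq_eval {k : Type*} [Field k] (x₀ : k) (η : k[X]) (f : k[X][X]) :
    tev x₀ η f = (f.map (compRingHom (X + C x₀))).eval η := by
  unfold tev
  rw [coe_eval₂RingHom, eval₂_eq_eval_map]

lemma tev_eval_zero {k : Type*} [Field k] (x₀ : k) (η : k[X]) (f : k[X][X]) :
    (tev x₀ η f).eval 0 = f.evalEval x₀ (η.eval 0) := by
  induction f using Polynomial.induction_on' with
  | add p q hp hq => rw [map_add, eval_add, hp, hq, evalEval_add]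
  | monomial n a =>
    rw [← C_mul_X_pow_eq_monomial, map_mul, map_pow, evalEval_mul, evalEval_pow, evalEval_C,
      evalEval_X]
    simp [tev]

lemma tev_X {k : Type*} [Field k] (x₀ : k) (η : k[X]) : tev x₀ η X = η := by
  simp [tev]

lemma tev_C {k : Type*} [Field k] (x₀ : k) (η : k[X]) (a : k[X]) :
    tev x₀ η (C a) = a.comp (X + C x₀) := by
  simp [tev]

lemma X_dvd_iff_eval {k : Type*} [Field k] (v : k[X]) : X ∣ v ↔ v.eval 0 = 0 := by
  rw [X_dvd_iff, coeff_zero_eq_eval_zero]

/-- the arc through a smooth point of a plane curve -/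
theorem exists_eta {k : Type*} [Field k] (F : k[X][X]) {x₀ y₀ : k} (h0 : F.evalEval x₀ y₀ = 0)
    (h1 : (derivative F).evalEval x₀ y₀ ≠ 0) (M : ℕ) : ∃ η : k[X], η.eval 0 = y₀ ∧ X ^ M ∣ tev x₀ η F := by
  induction M with
  | zero => exact ⟨C y₀, by simp, by simp⟩
  | succ M ih =>
    rcases Nat.eq_zero_or_pos M with hM | hM
    · subst hM
      refine ⟨C y₀, by simp, ?_⟩
      rw [zero_add, pow_one, X_dvd_iff_eval, tev_eval_zero]
      simpa using h0
    · obtain ⟨η, hη, s, hs⟩ := ih
      set c : k := - s.eval 0 / (derivative F).evalEval x₀ y₀ with hc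
      refine ⟨η + C c * X ^ M, ?_, ?_⟩
      · rw [eval_add, eval_mul, eval_pow, eval_X, zero_pow hM.ne', mul_zero, add_zero, hη]
      · obtain ⟨r, hr⟩ := Polynomial.binomExpansion (F.map (compRingHom (X + C x₀))) η (C c * X ^ M)
        rw [← tev_eq_eval, ← tev_eq_eval, hs, derivative_map, ← tev_eq_eval] at hr
        have h2 : tev x₀ (η + C c * X ^ M) F =
            X ^ M * (s + tev x₀ η (derivative F) * C c + r * C c ^ 2 * X ^ M) := by
          rw [hr]
          ring
        rw [h2, pow_succ]
        apply mul_dvd_mul_left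
        rw [X_dvd_iff_eval, eval_add, eval_add, eval_mul, eval_mul, eval_C, tev_eval_zero, hη,
          eval_pow, eval_X, zero_pow hM.ne', mul_zero, add_zero, hc]
        field_simp
        ring

lemma derivative_tev {k : Type*} [Field k] (x₀ : k) (η : k[X]) (f : k[X][X]) :
    derivative (tev x₀ η f) = tev x₀ η (dX f) + derivative η * tev x₀ η (derivative f) := by
  induction f using Polynomial.induction_on with
  | C a =>
    rw [tev_C, dX_C, tev_C, derivative_C, map_zero, mul_zero, add_zero, derivative_comp]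
    simp
  | add p q hp hq =>
    rw [map_add, derivative_add, hp, hq, dX_add, map_add, derivative_add, map_add]
    ring
  | monomial n a ih =>
    have h2 : (C a * X ^ (n + 1) : k[X][X]) = C a * X ^ n * X := by ring
    rw [h2]
    generalize (C a * X ^ n : k[X][X]) = g at ih ⊢
    rw [map_mul, tev_X, derivative_mul, ih, dX_mul, dX_X, mul_zero, add_zero,
      derivative_mul (f := g) (g := X), derivative_X, mul_one, map_mul, map_add, map_mul, tev_X]
    ring

/-- the order of vanishing along the arc, from the values of the iterated derivatives -/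
theorem tev_vanish {p : ℕ} [Fact p.Prime] {k : Type*} [Field k] [CharP k p] {F f : k[X][X]} {x₀ y₀ : k}
    (h1 : (derivative F).evalEval x₀ y₀ ≠ 0) {M : ℕ} (hM : M ≤ p) {η : k[X]} (hη0 : η.eval 0 = y₀)
    (hη : X ^ M ∣ tev x₀ η F) (h : ∀ l < M, ((delta F)^[l] f).evalEval x₀ y₀ = 0) : X ^ M ∣ tev x₀ η f := by
  -- exact order of vanishing
  have key : ∀ s, ∀ f : k[X][X], s < M → X ^ s ∣ tev x₀ η f → ¬ X ^ (s + 1) ∣ tev x₀ η f →
      ((delta F)^[s] f).evalEval x₀ y₀ ≠ 0 := by
    intro s
    induction s with
    | zero =>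
      intro f _ _ h3
      rw [zero_add, pow_one, X_dvd_iff_eval, tev_eval_zero, hη0] at h3
      exact h3
    | succ s ih =>
      intro f hs h2 h3
      obtain ⟨g, hg⟩ := h2
      have hg0 : g.eval 0 ≠ 0 := by
        intro h4
        apply h3
        obtain ⟨g', hg'⟩ := (X_dvd_iff_eval g).2 h4
        exact ⟨g', by rw [hg, hg', pow_succ (X : k[X]) (s + 1)]; ring⟩
      obtain ⟨e, he⟩ := hη
      have hd : derivative (tev x₀ η F) = X ^ (M - 1) * (C (M : k) * e + X * derivative e) := by
        have hM1 : M = M - 1 + 1 := by omega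
        rw [he, derivative_mul, derivative_X_pow]
        have : (X : k[X]) ^ M = X ^ (M - 1) * X := by
          conv_lhs => rw [hM1]
          rw [pow_succ]
        rw [this]
        ring
      rw [derivative_tev] at hd
      have h5 : tev x₀ η (delta F f) = tev x₀ η (derivative F) * derivative (tev x₀ η f) -
          tev x₀ η (derivative f) * (X ^ (M - 1) * (C (M : k) * e + X * derivative e)) := by
        rw [← hd, derivative_tev, delta, map_sub, map_mul, map_mul]
        ring
      have h6 : (X : k[X]) ^ (M - 1) = X ^ s * (X * X ^ (M - 2 - s)) := by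
        rw [← mul_assoc, ← pow_succ, ← pow_add]
        congr 1
        omega
      have h7 : tev x₀ η (delta F f) = X ^ s * (tev x₀ η (derivative F) *
          (C ((s + 1 : ℕ) : k) * g + X * derivative g) -
          X * (tev x₀ η (derivative f) * X ^ (M - 2 - s) * (C (M : k) * e + X * derivative e))) := by
        rw [h5, h6, hg, derivative_mul, derivative_X_pow, Nat.add_sub_cancel]
        ring
      rw [Function.iterate_succ_apply]
      apply ih (delta F f) (by omega) ⟨_, h7⟩
      intro h8
      rw [h7, pow_succ] at h8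
      have h9 := (mul_dvd_mul_iff_left (pow_ne_zero s (X_ne_zero (R := k)))).1 h8
      rw [X_dvd_iff_eval, eval_sub, eval_mul, eval_mul, eval_add, eval_mul, eval_mul, eval_C,
        eval_X, zero_mul, zero_mul, add_zero, sub_zero, tev_eval_zero, hη0] at h9
      rcases mul_eq_zero.1 h9 with h10 | h10
      · exact h1 h10
      · rcases mul_eq_zero.1 h10 with h11 | h11
        · rw [CharP.cast_eq_zero_iff k p] at h11
          have := Nat.le_of_dvd (Nat.succ_pos s) h11
          omega
        · exact hg0 h11
  by_contra hcon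
  have hM0 : M ≠ 0 := by
    rintro rfl
    exact hcon (by simp)
  classical
  have hex : ∃ s, ¬ X ^ (s + 1) ∣ tev x₀ η f := ⟨M - 1, by
    rwa [Nat.sub_add_cancel (Nat.one_le_iff_ne_zero.2 hM0)]⟩
  have hle : Nat.find hex ≤ M - 1 := Nat.find_min' hex (by
    rwa [Nat.sub_add_cancel (Nat.one_le_iff_ne_zero.2 hM0)])
  have hlt : Nat.find hex < M := by omega
  have hdvd : X ^ Nat.find hex ∣ tev x₀ η f := by
    rcases Nat.eq_zero_or_pos (Nat.find hex) with h2 | h2
    · rw [h2, pow_zero]
      exact one_dvd _
    · have h3 := Nat.find_min hex (m := Nat.find hex - 1) (by omega)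
      rw [not_not, Nat.sub_add_cancel h2] at h3
      exact h3
  exact key _ f hlt hdvd (Nat.find_spec hex) (h _ hlt)

end Pool.Agent.ZPL
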