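import Mathlib
import Pool.Agent.ZPL.Norm
import Pool.Agent.ZPL.Taylor

open Polynomial

namespace Pool.Agent.ZPL

/-- the constant term of the expansion along an arc -/
lemma eval_tev {k : Type*} [CommRing k] (x₀ : k) (η : k[X]) (f : k[X][X]) :
    (tev x₀ η f).eval 0 = f.evalEval x₀ (η.eval 0) := by
  have h : (evalRingHom (0 : k)).comp (tev x₀ η) = evalEvalRingHom x₀ (η.eval 0) := by
    apply Polynomial.ringHom_ext'
    · apply Polynomial.ringHom_ext'
      · ext a
        simp [tev]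
      · simp [tev]
    · simp [tev]
  have := congrArg (fun g : k[X][X] →+* k => g f) h
  simpa using this

/-- a polynomial which is not divisible by `F` does not vanish on the whole curve `F = 0` -/
lemma exists_point {k : Type*} [Field k] [IsAlgClosed k] {m D N : ℕ} {F f : k[X][X]} (hF : F.Monic)
    (hD : F.natDegree = D) (hD0 : 0 < D) (hw : Wt m (m * D) F) (hirr : Irreducible F) (hf : Wt m N f)
    (hnd : ¬ F ∣ f) : ∃ x₀ y₀ : k, F.evalEval x₀ y₀ = 0 ∧ f.evalEval x₀ y₀ ≠ 0 := by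
  classical
  by_contra hcon
  push Not at hcon
  have hroot : ∀ x₀ : k, ∃ y₀ : k, F.evalEval x₀ y₀ = 0 := by
    intro x₀
    have hm : (F.map (evalRingHom x₀)).Monic := hF.map _
    have hdeg : (F.map (evalRingHom x₀)).natDegree = D := by rw [hF.natDegree_map, hD]
    have hne : (F.map (evalRingHom x₀)).degree ≠ 0 := by
      intro h
      have := natDegree_eq_of_degree_eq_some (n := 0) (by simpa using h)
      omega
    obtain ⟨y, hy⟩ := IsAlgClosed.exists_root _ hne
    refine ⟨y, ?_⟩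
    rw [IsRoot.def, eval_map] at hy
    rw [← eval₂_evalRingHom]
    exact hy
  choose y hy using hroot
  obtain ⟨S, hS⟩ := Infinite.exists_subset_card_eq k (D * N + 1)
  set Z : Finset (k × k) := S.image fun x => (x, y x) with hZ
  have hZc : Z.card = D * N + 1 := by
    rw [hZ, Finset.card_image_of_injective _ (fun a b h => (Prod.ext_iff.mp h).1), hS]
  have hX : ∀ P ∈ Z, ∀ g : k[X][X], g.evalEval P.1 P.2 = 0 → X ^ 1 ∣ tev P.1 (C P.2) g := by
    intro P _ g hg
    rw [pow_one, X_dvd_iff, coeff_zero_eq_eval_zero, eval_tev, eval_C]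
    exact hg
  have hPF : ∀ P ∈ Z, F.evalEval P.1 P.2 = 0 := by
    intro P hP
    rw [hZ, Finset.mem_image] at hP
    obtain ⟨x, _, rfl⟩ := hP
    exact hy x
  have := zero_count (M := 1) hF hD hw hirr hf hnd Z (fun P => C P.2) (fun P _ => eval_C)
    (fun P hP => hX P hP F (hPF P hP)) (fun P hP => hX P hP f (hcon _ _ (hPF P hP)))
  omega

/-- the auxiliary polynomial does not vanish on the curve -/
theorem aux_ne {p : ℕ} [Fact p.Prime] {k : Type*} [Field k] [IsAlgClosed k] [CharP k p] {m D N N' : ℕ}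
    {F : k[X][X]} (hF : F.Monic) (hD : F.natDegree = D) (hDp : D < p) (hw : Wt m (m * D) F)
    (hirr : Irreducible F) (u : ℕ × ℕ → k[X][X]) (hu : ∀ s, Wt m N (u s) ∧ (u s).natDegree < D)
    (hN : D * N < p) (hne : ∃ s ∈ Lam m D N', u s ≠ 0) :
    ¬ F ∣ ∑ s ∈ Lam m D N', u s * C X ^ (p * s.1) * X ^ (p * s.2) := by
  classical
  have hp : p.Prime := Fact.out
  obtain ⟨s₀, hs₀, hus₀⟩ := hne
  have hD0 : 0 < D := lt_of_le_of_lt (Nat.zero_le _) (hu s₀).2
  have : CharP k[X] p := inferInstance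
  have : CharP k[X][X] p := inferInstance
  -- the derivative
  have hFY0 : derivative F ≠ 0 := by
    intro h
    have h1 : (derivative F).coeff (D - 1) = 0 := by rw [h, coeff_zero]
    rw [coeff_derivative, Nat.sub_add_cancel hD0, ← hD, hF.coeff_natDegree, one_mul, hD] at h1
    have h2 : ((D : ℕ) : k[X]) = 0 := by
      have : ((D - 1 : ℕ) : k[X]) + 1 = ((D : ℕ) : k[X]) := by
        rw [← Nat.cast_succ]; congr 1; omega
      rw [← this]; exact h1
    rw [CharP.cast_eq_zero_iff k[X] p] at h2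
    exact absurd (Nat.le_of_dvd hD0 h2) (by omega)
  have hFYdeg : (derivative F).natDegree < F.natDegree := natDegree_derivative_lt (by omega)
  have hFYnd : ¬ F ∣ derivative F := hF.not_dvd_of_natDegree_lt hFY0 hFYdeg
  have hFYw : Wt m (m * D) (derivative F) := by
    intro b hb
    rw [coeff_derivative] at hb ⊢
    have hb' : F.coeff (b + 1) ≠ 0 := left_ne_zero_of_mul hb
    have h1 := hw (b + 1) hb'
    have h2 : (F.coeff (b + 1) * ((b : k[X]) + 1)).natDegree ≤ (F.coeff (b + 1)).natDegree := by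
      have : ((b : k[X]) + 1) = C ((b : k) + 1) := by simp
      rw [this]
      exact natDegree_mul_C_le _ _
    have h3 : m * b ≤ m * (b + 1) := Nat.mul_le_mul_left _ (Nat.le_succ _)
    omega
  -- a nonzero coefficient
  obtain ⟨b, hb⟩ : ∃ b, (u s₀).coeff b ≠ 0 := by
    by_contra h
    push Not at h
    exact hus₀ (Polynomial.ext fun n => by rw [h n, coeff_zero])
  obtain ⟨a, ha⟩ : ∃ a, ((u s₀).coeff b).coeff a ≠ 0 := by
    by_contra h
    push Not at h
    exact hb (Polynomial.ext fun n => by rw [h n, coeff_zero])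
  have hd : ∀ s, ∃ d : k, d ^ p = ((u s).coeff b).coeff a := fun s =>
    IsAlgClosed.exists_pow_nat_eq _ hp.pos
  choose d hd using hd
  have hds₀ : d s₀ ≠ 0 := by
    intro h
    apply ha
    rw [← hd, h, zero_pow hp.ne_zero]
  set G : k[X][X] := ∑ s ∈ Lam m D N', C (C (d s) * X ^ s.1) * X ^ s.2 with hG
  have hGcoeff : (G.coeff s₀.2).coeff s₀.1 = d s₀ := by
    rw [hG, finsetSum_coeff, finsetSum_coeff, Finset.sum_eq_single s₀]
    · rw [coeff_C_mul, coeff_X_pow, if_pos rfl, mul_one, coeff_C_mul, coeff_X_pow, if_pos rfl, mul_one]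
    · intro s _ hs
      rw [coeff_C_mul, coeff_X_pow]
      split_ifs with h
      · rw [mul_one, coeff_C_mul, coeff_X_pow, if_neg, mul_zero]
        intro h'
        exact hs (Prod.ext h'.symm h.symm)
      · rw [mul_zero, coeff_zero]
    · intro h
      exact absurd hs₀ h
  have hG0 : G ≠ 0 := by
    intro h
    rw [h, coeff_zero, coeff_zero] at hGcoeff
    exact hds₀ hGcoeff.symm
  have hGdeg : G.natDegree < D := by
    have : G.natDegree ≤ D - 1 := by
      rw [hG]
      apply natDegree_sum_le_of_forall_le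
      intro s hs
      have hs2 : s.2 < D := by
        rw [Lam, Finset.mem_filter, Finset.mem_product, Finset.mem_range, Finset.mem_range] at hs
        exact hs.1.2
      exact (natDegree_C_mul_X_pow_le _ _).trans (by omega)
    omega
  have hGw : Wt m N' G := by
    rw [hG]
    apply Wt.sum
    intro s hs
    rw [Lam, Finset.mem_filter, Finset.mem_product, Finset.mem_range, Finset.mem_range] at hs
    have h1 : Wt m s.1 (C (C (d s) * X ^ s.1) : k[X][X]) := Wt.C' m (natDegree_C_mul_X_pow_le _ _)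
    have h2 : Wt m (m * s.2) ((X : k[X][X]) ^ s.2) := (Wt.X' m).pow s.2
    exact (h1.mul h2).mono hs.2
  have hGnd : ¬ F ∣ G := hF.not_dvd_of_natDegree_lt hG0 (by rw [hD]; exact hGdeg)
  have hprime : Prime F := hirr.prime
  have hfnd : ¬ F ∣ G * derivative F := by
    intro h
    rcases hprime.dvd_or_dvd h with h | h
    · exact hGnd h
    · exact hFYnd h
  obtain ⟨x₀, y₀, hP0, hP1⟩ := exists_point hF hD hD0 hw hirr (hGw.mul hFYw) hfnd
  rw [evalEval_mul] at hP1
  have hPG : G.evalEval x₀ y₀ ≠ 0 := left_ne_zero_of_mul hP1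
  have hPY : (derivative F).evalEval x₀ y₀ ≠ 0 := right_ne_zero_of_mul hP1
  -- the specialised polynomial
  set U : k[X][X] := ∑ s ∈ Lam m D N', C (C ((x₀ ^ s.1 * y₀ ^ s.2) ^ p)) * u s with hU
  have hU0 : U ≠ 0 := by
    intro h
    have h1 : (U.coeff b).coeff a = 0 := by rw [h, coeff_zero, coeff_zero]
    apply hPG
    have h2 : (G.evalEval x₀ y₀) ^ p = (U.coeff b).coeff a := by
      have h3 : G.evalEval x₀ y₀ = ∑ s ∈ Lam m D N', d s * (x₀ ^ s.1 * y₀ ^ s.2) := by
        rw [hG, ← coe_evalEvalRingHom, map_sum]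
        refine Finset.sum_congr rfl fun s _ => ?_
        rw [coe_evalEvalRingHom, evalEval_mul, evalEval_pow, evalEval_C, evalEval_X, eval_mul, eval_C,
          eval_pow, eval_X, mul_assoc]
      rw [h3, sum_pow_char, hU, finsetSum_coeff, finsetSum_coeff]
      refine Finset.sum_congr rfl fun s _ => ?_
      rw [coeff_C_mul, coeff_C_mul, ← hd s, ← mul_pow, mul_comm]
    rw [h1] at h2
    exact pow_eq_zero_iff hp.ne_zero |>.mp h2
  have hUdeg : U.natDegree < D := by
    have : U.natDegree ≤ D - 1 := by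
      rw [hU]
      apply natDegree_sum_le_of_forall_le
      intro s _
      have := (hu s).2
      exact (natDegree_C_mul_le _ _).trans (by omega)
    omega
  have hUw : Wt m N U := by
    rw [hU]
    apply Wt.sum
    intro s _
    have h1 : Wt m 0 (C (C ((x₀ ^ s.1 * y₀ ^ s.2) ^ p)) : k[X][X]) := Wt.C' m (by rw [natDegree_C])
    exact (h1.mul (hu s).1).mono (by omega)
  have hUnd : ¬ F ∣ U := hF.not_dvd_of_natDegree_lt hU0 (by rw [hD]; exact hUdeg)
  intro hdvd
  obtain ⟨η, hη0, hη⟩ := exists_eta F hP0 hPY p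
  have hA : X ^ p ∣ tev x₀ η (∑ s ∈ Lam m D N', u s * C X ^ (p * s.1) * X ^ (p * s.2)) :=
    dvd_trans hη (map_dvd (tev x₀ η) hdvd)
  have hdiff : X ^ p ∣ tev x₀ η (∑ s ∈ Lam m D N', u s * C X ^ (p * s.1) * X ^ (p * s.2)) - tev x₀ η U := by
    rw [hU, map_sum, map_sum, ← Finset.sum_sub_distrib]
    apply Finset.dvd_sum
    intro s _
    have h1 : tev x₀ η (u s * C X ^ (p * s.1) * X ^ (p * s.2)) =
        tev x₀ η (u s) * (tev x₀ η (C X ^ s.1 * X ^ s.2)) ^ p := by
      rw [mul_assoc, map_mul, ← map_pow (tev x₀ η), mul_pow, ← pow_mul, ← pow_mul, mul_comm s.1 p,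
        mul_comm s.2 p]
    have h2 : tev x₀ η (C (C ((x₀ ^ s.1 * y₀ ^ s.2) ^ p)) * u s) =
        tev x₀ η (u s) * (C (x₀ ^ s.1 * y₀ ^ s.2)) ^ p := by
      have h3 : tev x₀ η (C (C ((x₀ ^ s.1 * y₀ ^ s.2) ^ p))) = C ((x₀ ^ s.1 * y₀ ^ s.2) ^ p) := by
        rw [tev, coe_eval₂RingHom, eval₂_C]
        exact C_comp
      rw [map_mul, mul_comm, h3, C_pow]
    have h4 : (X : k[X]) ∣ tev x₀ η (C X ^ s.1 * X ^ s.2) - C (x₀ ^ s.1 * y₀ ^ s.2) := by
      rw [X_dvd_iff, coeff_zero_eq_eval_zero, eval_sub, eval_C, eval_tev, hη0, sub_eq_zero, evalEval_mul,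
        evalEval_pow, evalEval_pow, evalEval_C, evalEval_X, eval_X]
    have h5 : (tev x₀ η (C X ^ s.1 * X ^ s.2) - C (x₀ ^ s.1 * y₀ ^ s.2)) ^ p =
        (tev x₀ η (C X ^ s.1 * X ^ s.2)) ^ p - (C (x₀ ^ s.1 * y₀ ^ s.2)) ^ p :=
      sub_pow_char _ _
    rw [h1, h2, ← mul_sub, ← h5]
    exact Dvd.dvd.mul_left (pow_dvd_pow_of_dvd h4 p) _
  have hXU : X ^ p ∣ tev x₀ η U := by
    obtain ⟨c₁, hc₁⟩ := hA
    obtain ⟨c₂, hc₂⟩ := hdiff
    exact ⟨c₁ - c₂, by rw [mul_sub, ← hc₁, ← hc₂, sub_sub_cancel]⟩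
  have hP2 : ∀ P ∈ ({(x₀, y₀)} : Finset (k × k)), (fun _ : k × k => η) P = η ∧ P = (x₀, y₀) :=
    fun P hP => ⟨rfl, Finset.mem_singleton.mp hP⟩
  have hq1 : ∀ P ∈ ({(x₀, y₀)} : Finset (k × k)), ((fun _ : k × k => η) P).eval 0 = P.2 := by
    intro P hP
    rw [(hP2 P hP).2]
    exact hη0
  have hq2 : ∀ P ∈ ({(x₀, y₀)} : Finset (k × k)), X ^ p ∣ tev P.1 ((fun _ : k × k => η) P) F := by
    intro P hP
    rw [(hP2 P hP).2]
    exact hη
  have hq3 : ∀ P ∈ ({(x₀, y₀)} : Finset (k × k)), X ^ p ∣ tev P.1 ((fun _ : k × k => η) P) U := by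
    intro P hP
    rw [(hP2 P hP).2]
    exact hXU
  have hfin := zero_count (M := p) hF hD hw hirr hUw hUnd {(x₀, y₀)} (fun _ => η) hq1 hq2 hq3
  rw [Finset.card_singleton, mul_one] at hfin
  omega

end Pool.Agent.ZPL
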