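import Mathlib
import Pool.Agent.ZPL.BivLem

open Polynomial

namespace Pool.Agent.ZPL

/-- a polynomial with given coefficients -/
noncomputable def auxEmb {k : Type*} [Field k] (D A : ℕ) (v : Fin D × Fin A → k) : k[X][X] :=
  ∑ b : Fin D, C (∑ a : Fin A, C (v (b, a)) * X ^ (a : ℕ)) * X ^ (b : ℕ)

lemma auxEmb_add {k : Type*} [Field k] (D A : ℕ) (v v' : Fin D × Fin A → k) :
    auxEmb D A (v + v') = auxEmb D A v + auxEmb D A v' := by
  simp only [auxEmb, Pi.add_apply, C_add, add_mul, Finset.sum_add_distrib]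

lemma auxEmb_smul {k : Type*} [Field k] (D A : ℕ) (c : k) (v : Fin D × Fin A → k) :
    auxEmb D A (c • v) = C (C c) * auxEmb D A v := by
  simp only [auxEmb, Pi.smul_apply, smul_eq_mul, C_mul, Finset.mul_sum]
  refine Finset.sum_congr rfl fun b _ => ?_
  rw [← mul_assoc, ← C_mul, Finset.mul_sum]
  congr 2
  refine Finset.sum_congr rfl fun a _ => ?_
  ring

lemma auxEmb_coeff {k : Type*} [Field k] (D A : ℕ) (v : Fin D × Fin A → k) (b : Fin D) :
    (auxEmb D A v).coeff b = ∑ a : Fin A, C (v (b, a)) * X ^ (a : ℕ) := by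
  simp only [auxEmb, finsetSum_coeff, coeff_C_mul_X_pow]
  rw [Finset.sum_eq_single b]
  · simp
  · intro b' _ hb'
    rw [if_neg]
    intro h
    exact hb' (Fin.ext h.symm)
  · simp

lemma auxEmb_coeff_coeff {k : Type*} [Field k] (D A : ℕ) (v : Fin D × Fin A → k) (b : Fin D)
    (a : Fin A) : ((auxEmb D A v).coeff b).coeff a = v (b, a) := by
  rw [auxEmb_coeff]
  simp only [finsetSum_coeff, coeff_C_mul_X_pow]
  rw [Finset.sum_eq_single a]
  · simp
  · intro b' _ hb'
    rw [if_neg]
    intro h
    exact hb' (Fin.ext h.symm)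
  · simp

lemma auxEmb_coeff_ge {k : Type*} [Field k] (D A : ℕ) (v : Fin D × Fin A → k) {b : ℕ} (hb : D ≤ b) :
    (auxEmb D A v).coeff b = 0 := by
  simp only [auxEmb, finsetSum_coeff, coeff_C_mul_X_pow]
  refine Finset.sum_eq_zero fun b' _ => ?_
  rw [if_neg]
  have := b'.2
  omega

lemma auxEmb_natDegree {k : Type*} [Field k] {D : ℕ} (hD : 0 < D) (A : ℕ)
    (v : Fin D × Fin A → k) : (auxEmb D A v).natDegree < D := by
  have h : (auxEmb D A v).natDegree ≤ D - 1 := by
    rw [natDegree_le_iff_coeff_eq_zero]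
    intro b hb
    exact auxEmb_coeff_ge D A v (by omega)
  omega

lemma auxEmb_wt {k : Type*} [Field k] {D A m N : ℕ} (hA : A + m * D ≤ N + 1)
    (v : Fin D × Fin A → k) : Wt m N (auxEmb D A v) := by
  intro b hb
  have hbD : b < D := by
    by_contra hcon
    exact hb (auxEmb_coeff_ge D A v (by omega))
  have h1 := auxEmb_coeff D A v ⟨b, hbD⟩
  have h2 : ((auxEmb D A v).coeff b).natDegree ≤ A - 1 := by
    simp only at h1
    rw [h1]
    apply natDegree_sum_le_of_forall_le
    intro a _
    refine (natDegree_C_mul_X_pow_le _ _).trans ?_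
    have := a.2
    omega
  have hA0 : 0 < A := by
    rcases Nat.eq_zero_or_pos A with h0 | h0
    · exfalso
      apply hb
      simp only at h1
      rw [h1]
      subst h0
      simp
    · exact h0
  have h3 : m * b ≤ m * D := Nat.mul_le_mul_left m hbD.le
  omega

/-- the auxiliary polynomials, by linear algebra -/
theorem exists_aux (D m w M' : ℕ) (hD : 0 < D) : ∃ P₀ : ℕ, ∀ (p : ℕ), P₀ ≤ p → ∀ (k : Type) [Field k]
    (F : k[X][X]), F.Monic → F.natDegree = D → Wt m (m * D) F → ∀ (q : k[X]) (α : k[X][X]),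
    q.natDegree ≤ w → Wt m w α → ∃ u : ℕ × ℕ → k[X][X],
      (∃ s ∈ Lam m D (M' + m * (D - 1)), u s ≠ 0) ∧
      (∀ s, Wt m ((p - 1) / D) (u s) ∧ (u s).natDegree < D) ∧
      ∀ l < D * M', F ∣ ∑ s ∈ Lam m D (M' + m * (D - 1)),
        (delta F)^[l] (u s) * C X ^ s.1 * α ^ s.2 * C q ^ (D - 1 - s.2) := by
  classical
  set M := D * M' with hM
  set N' := M' + m * (D - 1) with hN'
  set B := M * (m * D) + N' + w * D with hB
  refine ⟨D * ((M + 1) * (m * D) + M * B) + 1, fun p hp k _ F hF hFD hFw q α hq hα => ?_⟩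
  set N := (p - 1) / D with hN
  set A := N + 1 - m * D with hA
  have hN1 : (M + 1) * (m * D) + M * B < N + 1 := by
    by_contra hcon
    push Not at hcon
    have h1 : p - 1 < D * (N + 1) := by
      rw [hN]
      exact Nat.lt_mul_div_succ (p - 1) hD
    have h2 : D * (N + 1) ≤ D * ((M + 1) * (m * D) + M * B) := Nat.mul_le_mul_left D hcon
    omega
  have hmD : m * D ≤ (M + 1) * (m * D) := Nat.le_mul_of_pos_left _ (Nat.succ_pos M)
  have hA1 : A + m * D = N + 1 := by omega
  let T : ℕ → ({s // s ∈ Lam m D N'} × Fin D × Fin A → k) → k[X][X] := fun l v =>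
    ∑ s : {s // s ∈ Lam m D N'}, (delta F)^[l] (auxEmb D A fun x => v (s, x)) *
      C X ^ s.1.1 * α ^ s.1.2 * C q ^ (D - 1 - s.1.2)
  have hTadd : ∀ l v v', T l (v + v') = T l v + T l v' := by
    intro l v v'
    simp only [T]
    rw [← Finset.sum_add_distrib]
    refine Finset.sum_congr rfl fun s _ => ?_
    have h1 : (fun x => (v + v') (s, x)) = (fun x => v (s, x)) + fun x => v' (s, x) := rfl
    rw [h1, auxEmb_add, iter_delta_add]
    ring
  have hTsmul : ∀ l (c : k) v, T l (c • v) = C (C c) * T l v := by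
    intro l c v
    simp only [T]
    rw [Finset.mul_sum]
    refine Finset.sum_congr rfl fun s _ => ?_
    have h1 : (fun x => (c • v) (s, x)) = c • fun x => v (s, x) := rfl
    rw [h1, auxEmb_smul, iter_delta_smul]
    ring
  let f : ({s // s ∈ Lam m D N'} × Fin D × Fin A → k) →ₗ[k]
      (Fin M × Fin D × Fin (N + B + 1) → k) :=
    { toFun := fun v x => ((T x.1 v %ₘ F).coeff x.2.1).coeff x.2.2
      map_add' := by
        intro v v'
        funext x
        simp only [Pi.add_apply, hTadd, add_modByMonic, coeff_add]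
      map_smul' := by
        intro c v
        funext x
        simp only [Pi.smul_apply, smul_eq_mul, RingHom.id_apply, hTsmul]
        rw [← smul_eq_C_mul, smul_modByMonic, coeff_smul, smul_eq_mul, coeff_C_mul] }
  have hLam : M + D ≤ (Lam m D N').card := by
    have h1 : (Finset.range (M' + 1)) ×ˢ (Finset.range D) ⊆ Lam m D N' := by
      intro s hs
      rw [Finset.mem_product, Finset.mem_range, Finset.mem_range] at hs
      rw [Lam, Finset.mem_filter, Finset.mem_product, Finset.mem_range, Finset.mem_range]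
      have h2 : m * s.2 ≤ m * (D - 1) := Nat.mul_le_mul_left m (by omega)
      refine ⟨⟨by omega, hs.2⟩, by omega⟩
    have h2 := Finset.card_le_card h1
    rw [Finset.card_product, Finset.card_range, Finset.card_range] at h2
    calc M + D = (M' + 1) * D := by rw [hM]; ring
      _ ≤ _ := h2
  have hdim : Module.finrank k (Fin M × Fin D × Fin (N + B + 1) → k) <
      Module.finrank k ({s // s ∈ Lam m D N'} × Fin D × Fin A → k) := by
    simp only [Module.finrank_fintype_fun_eq_card, Fintype.card_prod, Fintype.card_coe,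
      Fintype.card_fin]
    have h1 : M * (N + B + 1) < (M + D) * A := by
      have h2 : (M + 1) * A ≤ (M + D) * A := Nat.mul_le_mul_right A (by omega)
      have h3 : (M + 1) * A + (M + 1) * (m * D) = (M + 1) * (N + 1) := by
        rw [← mul_add, hA1]
      have h4 : M * (N + B + 1) = M * (N + 1) + M * B := by ring
      have h5 : (M + 1) * (N + 1) = M * (N + 1) + (N + 1) := by ring
      omega
    calc M * (D * (N + B + 1)) = D * (M * (N + B + 1)) := by ring
      _ < D * ((M + D) * A) := Nat.mul_lt_mul_of_pos_left h1 hD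
      _ = (M + D) * (D * A) := by ring
      _ ≤ (Lam m D N').card * (D * A) := Nat.mul_le_mul_right _ hLam
  obtain ⟨v, hv, hv0⟩ := Submodule.exists_mem_ne_zero_of_ne_bot
    (LinearMap.ker_ne_bot_of_finrank_lt (f := f) hdim)
  have hdvd : ∀ l < M, F ∣ T l v := by
    intro l hl
    rw [← modByMonic_eq_zero_iff_dvd hF]
    have hw : Wt m (N + B) (T l v %ₘ F) := by
      apply Wt.modByMonic hF hFD hFw
      simp only [T]
      apply Wt.sum
      intro s _
      have hs : s.1 ∈ Lam m D N' := s.2
      simp only [Lam, Finset.mem_filter, Finset.mem_product, Finset.mem_range] at hs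
      have h1 : Wt m (N + l * (m * D)) ((delta F)^[l] (auxEmb D A fun x => v (s, x))) :=
        Wt.iter hFw (auxEmb_wt hA1.le _) l
      have h2 : Wt m (1 * s.1.1) (C X ^ s.1.1 : k[X][X]) :=
        (Wt.C' m (by simp : (X : k[X]).natDegree ≤ 1)).pow _
      have h3 := hα.pow s.1.2
      have h4 := (Wt.C' m hq).pow (D - 1 - s.1.2)
      refine ((((h1.mul h2).mul h3).mul h4)).mono ?_
      have h5 : l * (m * D) ≤ M * (m * D) := Nat.mul_le_mul_right _ hl.le
      have h6 : w * s.1.2 + w * (D - 1 - s.1.2) ≤ w * D := by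
        rw [← mul_add]
        exact Nat.mul_le_mul_left w (by omega)
      have h7 : s.1.1 ≤ N' := by omega
      omega
    ext b a
    rw [coeff_zero, coeff_zero]
    by_cases hb : b < D
    · by_cases ha : a ≤ N + B
      · have h1 : f v = 0 := hv
        exact congrFun h1 (⟨l, hl⟩, ⟨b, hb⟩, ⟨a, by omega⟩)
      · by_contra hcon
        have h2 : (T l v %ₘ F).coeff b ≠ 0 := by
          intro h0
          rw [h0, coeff_zero] at hcon
          exact hcon rfl
        have h3 := hw b h2
        have h4 := le_natDegree_of_ne_zero hcon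
        omega
    · have h5 : (T l v %ₘ F).coeff b = 0 := by
        apply coeff_eq_zero_of_degree_lt
        refine (degree_modByMonic_lt _ hF).trans_le ?_
        rw [degree_eq_natDegree hF.ne_zero, hFD]
        exact_mod_cast not_lt.1 hb
      rw [h5, coeff_zero]
  have hsum : ∀ l, T l v = ∑ s ∈ Lam m D N', (delta F)^[l]
      ((fun s => if h : s ∈ Lam m D N' then auxEmb D A (fun x => v (⟨s, h⟩, x)) else 0) s) *
        C X ^ s.1 * α ^ s.2 * C q ^ (D - 1 - s.2) := by
    intro l
    simp only [T]
    rw [← Finset.sum_coe_sort (Lam m D N')]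
    refine Finset.sum_congr rfl fun s _ => ?_
    rw [dif_pos s.2]
  refine ⟨fun s => if h : s ∈ Lam m D N' then auxEmb D A (fun x => v (⟨s, h⟩, x)) else 0,
    ?_, ?_, ?_⟩
  · by_contra hcon
    push Not at hcon
    apply hv0
    funext x
    obtain ⟨s, b, a⟩ := x
    have h1 := hcon s.1 s.2
    simp only [dif_pos s.2] at h1
    have h2 := auxEmb_coeff_coeff D A (fun x => v (s, x)) b a
    rw [h1, coeff_zero, coeff_zero] at h2
    exact h2.symm
  · intro s
    dsimp only
    split_ifs with h
    · exact ⟨auxEmb_wt hA1.le _, auxEmb_natDegree hD _ _⟩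
    · exact ⟨Wt.zero _ _, by simpa using hD⟩
  · intro l hl
    rw [← hsum l]
    exact hdvd l hl

end Pool.Agent.ZPL
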