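import Mathlib
import Pool.Agent.ZPL.AuxPoly
import Pool.Agent.ZPL.AuxNe

open Polynomial

namespace Pool.Agent.ZPL

lemma stp_lam_iff {m D N' : ℕ} {s : ℕ × ℕ} (h : s ∈ Lam m D N') : s.2 < D ∧ s.1 + m * s.2 ≤ N' := by
  unfold Lam at h
  rw [Finset.mem_filter, Finset.mem_product, Finset.mem_range, Finset.mem_range] at h
  exact ⟨h.1.2, h.2⟩

lemma stp_term {k : Type*} [Field k] (v : k[X][X]) (p i j : ℕ) :
    v * C X ^ (p * i) * X ^ (p * j) = v * ((C X : k[X][X]) ^ i * X ^ j) ^ p := by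
  rw [mul_pow, ← pow_mul, ← pow_mul, mul_comm i p, mul_comm j p, mul_assoc]

lemma stp_wt {k : Type*} [Field k] {m D N N' p : ℕ} {v : k[X][X]} (hv : Wt m N v) {s : ℕ × ℕ}
    (hs : s ∈ Lam m D N') : Wt m (N + p * N') (v * C X ^ (p * s.1) * X ^ (p * s.2)) := by
  have h1 : Wt m 1 (C X : k[X][X]) := Wt.C' m (natDegree_X_le)
  have h2 : Wt m (1 * (p * s.1)) ((C X : k[X][X]) ^ (p * s.1)) := h1.pow _
  have h3 : Wt m (m * (p * s.2)) ((X : k[X][X]) ^ (p * s.2)) := (Wt.X' m).pow _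
  refine ((hv.mul h2).mul h3).mono ?_
  obtain ⟨_, hs2⟩ := stp_lam_iff hs
  calc N + 1 * (p * s.1) + m * (p * s.2) = N + p * (s.1 + m * s.2) := by ring
    _ ≤ N + p * N' := by gcongr

lemma stp_eval {k : Type*} [Field k] {D p : ℕ} (Λ : Finset (ℕ × ℕ)) (hΛ : ∀ s ∈ Λ, s.2 < D)
    (v : ℕ × ℕ → k) (x y a b : k) (hx : x ^ p = x) (hb : b ≠ 0) (hy : y ^ p * b = a)
    (h : ∑ s ∈ Λ, v s * x ^ s.1 * a ^ s.2 * b ^ (D - 1 - s.2) = 0) :
    ∑ s ∈ Λ, v s * (x ^ s.1 * y ^ s.2) ^ p = 0 := by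
  have hD : b ^ (D - 1) ≠ 0 := pow_ne_zero _ hb
  apply mul_right_cancel₀ hD
  rw [zero_mul, Finset.sum_mul, ← h]
  apply Finset.sum_congr rfl
  intro s hs
  have hs2 : s.2 + (D - 1 - s.2) = D - 1 := by have := hΛ s hs; omega
  have e1 : (x ^ s.1) ^ p = x ^ s.1 := by rw [← pow_mul, mul_comm, pow_mul, hx]
  have e2 : (y ^ s.2) ^ p = (y ^ p) ^ s.2 := by rw [← pow_mul, mul_comm, pow_mul]
  have e3 : b ^ (D - 1) = b ^ s.2 * b ^ (D - 1 - s.2) := by rw [← pow_add, hs2]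
  rw [mul_pow, e1, e2, e3, ← hy, mul_pow]
  ring

/-- **Stepanov's method**: points of a plane curve, with rational abscissa, at which the Frobenius is
given by a rational function -/
theorem stepanov (D m w M' : ℕ) (hD : 0 < D) (hM : 0 < M') : ∃ P₀ : ℕ, ∀ (p : ℕ) [Fact p.Prime], P₀ ≤ p →
    ∀ (k : Type) [Field k] [IsAlgClosed k] [CharP k p] (F : k[X][X]), F.Monic → F.natDegree = D →
    Irreducible F → Wt m (m * D) F → ∀ (q : k[X]) (α : k[X][X]), q.natDegree ≤ w → Wt m w α →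
    ∀ Z : Finset (k × k), (∀ P ∈ Z, P.1 ^ p = P.1 ∧ F.evalEval P.1 P.2 = 0 ∧
      (derivative F).evalEval P.1 P.2 ≠ 0 ∧ q.eval P.1 ≠ 0 ∧ P.2 ^ p * q.eval P.1 = α.evalEval P.1 P.2) →
    D * M' * Z.card ≤ p * (D * M' + m * D * (D - 1) + 1) := by
  obtain ⟨P₁, hP₁⟩ := exists_aux D m w M' hD
  refine ⟨P₁ + D + D * M' + 1, ?_⟩
  intro p _ hp k _ _ _ F hF hFD hirr hFw q α hq hα Z hZ
  have hp0 : 0 < p := by omega
  obtain ⟨u, hune, huw, hudvd⟩ := hP₁ p (by omega) k F hF hFD hFw q α hq hα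
  set N' := M' + m * (D - 1) with hN'
  set N := (p - 1) / D with hN
  have hDN : D * N ≤ p - 1 := Nat.mul_div_le _ _
  set A : k[X][X] := ∑ s ∈ Lam m D N', u s * C X ^ (p * s.1) * X ^ (p * s.2) with hA
  have hAne : ¬ F ∣ A :=
    aux_ne (p := p) hF hFD (by omega) hFw hirr u huw (by omega) hune
  have hAw : Wt m (N + p * N') A := Wt.sum _ _ fun s hs => stp_wt (huw s).1 hs
  have key : ∀ P : k × k, ∃ η : k[X], P ∈ Z → η.eval 0 = P.2 ∧ X ^ (D * M') ∣ tev P.1 η F ∧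
      X ^ (D * M') ∣ tev P.1 η A := by
    intro P
    by_cases hPZ : P ∈ Z
    · obtain ⟨hx, hF0, hF1, hq0, hy⟩ := hZ P hPZ
      obtain ⟨η, hη0, hη⟩ := exists_eta F hF0 hF1 (D * M')
      refine ⟨η, fun _ => ⟨hη0, hη, ?_⟩⟩
      refine tev_vanish (p := p) hF1 (by omega) hη0 hη ?_
      intro l hl
      have e1 : (delta F)^[l] A = ∑ s ∈ Lam m D N', (delta F)^[l] (u s) *
          ((C X : k[X][X]) ^ s.1 * X ^ s.2) ^ p := by
        rw [hA, iter_delta_sum]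
        apply Finset.sum_congr rfl
        intro s _
        rw [stp_term, iter_delta_mul_pow]
      rw [e1, evalEval_finsetSum]
      have e2 : ∀ s : ℕ × ℕ, ((delta F)^[l] (u s) *
          ((C X : k[X][X]) ^ s.1 * X ^ s.2) ^ p).evalEval P.1 P.2 =
          ((delta F)^[l] (u s)).evalEval P.1 P.2 * (P.1 ^ s.1 * P.2 ^ s.2) ^ p := by
        intro s
        rw [evalEval_mul, evalEval_pow, evalEval_mul, evalEval_pow, evalEval_pow, evalEval_C,
          eval_X, evalEval_X]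
      rw [Finset.sum_congr rfl fun s _ => e2 s]
      refine stp_eval (D := D) _ (fun s hs => (stp_lam_iff hs).1) _ _ _ (α.evalEval P.1 P.2)
        (q.eval P.1) hx hq0 hy ?_
      obtain ⟨G, hG⟩ := hudvd l hl
      have e3 := congrArg (evalEval P.1 P.2) hG
      rw [evalEval_mul, hF0, zero_mul, evalEval_finsetSum] at e3
      rw [← e3]
      apply Finset.sum_congr rfl
      intro s _
      rw [evalEval_mul, evalEval_mul, evalEval_mul, evalEval_pow, evalEval_pow, evalEval_pow,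
        evalEval_C, evalEval_C, eval_X]
    · exact ⟨0, fun h => absurd h hPZ⟩
  choose η hη using key
  have hcount := zero_count (M := D * M') hF hFD hFw hirr hAw hAne Z η (fun P hP => (hη P hP).1)
    (fun P hP => (hη P hP).2.1) (fun P hP => (hη P hP).2.2)
  refine hcount.trans ?_
  calc D * (N + p * N') = D * N + p * (D * N') := by ring
    _ ≤ p + p * (D * N') := by gcongr; omega
    _ = p * (D * M' + m * D * (D - 1) + 1) := by rw [hN']; ring

end Pool.Agent.ZPL
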