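import Mathlib
import Pool.Agent.ZPL.Line
import Pool.Agent.ZPL.Stepanov

/-!
A positive proportion of the fibres of a Galois cover of the affine space are totally split.
-/

open Polynomial

namespace Pool.Agent.ZPL

/-- degree on a line -/
lemma c23_natDegree_sl {R S : Type*} [CommRing R] [CommRing S] {N : ℕ} (φ : R →+* S) (a v : Fin N → S)
    (c : MvPolynomial (Fin N) R) : (sl φ a v c).natDegree ≤ c.totalDegree := by
  have h1 : sl φ a v c = ∑ m ∈ c.support, C (φ (c.coeff m)) * ∏ i, (C (a i) + C (v i) * X) ^ m i := by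
    unfold sl
    rw [MvPolynomial.coe_eval₂Hom, MvPolynomial.eval₂_eq']
    rfl
  rw [h1]
  refine natDegree_sum_le_of_forall_le _ _ fun m hm => ?_
  refine (natDegree_C_mul_le _ _).trans ?_
  refine (natDegree_prod_le _ _).trans ?_
  refine le_trans ?_ (MvPolynomial.le_totalDegree hm)
  rw [Finsupp.sum_fintype _ _ (fun _ => rfl)]
  refine Finset.sum_le_sum fun i _ => ?_
  refine (natDegree_pow_le).trans ?_
  have : (C (a i) + C (v i) * X : S[X]).natDegree ≤ 1 := by compute_degree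
  calc _ ≤ m i * 1 := Nat.mul_le_mul_left _ this
    _ = m i := mul_one _

section slice

variable {p : ℕ} [Fact p.Prime] {N : ℕ} {k : Type} [Field k]

/-- evaluation at `(b, y)` -/
noncomputable def ev23 (ψ : ZMod p →+* k) (b : Fin N → ZMod p) (y : k) :
    (MvPolynomial (Fin N) (ZMod p))[X] →+* k := eval₂RingHom (ψ.comp (MvPolynomial.eval b)) y

lemma c23_C (ψ : ZMod p →+* k) (b : Fin N → ZMod p) (y : k) (c : MvPolynomial (Fin N) (ZMod p)) :
    ev23 ψ b y (C c) = ψ (MvPolynomial.eval b c) := by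
  simp [ev23]

lemma c23_X (ψ : ZMod p →+* k) (b : Fin N → ZMod p) (y : k) : ev23 ψ b y X = y := by
  simp [ev23]

lemma c23_sl_eval (a v : Fin N → ZMod p) (t : ZMod p) (c : MvPolynomial (Fin N) (ZMod p)) :
    (sl (RingHom.id _) a v c).eval t = MvPolynomial.eval (fun i => a i + v i * t) c := by
  have h : (evalRingHom t).comp (sl (RingHom.id _) a v) = MvPolynomial.eval (fun i => a i + v i * t) := by
    apply MvPolynomial.ringHom_ext
    · intro r
      simp [sl]
    · intro i
      simp [sl]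
  exact RingHom.congr_fun h c

lemma c23_eval_map (ψ : ZMod p →+* k) (a v : Fin N → ZMod p) (t : ZMod p) (c : MvPolynomial (Fin N) (ZMod p)) :
    ((sl (RingHom.id _) a v c).map ψ).eval (ψ t) = ψ (MvPolynomial.eval (fun i => a i + v i * t) c) := by
  rw [eval_map, eval₂_at_apply, c23_sl_eval]

lemma c23_evalEval (ψ : ZMod p →+* k) (a v : Fin N → ZMod p) (t : ZMod p) (y : k)
    (P : (MvPolynomial (Fin N) (ZMod p))[X]) :
    ((P.map (sl (RingHom.id _) a v)).map (mapRingHom ψ)).evalEval (ψ t) y = ev23 ψ (fun i => a i + v i * t) y P := by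
  have h : (evalEvalRingHom (ψ t) y).comp ((mapRingHom (mapRingHom ψ)).comp (mapRingHom (sl (RingHom.id _) a v))) =
      ev23 ψ (fun i => a i + v i * t) y := by
    apply Polynomial.ringHom_ext
    · intro c
      rw [c23_C, ← c23_eval_map]
      simp
    · rw [c23_X]
      simp
  exact RingHom.congr_fun h P

lemma c23_frob [CharP k p] (ψ : ZMod p →+* k) (b : Fin N → ZMod p) (y : k) (P : (MvPolynomial (Fin N) (ZMod p))[X]) :
    ev23 ψ b (y ^ p) P = (ev23 ψ b y P) ^ p := by
  have h : ev23 ψ b (y ^ p) = (frobenius k p).comp (ev23 ψ b y) := by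
    apply Polynomial.ringHom_ext
    · intro c
      rw [RingHom.comp_apply, c23_C, c23_C, frobenius_def, ← map_pow, ZMod.pow_card]
    · rw [RingHom.comp_apply, c23_X, c23_X, frobenius_def]
  rw [h, RingHom.comp_apply, frobenius_def]

/-- the roots of `F(b, ·)` -/
noncomputable def Rb23 (ψ : ZMod p →+* k) (F : (MvPolynomial (Fin N) (ZMod p))[X]) (b : Fin N → ZMod p) : Finset k :=
  open Classical in ((F.map (MvPolynomial.eval b)).map ψ).roots.toFinset

lemma c23_mem {ψ : ZMod p →+* k} {F : (MvPolynomial (Fin N) (ZMod p))[X]} (hF : F.Monic) {b : Fin N → ZMod p} {y : k} :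
    y ∈ Rb23 ψ F b ↔ ev23 ψ b y F = 0 := by
  classical
  unfold Rb23
  rw [Multiset.mem_toFinset, Polynomial.mem_roots ((hF.map _).map _).ne_zero, IsRoot.def, eval_map, eval₂_map]
  rfl

lemma c23_card_le {ψ : ZMod p →+* k} {F : (MvPolynomial (Fin N) (ZMod p))[X]} (hF : F.Monic) (b : Fin N → ZMod p) :
    (Rb23 ψ F b).card ≤ F.natDegree := by
  classical
  unfold Rb23
  refine (Multiset.toFinset_card_le _).trans ((Polynomial.card_roots' _).trans ?_)
  rw [(hF.map _).natDegree_map, hF.natDegree_map]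

lemma c23_card [IsAlgClosed k] {ψ : ZMod p →+* k} {F : (MvPolynomial (Fin N) (ZMod p))[X]} (hF : F.Monic)
    {q : MvPolynomial (Fin N) (ZMod p)} {A B : (MvPolynomial (Fin N) (ZMod p))[X]}
    (hAB : A * F + B * derivative F = C q) {b : Fin N → ZMod p} (hb : MvPolynomial.eval b q ≠ 0) :
    (Rb23 ψ F b).card = F.natDegree := by
  classical
  have hq : ψ (MvPolynomial.eval b q) ≠ 0 := by
    rw [Ne, map_eq_zero]; exact hb
  have hsep : ((F.map (MvPolynomial.eval b)).map ψ).Separable := by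
    rw [Polynomial.separable_def]
    refine ⟨C (ψ (MvPolynomial.eval b q))⁻¹ * (A.map (MvPolynomial.eval b)).map ψ,
      C (ψ (MvPolynomial.eval b q))⁻¹ * (B.map (MvPolynomial.eval b)).map ψ, ?_⟩
    have h1 := congrArg (fun P => (P.map (MvPolynomial.eval b)).map ψ) hAB
    simp only [Polynomial.map_add, Polynomial.map_mul, Polynomial.map_C] at h1
    rw [← derivative_map, ← derivative_map] at h1
    have h2 : C (ψ (MvPolynomial.eval b q))⁻¹ * C (ψ (MvPolynomial.eval b q)) = (1 : k[X]) := by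
      rw [← C_mul, inv_mul_cancel₀ hq, C_1]
    rw [mul_assoc, mul_assoc, ← mul_add, h1, h2]
  unfold Rb23
  rw [Multiset.toFinset_card_of_nodup (nodup_roots hsep), ← (IsAlgClosed.splits _).natDegree_eq_card_roots,
    (hF.map _).natDegree_map, hF.natDegree_map]

lemma c23_range {ψ : ZMod p →+* k} {y : k} (hy : y ^ p = y) : ∃ c, ψ c = y := by
  have : CharP k p := charP_of_injective_ringHom ψ.injective p
  have h1 := (Subfield.mem_bot_iff_pow_eq_self k p).mpr hy
  obtain ⟨c, hc⟩ := (mem_bot_iff_intCast p k).mp h1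
  exact ⟨(c : ZMod p), by rw [map_intCast, hc]⟩

end slice

lemma c23_zippel {p : ℕ} [Fact p.Prime] {N w : ℕ} (hN : 0 < N) {q : MvPolynomial (Fin N) (ZMod p)} (hq : q ≠ 0)
    (hw : q.totalDegree ≤ w) : (Finset.univ.filter fun b : Fin N → ZMod p => MvPolynomial.eval b q = 0).card ≤
      w * p ^ (N - 1) := by
  classical
  have hp : p.Prime := Fact.out
  have h1 := MvPolynomial.schwartz_zippel_totalDegree hq (Finset.univ : Finset (ZMod p))
  rw [Finset.card_univ, ZMod.card, Fintype.piFinset_univ] at h1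
  have hp0 : (0 : ℚ≥0) < (p : ℚ≥0) := by exact_mod_cast hp.pos
  rw [div_le_div_iff₀ (by positivity) hp0] at h1
  have h2 : (Finset.univ.filter fun b : Fin N → ZMod p => MvPolynomial.eval b q = 0).card * p ≤ q.totalDegree * p ^ N := by
    exact_mod_cast h1
  obtain ⟨n, rfl⟩ : ∃ n, N = n + 1 := ⟨N - 1, by omega⟩
  rw [Nat.add_sub_cancel]
  rw [pow_succ, ← mul_assoc] at h2
  exact (Nat.le_of_mul_le_mul_right h2 hp.pos).trans (Nat.mul_le_mul_right _ hw)

/-- points of the graph of the Frobenius on a slice -/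
lemma c23_slice {p : ℕ} [Fact p.Prime] {N D w M' : ℕ} {k : Type} [Field k] [IsAlgClosed k] [CharP k p] (ψ : ZMod p →+* k)
    (hst : ∀ (F : k[X][X]), F.Monic → F.natDegree = D → Irreducible F → Wt w (w * D) F → ∀ (q : k[X]) (α : k[X][X]),
      q.natDegree ≤ w + w * w → Wt w (w + w * w) α → ∀ Z : Finset (k × k), (∀ P ∈ Z, P.1 ^ p = P.1 ∧ F.evalEval P.1 P.2 = 0 ∧
      (derivative F).evalEval P.1 P.2 ≠ 0 ∧ q.eval P.1 ≠ 0 ∧ P.2 ^ p * q.eval P.1 = α.evalEval P.1 P.2) →
      D * M' * Z.card ≤ p * (D * M' + w * D * (D - 1) + 1))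
    {F : (MvPolynomial (Fin N) (ZMod p))[X]} (hF : F.Monic) (hFD : F.natDegree = D)
    (hFw : ∀ b, (F.coeff b).totalDegree ≤ w) {q : MvPolynomial (Fin N) (ZMod p)} (hqw : q.totalDegree ≤ w)
    {α : (MvPolynomial (Fin N) (ZMod p))[X]} (hαw : ∀ b, (α.coeff b).totalDegree ≤ w) (hαd : α.natDegree ≤ w)
    {A B : (MvPolynomial (Fin N) (ZMod p))[X]} (hAB : A * F + B * derivative F = C q) (a v : Fin N → ZMod p)
    (hirr : Irreducible ((F.map (sl (RingHom.id _) a v)).map (mapRingHom ψ)))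
    (Z : (Fin N → ZMod p) → Finset k) (hZ0 : ∀ b, MvPolynomial.eval b q = 0 → Z b = ∅)
    (hZ : ∀ b, ∀ y ∈ Z b, ev23 ψ b y F = 0 ∧ y ^ p * ψ (MvPolynomial.eval b q) = ev23 ψ b y α) :
    D * M' * ∑ t : ZMod p, (Z (fun i => a i + v i * t)).card ≤ p * (D * M' + w * D * (D - 1) + 1) := by
  classical
  have hcard : ((Finset.univ : Finset (ZMod p)).biUnion fun t => (Z (fun i => a i + v i * t)).image fun y => (ψ t, y)).card =
      ∑ t : ZMod p, (Z (fun i => a i + v i * t)).card := by
    rw [Finset.card_biUnion]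
    · refine Finset.sum_congr rfl fun t _ => ?_
      exact Finset.card_image_of_injective _ fun y y' h => (Prod.ext_iff.mp h).2
    · intro t _ t' _ htt
      change Disjoint _ _
      rw [Finset.disjoint_left]
      intro P hP hP'
      obtain ⟨y, -, rfl⟩ := Finset.mem_image.mp hP
      obtain ⟨y', -, h⟩ := Finset.mem_image.mp hP'
      exact htt (ψ.injective (Prod.ext_iff.mp h).1).symm
  rw [← hcard]
  have hFm : ((F.map (sl (RingHom.id _) a v)).map (mapRingHom ψ)).Monic := (hF.map _).map _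
  have hFn : ((F.map (sl (RingHom.id _) a v)).map (mapRingHom ψ)).natDegree = D := by
    rw [(hF.map _).natDegree_map, hF.natDegree_map, hFD]
  refine hst ((F.map (sl (RingHom.id _) a v)).map (mapRingHom ψ)) hFm hFn hirr ?_ ((sl (RingHom.id _) a v q).map ψ)
    ((α.map (sl (RingHom.id _) a v)).map (mapRingHom ψ)) ?_ ?_ _ ?_
  · intro b hb
    have hbD : b ≤ D := by
      by_contra hcon
      push Not at hcon
      exact hb (coeff_eq_zero_of_natDegree_lt (by rw [hFn]; exact hcon))
    rcases Nat.eq_or_lt_of_le hbD with h | h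
    · have e : ((F.map (sl (RingHom.id _) a v)).map (mapRingHom ψ)).coeff b = 1 := by
        rw [h, ← hFn]; exact hFm.coeff_natDegree
      rw [e, natDegree_one, h]
      omega
    · rw [coeff_map, coeff_map, coe_mapRingHom]
      have h1 := (natDegree_map_le (f := ψ) (p := sl (RingHom.id _) a v (F.coeff b))).trans
        ((c23_natDegree_sl _ _ _ _).trans (hFw b))
      calc _ ≤ w + w * b := Nat.add_le_add_right h1 _
        _ = w * (b + 1) := by ring
        _ ≤ w * D := Nat.mul_le_mul_left _ h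
  · exact (natDegree_map_le.trans ((c23_natDegree_sl _ _ _ _).trans hqw)).trans (Nat.le_add_right _ _)
  · intro b hb
    have hbw : b ≤ w := by
      by_contra hcon
      push Not at hcon
      apply hb
      rw [coeff_map, coeff_map, coeff_eq_zero_of_natDegree_lt (by omega), map_zero, map_zero]
    rw [coeff_map, coeff_map, coe_mapRingHom]
    have h1 := (natDegree_map_le (f := ψ) (p := sl (RingHom.id _) a v (α.coeff b))).trans
      ((c23_natDegree_sl _ _ _ _).trans (hαw b))
    exact Nat.add_le_add h1 (Nat.mul_le_mul_left _ hbw)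
  · intro P hP
    obtain ⟨t, -, ht⟩ := Finset.mem_biUnion.mp hP
    obtain ⟨y, hy, rfl⟩ := Finset.mem_image.mp ht
    obtain ⟨h1, h2⟩ := hZ _ y hy
    have hq : MvPolynomial.eval (fun i => a i + v i * t) q ≠ 0 := by
      intro h
      rw [hZ0 _ h] at hy
      simp at hy
    have hq' : ψ (MvPolynomial.eval (fun i => a i + v i * t) q) ≠ 0 := by rw [Ne, map_eq_zero]; exact hq
    simp only
    rw [derivative_map, derivative_map, c23_evalEval, c23_evalEval, c23_evalEval, c23_eval_map, ← map_pow, ZMod.pow_card]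
    refine ⟨rfl, h1, ?_, hq', h2⟩
    intro h3
    have h4 := congrArg (ev23 ψ (fun i => a i + v i * t) y) hAB
    rw [map_add, map_mul, map_mul, h1, h3, mul_zero, mul_zero, add_zero, c23_C] at h4
    exact hq' h4.symm

open Classical in
/-- a positive proportion of the fibres of a Galois cover of the affine space are totally split -/
theorem split_count (D w N : ℕ) (hD : 0 < D) (hN : 0 < N) : ∃ P₀ : ℕ, ∀ (p : ℕ) [Fact p.Prime], P₀ ≤ p →
    ∀ (k : Type) [Field k] [IsAlgClosed k] (ψ : ZMod p →+* k) (F : (MvPolynomial (Fin N) (ZMod p))[X])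
    (q : MvPolynomial (Fin N) (ZMod p)) (α : Fin D → (MvPolynomial (Fin N) (ZMod p))[X]) (g₁ : Fin D)
    (κ : (MvPolynomial (Fin N) (ZMod p))[X][X]) (A B : (MvPolynomial (Fin N) (ZMod p))[X])
    (a : Fin N → ZMod p), F.Monic → F.natDegree = D → (∀ b, (F.coeff b).totalDegree ≤ w) → q ≠ 0 →
    q.totalDegree ≤ w → (∀ g b, ((α g).coeff b).totalDegree ≤ w) → (∀ g, (α g).natDegree ≤ w) →
    α g₁ = C q * X → C (C q) ^ D * F.map C = (∏ g, (C (C q) * X - C (α g))) + C F * κ →
    A * F + B * derivative F = C q →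
    (Finset.univ.filter fun v : Fin N → ZMod p =>
      ¬ Irreducible ((F.map (sl (RingHom.id _) a v)).map (mapRingHom ψ))).card ≤ w * p ^ (N - 1) →
    p ^ N ≤ 4 * D * (Finset.univ.filter fun b : Fin N → ZMod p =>
      MvPolynomial.eval b q ≠ 0 ∧ ∃ y, (F.map (MvPolynomial.eval b)).eval y = 0).card := by
  obtain ⟨c, hc⟩ : ∃ c, c = w * D * (D - 1) + 1 := ⟨_, rfl⟩
  have hc0 : 0 < c := by omega
  obtain ⟨P₁, hP₁⟩ := stepanov D w (w + w * w) (8 * c) hD (by omega)
  refine ⟨P₁ + (8 * w * D * D + 8 * D + 2), fun p _ hp k _ _ ψ F q α g₁ κ A B a hF hFD hFw hq0 hqw hαw hαd hα1 hκ hAB hbad => ?_⟩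
  have hpp : p.Prime := Fact.out
  have : CharP k p := charP_of_injective_ringHom ψ.injective p
  have hst := hP₁ p (by omega) k
  -- the pieces
  obtain ⟨Z, hZ⟩ : ∃ Z : Fin D → (Fin N → ZMod p) → Finset k, ∀ g b, Z g b = if MvPolynomial.eval b q = 0 then ∅ else
    (Rb23 ψ F b).filter fun y => y ^ p * ψ (MvPolynomial.eval b q) = ev23 ψ b y (α g) := ⟨_, fun _ _ => rfl⟩
  have hZ0 : ∀ g b, MvPolynomial.eval b q = 0 → Z g b = ∅ := fun g b h => by rw [hZ, if_pos h]
  have hZF : ∀ g b, ∀ y ∈ Z g b, ev23 ψ b y F = 0 ∧ y ^ p * ψ (MvPolynomial.eval b q) = ev23 ψ b y (α g) := by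
    intro g b y hy
    by_cases h : MvPolynomial.eval b q = 0
    · rw [hZ0 g b h] at hy; simp at hy
    · rw [hZ, if_neg h, Finset.mem_filter, c23_mem hF] at hy
      exact hy
  have hZD : ∀ g b, (Z g b).card ≤ D := by
    intro g b
    rw [hZ]
    split_ifs
    · simp
    · exact (Finset.card_filter_le _ _).trans ((c23_card_le hF b).trans_eq hFD)
  -- the pieces cover the fibre
  have hcov : ∀ b, MvPolynomial.eval b q ≠ 0 → D ≤ ∑ g, (Z g b).card := by
    intro b hb
    have hqb : ψ (MvPolynomial.eval b q) ≠ 0 := by rw [Ne, map_eq_zero]; exact hb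
    have hcd : D = (Rb23 ψ F b).card := by rw [c23_card (ψ := ψ) hF hAB hb, hFD]
    refine hcd.le.trans (le_trans (Finset.card_le_card ?_) (Finset.card_biUnion_le (s := Finset.univ) (t := fun g => Z g b)))
    intro y hy
    have hy' := (c23_mem hF).mp hy
    have h1 := congrArg (eval₂RingHom (ev23 ψ b y) (y ^ p)) hκ
    have e1 : (eval₂RingHom (ev23 ψ b y) (y ^ p)) (F.map C) = 0 := by
      have e2 : (eval₂RingHom (ev23 ψ b y) (y ^ p)) (F.map C) = ev23 ψ b (y ^ p) F := by
        rw [coe_eval₂RingHom, eval₂_map]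
        unfold ev23
        rw [coe_eval₂RingHom]
        congr 1
        ext c <;> simp
      rw [e2, c23_frob, hy', zero_pow hpp.ne_zero]
    rw [map_mul, e1, mul_zero, map_add, map_mul, map_prod] at h1
    have e3 : (eval₂RingHom (ev23 ψ b y) (y ^ p)) (C F) = 0 := by
      rw [coe_eval₂RingHom, eval₂_C, hy']
    rw [e3, zero_mul, add_zero] at h1
    obtain ⟨g, -, hg⟩ := Finset.prod_eq_zero_iff.mp h1.symm
    rw [Finset.mem_biUnion]
    refine ⟨g, Finset.mem_univ _, ?_⟩
    rw [hZ, if_neg hb, Finset.mem_filter]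
    refine ⟨hy, ?_⟩
    rw [coe_eval₂RingHom, eval₂_sub, eval₂_mul, eval₂_C, eval₂_C, eval₂_X, c23_C] at hg
    rw [mul_comm]
    exact sub_eq_zero.mp hg
  -- the rational piece
  obtain ⟨T, hT⟩ : ∃ T : Finset (Fin N → ZMod p), T = Finset.univ.filter fun b : Fin N → ZMod p =>
      MvPolynomial.eval b q ≠ 0 ∧ ∃ y, (F.map (MvPolynomial.eval b)).eval y = 0 := ⟨_, rfl⟩
  rw [← hT]
  have hrat : ∀ b, b ∉ T → Z g₁ b = ∅ := by
    intro b hb
    rw [Finset.eq_empty_iff_forall_notMem]
    intro y hy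
    apply hb
    rw [hT, Finset.mem_filter]
    have hqb : MvPolynomial.eval b q ≠ 0 := by
      intro h
      rw [hZ0 _ _ h] at hy
      simp at hy
    have hqb' : ψ (MvPolynomial.eval b q) ≠ 0 := by rw [Ne, map_eq_zero]; exact hqb
    refine ⟨Finset.mem_univ _, hqb, ?_⟩
    obtain ⟨h1, h2⟩ := hZF g₁ b y hy
    rw [hα1, map_mul, c23_C, c23_X, mul_comm] at h2
    obtain ⟨c, hcy⟩ := c23_range (ψ := ψ) (mul_left_cancel₀ hqb' h2)
    refine ⟨c, ?_⟩
    apply ψ.injective
    rw [map_zero, ← h1, ← hcy, eval_map, ev23, coe_eval₂RingHom, Polynomial.hom_eval₂]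
  have hS1 : ∑ b, (Z g₁ b).card ≤ D * T.card := by
    calc ∑ b, (Z g₁ b).card = ∑ b ∈ T, (Z g₁ b).card := by
          symm
          refine Finset.sum_subset (Finset.subset_univ _) fun b _ hb => ?_
          rw [hrat b hb, Finset.card_empty]
      _ ≤ ∑ b ∈ T, D := Finset.sum_le_sum fun b _ => hZD g₁ b
      _ = D * T.card := by rw [Finset.sum_const, smul_eq_mul, mul_comm]
  -- the other pieces
  have hSg : ∀ g, 4 * D * ∑ b, (Z g b).card ≤ (4 * D + 1) * p ^ N := by
    intro g
    have k1 : ∀ v : Fin N → ZMod p, Irreducible ((F.map (sl (RingHom.id _) a v)).map (mapRingHom ψ)) →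
        D * (8 * c) * ∑ t : ZMod p, (Z g (fun i => a i + v i * t)).card ≤ p * (D * (8 * c) + c) := by
      intro v hv
      have := c23_slice ψ hst hF hFD hFw hqw (hαw g) (hαd g) hAB a v hv (Z g) (hZ0 g) (hZF g)
      rwa [add_assoc, ← hc] at this
    have k2 : ∀ v : Fin N → ZMod p, ∑ t : ZMod p, (Z g (fun i => a i + v i * t)).card ≤ p * D := by
      intro v
      calc _ ≤ ∑ t : ZMod p, D := Finset.sum_le_sum fun t _ => hZD g _
        _ = p * D := by rw [Finset.sum_const, Finset.card_univ, ZMod.card, smul_eq_mul]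
    have k3 : D * (8 * c) * ∑ v : Fin N → ZMod p, ∑ t : ZMod p, (Z g (fun i => a i + v i * t)).card ≤
        p ^ N * (p * (D * (8 * c) + c)) + (w * p ^ (N - 1)) * (D * (8 * c) * (p * D)) := by
      rw [Finset.mul_sum]
      rw [← Finset.sum_filter_add_sum_filter_not Finset.univ (fun v : Fin N → ZMod p =>
        ¬ Irreducible ((F.map (sl (RingHom.id _) a v)).map (mapRingHom ψ)))]
      rw [add_comm]
      refine Nat.add_le_add ?_ ?_
      · refine (Finset.sum_le_card_nsmul _ _ (p * (D * (8 * c) + c)) fun v hv => ?_).trans ?_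
        · rw [Finset.mem_filter, not_not] at hv
          exact k1 v hv.2
        · rw [smul_eq_mul]
          refine Nat.mul_le_mul_right _ ((Finset.card_filter_le _ _).trans_eq ?_)
          rw [Finset.card_univ, Fintype.card_fun, ZMod.card, Fintype.card_fin]
      · refine (Finset.sum_le_card_nsmul _ _ (D * (8 * c) * (p * D)) fun v _ => ?_).trans ?_
        · exact Nat.mul_le_mul_left _ (k2 v)
        · rw [smul_eq_mul]
          exact Nat.mul_le_mul_right _ hbad
    have k4 : (p - 1) * ∑ b, (Z g b).card ≤ ∑ v : Fin N → ZMod p, ∑ t : ZMod p, (Z g (fun i => a i + v i * t)).card := by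
      rw [Finset.sum_comm]
      have e1 : ∀ t : ZMod p, t ∈ (Finset.univ.erase (0 : ZMod p)) → ∑ v : Fin N → ZMod p, (Z g (fun i => a i + v i * t)).card = ∑ b, (Z g b).card := by
        intro t ht
        have ht0 : t ≠ 0 := (Finset.mem_erase.mp ht).1
        refine Fintype.sum_equiv ⟨fun v i => a i + v i * t, fun b i => (b i - a i) * t⁻¹, fun v => ?_, fun b => ?_⟩ _ _ fun v => rfl
        · funext i
          simp only
          field_simp
          ring
        · funext i
          simp only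
          field_simp
          ring
      calc (p - 1) * ∑ b, (Z g b).card = ∑ t ∈ Finset.univ.erase (0 : ZMod p), ∑ b, (Z g b).card := by
            rw [Finset.sum_const, Finset.card_erase_of_mem (Finset.mem_univ _), Finset.card_univ, ZMod.card, smul_eq_mul]
        _ = ∑ t ∈ Finset.univ.erase (0 : ZMod p), ∑ v : Fin N → ZMod p, (Z g (fun i => a i + v i * t)).card :=
            Finset.sum_congr rfl fun t ht => (e1 t ht).symm
        _ ≤ _ := Finset.sum_le_sum_of_subset (Finset.erase_subset _ _)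
    obtain ⟨S, hS⟩ : ∃ S, S = ∑ b, (Z g b).card := ⟨_, rfl⟩
    rw [← hS] at k4 ⊢
    obtain ⟨n, rfl⟩ : ∃ n, N = n + 1 := ⟨N - 1, by omega⟩
    obtain ⟨m, hm⟩ : ∃ m, p = m + 1 := ⟨p - 1, by have := hpp.pos; omega⟩
    have hm' : p - 1 = m := by omega
    have hm0 : 8 * w * D * D + 8 * D + 1 ≤ m := by omega
    rw [Nat.add_sub_cancel] at k3
    rw [hm'] at k4
    have k5 : D * (8 * c) * (m * S) ≤ p ^ (n + 1) * (p * (D * (8 * c) + c)) + (w * p ^ n) * (D * (8 * c) * (p * D)) :=
      (Nat.mul_le_mul_left _ k4).trans k3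
    have k6 : c * (8 * D * (m * S)) ≤ c * (p ^ (n + 1) * (p * (8 * D + 1) + 8 * w * D * D)) := by
      calc _ = D * (8 * c) * (m * S) := by ring
        _ ≤ _ := k5
        _ = _ := by ring
    have k7 := Nat.le_of_mul_le_mul_left k6 hc0
    have k8 : p * (8 * D + 1) + 8 * w * D * D ≤ m * (8 * D + 2) := by
      rw [hm]
      nlinarith
    have k9 : m * (2 * (4 * D * S)) ≤ m * (2 * ((4 * D + 1) * p ^ (n + 1))) := by
      calc _ = 8 * D * (m * S) := by ring
        _ ≤ _ := k7
        _ ≤ p ^ (n + 1) * (m * (8 * D + 2)) := Nat.mul_le_mul_left _ k8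
        _ = _ := by ring
    have k10 := Nat.le_of_mul_le_mul_left k9 (by omega)
    omega
  -- the total
  have htot : D * p ^ N ≤ (∑ g, ∑ b, (Z g b).card) + D * (w * p ^ (N - 1)) := by
    have e1 : p ^ N = (Finset.univ.filter fun b : Fin N → ZMod p => ¬ MvPolynomial.eval b q = 0).card +
        (Finset.univ.filter fun b : Fin N → ZMod p => MvPolynomial.eval b q = 0).card := by
      have := Finset.card_filter_add_card_filter_not (s := (Finset.univ : Finset (Fin N → ZMod p))) (fun b => MvPolynomial.eval b q = 0)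
      rw [Finset.card_univ, Fintype.card_fun, ZMod.card, Fintype.card_fin] at this
      omega
    rw [e1, mul_add]
    refine Nat.add_le_add ?_ (Nat.mul_le_mul_left _ (c23_zippel hN hq0 hqw))
    rw [Finset.sum_comm]
    calc _ = ∑ b ∈ Finset.univ.filter (fun b : Fin N → ZMod p => ¬ MvPolynomial.eval b q = 0), D := by
          rw [Finset.sum_const, smul_eq_mul, mul_comm]
      _ ≤ ∑ b ∈ Finset.univ.filter (fun b : Fin N → ZMod p => ¬ MvPolynomial.eval b q = 0), ∑ g, (Z g b).card :=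
          Finset.sum_le_sum fun b hb => hcov b (Finset.mem_filter.mp hb).2
      _ ≤ _ := Finset.sum_le_sum_of_subset (Finset.filter_subset _ _)
  have hsum : 4 * D * ∑ g, ∑ b, (Z g b).card ≤ 4 * D * (D * T.card) + (D - 1) * ((4 * D + 1) * p ^ N) := by
    rw [← Finset.add_sum_erase _ _ (Finset.mem_univ g₁), mul_add]
    refine Nat.add_le_add (Nat.mul_le_mul_left _ hS1) ?_
    rw [Finset.mul_sum]
    refine (Finset.sum_le_card_nsmul _ _ ((4 * D + 1) * p ^ N) fun g _ => hSg g).trans ?_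
    rw [smul_eq_mul, Finset.card_erase_of_mem (Finset.mem_univ _), Finset.card_univ, Fintype.card_fin]
  obtain ⟨n, rfl⟩ : ∃ n, N = n + 1 := ⟨N - 1, by omega⟩
  obtain ⟨d, rfl⟩ : ∃ d, D = d + 1 := ⟨D - 1, by omega⟩
  rw [Nat.add_sub_cancel] at htot hsum
  obtain ⟨S, hS⟩ : ∃ S, S = ∑ g, ∑ b, (Z g b).card := ⟨_, rfl⟩
  rw [← hS] at htot hsum
  have j1 : 2 * (d + 1) * w ≤ p := by
    have : 2 * (d + 1) * w ≤ 8 * w * (d + 1) * (d + 1) := by nlinarith [Nat.zero_le (w * (d + 1) * d)]
    omega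
  have j2 : w * p ^ n * (2 * (d + 1)) ≤ p ^ (n + 1) := by
    calc _ = p ^ n * (2 * (d + 1) * w) := by ring
      _ ≤ p ^ n * p := Nat.mul_le_mul_left _ j1
      _ = _ := by ring
  obtain ⟨Q, hQ⟩ : ∃ Q, Q = p ^ (n + 1) := ⟨_, rfl⟩
  obtain ⟨R, hR⟩ : ∃ R, R = w * p ^ n := ⟨_, rfl⟩
  rw [← hQ] at htot hsum j2 ⊢
  rw [← hR] at htot j2
  have j3 : 4 * (d + 1) * ((d + 1) * Q) ≤ 4 * (d + 1) * S + 4 * (d + 1) * ((d + 1) * R) := by
    rw [← mul_add]; exact Nat.mul_le_mul_left _ htot
  have j4 : (d + 1) * (Q) ≤ (d + 1) * (4 * (d + 1) * T.card) := by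
    nlinarith [Nat.zero_le (d * Q), Nat.zero_le Q, Nat.mul_le_mul_left (2 * (d + 1)) j2]
  exact Nat.le_of_mul_le_mul_left j4 (Nat.succ_pos d)

end Pool.Agent.ZPL
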