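import Mathlib
import Pool.Agent.ZPL.Defs
import Pool.Agent.ZPL.SplitCount
import Pool.Agent.ZPL.GalData
import Pool.Agent.ZPL.IrrSlices
import Pool.Agent.ZPL.ExtVal
import Pool.Agent.ZPL.AlgInd

/-!
A positive proportion of the members of a linear system modulo a split prime have totally split zeros.
-/

open Polynomial

namespace Pool.Agent.ZPL

open Pool.Agent.ZPOrd

section ringO

variable {p : ℕ} [Fact p.Prime] {V : ValuationSubring ℂ} (ψ : ZMod p →+* IsLocalRing.ResidueField V)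

/-- the complex numbers with a residue in the prime field -/
def ringO : Subring ℂ where
  carrier := {z | ∃ a, Rs ψ z a}
  mul_mem' := fun ⟨_, h⟩ ⟨_, h'⟩ => ⟨_, h.mul h'⟩
  one_mem' := ⟨1, Rs.one⟩
  add_mem' := fun ⟨_, h⟩ ⟨_, h'⟩ => ⟨_, h.add h'⟩
  zero_mem' := ⟨0, Rs.zero⟩
  neg_mem' := fun ⟨_, h⟩ => ⟨_, h.neg⟩

lemma Rs_unique {z : ℂ} {a b : ZMod p} (h : Rs ψ z a) (h' : Rs ψ z b) : a = b := by
  obtain ⟨h1, h2⟩ := h
  obtain ⟨h3, h4⟩ := h'
  exact ψ.injective (h2.symm.trans h4)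

/-- the residue -/
noncomputable def thO : ringO ψ →+* ZMod p where
  toFun z := Classical.choose z.2
  map_one' := Rs_unique ψ (Classical.choose_spec (1 : ringO ψ).2) Rs.one
  map_zero' := Rs_unique ψ (Classical.choose_spec (0 : ringO ψ).2) Rs.zero
  map_mul' z w := Rs_unique ψ (Classical.choose_spec (z * w).2)
    ((Classical.choose_spec z.2).mul (Classical.choose_spec w.2))
  map_add' z w := Rs_unique ψ (Classical.choose_spec (z + w).2)
    ((Classical.choose_spec z.2).add (Classical.choose_spec w.2))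

lemma thO_spec (z : ringO ψ) : Rs ψ (z : ℂ) (thO ψ z) := Classical.choose_spec z.2

end ringO

section lift

open Classical in
/-- the coefficients of a polynomial in several variables and one variable -/
noncomputable def cfs {R : Type*} [CommRing R] {N : ℕ} (F : (MvPolynomial (Fin N) R)[X]) : Finset R :=
  F.support.biUnion fun b => (F.coeff b).coeffs

open Classical in
/-- the coefficients of a polynomial in several variables and two variables -/
noncomputable def cfs2 {R : Type*} [CommRing R] {N : ℕ} (F : (MvPolynomial (Fin N) R)[X][X]) : Finset R :=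
  F.support.biUnion fun b => cfs (F.coeff b)

lemma lift0 {R : Type*} [CommRing R] {N : ℕ} (O : Subring R) (P : MvPolynomial (Fin N) R)
    (h : ∀ s ∈ P.coeffs, s ∈ O) : P ∈ Set.range (MvPolynomial.map (σ := Fin N) O.subtype) := by
  rw [MvPolynomial.mem_range_map_iff_coeffs_subset]
  intro s hs
  exact ⟨⟨s, h s hs⟩, rfl⟩

lemma lift1 {R : Type*} [CommRing R] {N : ℕ} (O : Subring R) (F : (MvPolynomial (Fin N) R)[X])
    (h : ∀ s ∈ cfs F, s ∈ O) : F ∈ Set.range (Polynomial.map (MvPolynomial.map (σ := Fin N) O.subtype)) := by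
  classical
  rw [← lifts_iff_set_range, lifts_iff_coeff_lifts]
  intro b
  by_cases hb : b ∈ F.support
  · exact lift0 O _ fun s hs => h s (Finset.mem_biUnion.2 ⟨b, hb, hs⟩)
  · rw [notMem_support_iff.1 hb]
    exact ⟨0, map_zero _⟩

lemma lift2 {R : Type*} [CommRing R] {N : ℕ} (O : Subring R) (F : (MvPolynomial (Fin N) R)[X][X])
    (h : ∀ s ∈ cfs2 F, s ∈ O) :
    F ∈ Set.range (Polynomial.map (mapRingHom (MvPolynomial.map (σ := Fin N) O.subtype))) := by
  classical
  rw [← lifts_iff_set_range, lifts_iff_coeff_lifts]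
  intro b
  by_cases hb : b ∈ F.support
  · obtain ⟨G, hG⟩ := lift1 O _ fun s hs => h s (Finset.mem_biUnion.2 ⟨b, hb, hs⟩)
    exact ⟨G, hG⟩
  · rw [notMem_support_iff.1 hb]
    exact ⟨0, map_zero _⟩

lemma degP {R S : Type*} [CommRing R] [CommRing S] {N : ℕ} (θ : R →+* S) (P : MvPolynomial (Fin N) R) :
    (MvPolynomial.map θ P).totalDegree ≤ P.totalDegree :=
  Finset.sup_mono (MvPolynomial.support_map_subset θ P)

lemma degP_inj {R S : Type*} [CommRing R] [CommRing S] {N : ℕ} {θ : R →+* S} (hθ : Function.Injective θ)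
    (P : MvPolynomial (Fin N) R) : P.totalDegree ≤ (MvPolynomial.map θ P).totalDegree :=
  Finset.sup_mono (MvPolynomial.support_map_of_injective P hθ).ge

end lift

section eqs

/-- the equations of the Galois closure -/
structure Eqs {R : Type*} [CommRing R] {N D : ℕ} (F : (MvPolynomial (Fin N) R)[X]) (q : MvPolynomial (Fin N) R)
    (α : Fin D → (MvPolynomial (Fin N) R)[X]) (g₁ : Fin D) (κ : (MvPolynomial (Fin N) R)[X][X])
    (A B : (MvPolynomial (Fin N) R)[X]) : Prop where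
  monic : F.Monic
  natDegree : F.natDegree = D
  one : α g₁ = C q * X
  prod : C (C q) ^ D * F.map C = (∏ g, (C (C q) * X - C (α g))) + C F * κ
  sep : A * F + B * derivative F = C q

variable {R S : Type*} [CommRing R] [CommRing S] {N D : ℕ} {F : (MvPolynomial (Fin N) R)[X]}
    {q : MvPolynomial (Fin N) R} {α : Fin D → (MvPolynomial (Fin N) R)[X]} {g₁ : Fin D}
    {κ : (MvPolynomial (Fin N) R)[X][X]} {A B : (MvPolynomial (Fin N) R)[X]}

/-- map of coefficients -/
noncomputable def mj (N : ℕ) (χ : R →+* S) : (MvPolynomial (Fin N) R)[X] →+* (MvPolynomial (Fin N) S)[X] :=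
  mapRingHom (MvPolynomial.map χ)

lemma mj_C (χ : R →+* S) (P : MvPolynomial (Fin N) R) : mj N χ (C P) = C (MvPolynomial.map χ P) := by
  simp [mj]

lemma mj_X (χ : R →+* S) : mj N χ X = X := by
  simp [mj]

lemma mj_inj {χ : R →+* S} (h : Function.Injective χ) : Function.Injective (mj N χ) :=
  map_injective _ (MvPolynomial.map_injective χ h)

lemma prod_map (χ : R →+* S) : (C (C q) ^ D * F.map C).map (mj N χ) =
    C (C (MvPolynomial.map χ q)) ^ D * (mj N χ F).map C := by
  rw [Polynomial.map_mul, Polynomial.map_pow, map_C, mj_C, Polynomial.map_map]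
  congr 1
  rw [mj, coe_mapRingHom, Polynomial.map_map]
  congr 1
  ext x
  · simp
  · simp

lemma prod_map2 (χ : R →+* S) : ((∏ g, (C (C q) * X - C (α g))) + C F * κ).map (mj N χ) =
    (∏ g, (C (C (MvPolynomial.map χ q)) * X - C (mj N χ (α g)))) + C (mj N χ F) * κ.map (mj N χ) := by
  rw [Polynomial.map_add, Polynomial.map_mul, map_C, Polynomial.map_prod]
  congr 1
  refine Finset.prod_congr rfl fun g _ => ?_
  rw [Polynomial.map_sub, Polynomial.map_mul, map_C, map_X, map_C, mj_C]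

lemma Eqs.map [Nontrivial S] (h : Eqs F q α g₁ κ A B) (χ : R →+* S) : Eqs (mj N χ F) (MvPolynomial.map χ q)
    (fun g => mj N χ (α g)) g₁ (κ.map (mj N χ)) (mj N χ A) (mj N χ B) where
  monic := h.monic.map _
  natDegree := by
    rw [← h.natDegree]
    exact h.monic.natDegree_map _
  one := by rw [h.one, map_mul, mj_C, mj_X]
  prod := by rw [← prod_map, ← prod_map2, h.prod]
  sep := by
    have h1 : derivative (mj N χ F) = mj N χ (derivative F) := by
      simp [mj, derivative_map]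
    rw [h1, ← map_mul, ← map_mul, ← map_add, h.sep, mj_C]

lemma Eqs.of_map {χ : R →+* S} (hχ : Function.Injective χ) (h : Eqs (mj N χ F) (MvPolynomial.map χ q)
    (fun g => mj N χ (α g)) g₁ (κ.map (mj N χ)) (mj N χ A) (mj N χ B)) : Eqs F q α g₁ κ A B where
  monic := monic_of_injective (MvPolynomial.map_injective χ hχ) h.monic
  natDegree := by
    rw [← h.natDegree]
    exact (natDegree_map_eq_of_injective (MvPolynomial.map_injective χ hχ) F).symm
  one := by
    apply mj_inj hχ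
    rw [h.one, map_mul, mj_C, mj_X]
  prod := by
    apply map_injective _ (mj_inj (N := N) hχ)
    rw [prod_map, prod_map2, h.prod]
  sep := by
    apply mj_inj hχ
    have h1 : derivative (mj N χ F) = mj N χ (derivative F) := by
      simp [mj, derivative_map]
    rw [map_add, map_mul, map_mul, ← h1, h.sep, mj_C]

/-- over a totally split point, all the roots are rational -/
lemma Eqs.root {R : Type*} [Field R] {F : (MvPolynomial (Fin N) R)[X]}
    {q : MvPolynomial (Fin N) R} {α : Fin D → (MvPolynomial (Fin N) R)[X]} {g₁ : Fin D}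
    {κ : (MvPolynomial (Fin N) R)[X][X]} {A B : (MvPolynomial (Fin N) R)[X]} (h : Eqs F q α g₁ κ A B)
    (b : Fin N → R) (hq : MvPolynomial.eval b q ≠ 0) (y₀ : R) (hy₀ : (F.map (MvPolynomial.eval b)).eval y₀ = 0)
    {k : Type*} [Field k] (ψ : R →+* k) (y : k) (hy : ((F.map (MvPolynomial.eval b)).map ψ).eval y = 0) :
    ∃ y₁, ψ y₁ = y ∧ (F.map (MvPolynomial.eval b)).eval y₁ = 0 := by
  have h1 := congrArg (fun P => (P.map (eval₂RingHom (MvPolynomial.eval b) y₀)).map ψ |>.eval y) h.prod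
  simp only [Polynomial.map_mul, Polynomial.map_pow, map_C, Polynomial.map_add, Polynomial.map_prod,
    Polynomial.map_sub, map_X, eval_mul, eval_pow, eval_C, eval_add, eval_prod, eval_sub, eval_X,
    coe_eval₂RingHom, eval₂_C] at h1
  have h2 : ((F.map C).map (eval₂RingHom (MvPolynomial.eval b) y₀)) = F.map (MvPolynomial.eval b) := by
    rw [Polynomial.map_map]
    congr 1
    ext x
    · simp
    · simp
  have h3 : F.eval₂ (MvPolynomial.eval b) y₀ = 0 := by
    rw [← hy₀, eval_map]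
  rw [h2, hy, mul_zero, h3, map_zero, zero_mul, add_zero] at h1
  obtain ⟨g, _, hg⟩ := Finset.prod_eq_zero_iff.1 h1.symm
  have hq' : ψ (MvPolynomial.eval b q) ≠ 0 := (map_ne_zero ψ).2 hq
  have h4 : y = ψ ((α g).eval₂ (MvPolynomial.eval b) y₀ / MvPolynomial.eval b q) := by
    rw [map_div₀, eq_div_iff hq']
    linear_combination hg
  refine ⟨_, h4.symm, ?_⟩
  rw [h4, eval_map_apply] at hy
  exact (map_eq_zero ψ).1 hy

end eqs

section val

lemma val_lt_iff {K : Type*} [Field K] (V : ValuationSubring K) {c : K} (hc : c ≠ 0) :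
    V.valuation c < 1 ↔ c⁻¹ ∉ V := by
  rw [← V.valuation_le_one_iff, not_le, map_inv₀, one_lt_inv₀]
  exact zero_lt_iff.2 ((V.valuation.ne_zero_iff).2 hc)

lemma val_lt_transfer {K K' : Type*} [Field K] [Field K'] (j : K →+* K') (V : ValuationSubring K)
    (W : ValuationSubring K') (h : ∀ c, j c ∈ W ↔ c ∈ V) (c : K) : W.valuation (j c) < 1 ↔ V.valuation c < 1 := by
  by_cases hc : c = 0
  · rw [hc, map_zero, map_zero, map_zero]
    exact ⟨fun _ => zero_lt_one, fun _ => zero_lt_one⟩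
  · rw [val_lt_iff V hc, val_lt_iff W ((map_ne_zero j).2 hc), ← map_inv₀, h]

lemma res_eq_zero {K : Type*} [Field K] (V : ValuationSubring K) (x : V) :
    IsLocalRing.residue V x = 0 ↔ V.valuation (x : K) < 1 := by
  rw [IsLocalRing.residue_eq_zero_iff, ← ValuationSubring.valuation_lt_one_iff]

lemma res_eq {K : Type*} [Field K] (V : ValuationSubring K) (x y : V) (h : V.valuation ((x : K) - y) < 1) :
    IsLocalRing.residue V x = IsLocalRing.residue V y := by
  rw [← sub_eq_zero, ← map_sub, res_eq_zero]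
  exact h

lemma charP_res {K : Type*} [Field K] (V : ValuationSubring K) {p : ℕ} (hp : p.Prime) (hV : V.valuation (p : K) < 1) :
    CharP (IsLocalRing.ResidueField V) p := by
  rw [CharP.charP_iff_prime_eq_zero hp]
  have h1 : IsLocalRing.residue V (p : V) = 0 := by
    rw [res_eq_zero]
    simpa using hV
  rw [map_natCast] at h1
  exact h1

/-- residues at a totally split place -/
theorem res_place {Ω : Type*} [Field Ω] (W₁ : ValuationSubring Ω) {p : ℕ} [Fact p.Prime] {O : Type*} [CommRing O]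
    (θ : O →+* ZMod p) (ψ₁ : ZMod p →+* IsLocalRing.ResidueField W₁) {N D : ℕ} (G : MvPolynomial (Fin N) O →+* Ω)
    (b : Fin N → ZMod p)
    (hG : ∀ P, ∃ h : G P ∈ W₁, IsLocalRing.residue W₁ ⟨G P, h⟩ = ψ₁ (MvPolynomial.eval b (MvPolynomial.map θ P)))
    {F : (MvPolynomial (Fin N) O)[X]} {q : MvPolynomial (Fin N) O} {α : Fin D → (MvPolynomial (Fin N) O)[X]}
    {g₁ : Fin D} {κ : (MvPolynomial (Fin N) O)[X][X]} {A B : (MvPolynomial (Fin N) O)[X]}
    (h : Eqs (mj N θ F) (MvPolynomial.map θ q) (fun g => mj N θ (α g)) g₁ (κ.map (mj N θ)) (mj N θ A) (mj N θ B))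
    (hF : F.Monic) (hq : MvPolynomial.eval b (MvPolynomial.map θ q) ≠ 0) (y₀ : ZMod p)
    (hy₀ : ((mj N θ F).map (MvPolynomial.eval b)).eval y₀ = 0) (y : Ω) (hy : F.eval₂ G y = 0) :
    ∃ y₁ : ZMod p, ((mj N θ F).map (MvPolynomial.eval b)).eval y₁ = 0 ∧ ∀ (φ : (MvPolynomial (Fin N) O)[X]) (f : Ω),
      G q * f = φ.eval₂ G y → ∀ m : ℤ, (m : ZMod p) = ((mj N θ φ).map (MvPolynomial.eval b)).eval y₁ /
        MvPolynomial.eval b (MvPolynomial.map θ q) → W₁.valuation (f - m) < 1 := by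
  choose hm hr using hG
  let G' : MvPolynomial (Fin N) O →+* W₁ := G.codRestrict W₁ hm
  let π : W₁ →+* IsLocalRing.ResidueField W₁ := IsLocalRing.residue W₁
  have hπ : π.comp G' = ψ₁.comp ((MvPolynomial.eval b).comp (MvPolynomial.map θ)) := RingHom.ext hr
  have hsub : W₁.subtype.comp G' = G := RingHom.ext fun P => rfl
  have hint : IsIntegral W₁ y := by
    refine ⟨F.map G', hF.map _, ?_⟩
    rw [eval₂_map]
    exact hy
  obtain ⟨y', rfl⟩ := (IsIntegrallyClosed.isIntegral_iff (R := W₁)).1 hint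
  have hev : ∀ P : (MvPolynomial (Fin N) O)[X], P.eval₂ G (algebraMap W₁ Ω y') = ((P.eval₂ G' y' : W₁) : Ω) := by
    intro P
    have := hom_eval₂ P G' W₁.subtype y'
    rw [hsub] at this
    exact this.symm
  have hred : ∀ P : (MvPolynomial (Fin N) O)[X], π (P.eval₂ G' y') =
      (((mj N θ P).map (MvPolynomial.eval b)).map ψ₁).eval (π y') := by
    intro P
    rw [hom_eval₂, hπ, mj, coe_mapRingHom, Polynomial.map_map, Polynomial.map_map, eval_map]
    rfl
  have hy' : F.eval₂ G' y' = 0 := by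
    rw [hev] at hy
    exact Subtype.ext hy
  have h1 := hred F
  rw [hy', map_zero] at h1
  obtain ⟨y₁, hy₁, hy₁'⟩ := h.root b hq y₀ hy₀ ψ₁ (π y') h1.symm
  refine ⟨y₁, hy₁', fun φ f hf m hm' => ?_⟩
  have hq1 : π (G' q) = ψ₁ (MvPolynomial.eval b (MvPolynomial.map θ q)) := hr q
  have hq0 : π (G' q) ≠ 0 := by
    rw [hq1]
    exact (map_ne_zero ψ₁).2 hq
  have hu : IsUnit (G' q) := by
    by_contra hcon
    exact hq0 ((IsLocalRing.residue_eq_zero_iff _).2 ((IsLocalRing.mem_maximalIdeal _).2 hcon))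
  obtain ⟨w, hw⟩ := hu.exists_right_inv
  have hw' : G q * (w : Ω) = 1 := congrArg (fun x : W₁ => (x : Ω)) hw
  obtain ⟨f', hf'⟩ : ∃ f' : W₁, f' = w * φ.eval₂ G' y' := ⟨_, rfl⟩
  have hff : f = (f' : Ω) := by
    have h2 : (w : Ω) * (G q * f) = (w : Ω) * ((φ.eval₂ G' y' : W₁) : Ω) := by rw [hf, hev]
    rw [← mul_assoc, mul_comm (w : Ω), hw', one_mul] at h2
    rw [h2, hf']
    rfl
  have h3 : π (G' q) * π f' = (((mj N θ φ).map (MvPolynomial.eval b)).map ψ₁).eval (π y') := by
    rw [← map_mul, hf', ← mul_assoc, hw, one_mul, hred]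
  rw [← hy₁, eval_map_apply, hq1] at h3
  have h4 : π f' = π (m : W₁) := by
    rw [map_intCast, ← map_intCast ψ₁, hm', map_div₀, eq_div_iff ((map_ne_zero ψ₁).2 hq), mul_comm, h3]
  have h5 : W₁.valuation (((f' - (m : W₁) : W₁)) : Ω) < 1 := by
    rw [← res_eq_zero, map_sub, sub_eq_zero]
    exact h4
  rw [hff]
  simpa using h5

end val

section place

/-- the coefficients of the generic member have the residues of the coefficients of the given member -/
theorem place_zz {K : Type*} [Field K] [Algebra ℂ K] {N : ℕ} (u : Fin N → K) (l : Fin N) (hl : u l = 1) {p : ℕ}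
    [Fact p.Prime] (V : ValuationSubring ℂ) (ψ : ZMod p →+* IsLocalRing.ResidueField V)
    (hV : V.valuation (p : ℂ) < 1) (β : Fin N → ℚ) (hβ : ∀ a, ((β a).den : ZMod p) ≠ 0)
    (W : ValuationSubring K) (hW : ∀ c : ℂ, algebraMap ℂ K c ∈ W ↔ c ∈ V) (hu : ∀ a, u a ∈ W)
    (h0 : W.valuation (∑ a, algebraMap ℂ K (β a : ℂ) * u a) < 1) :
    ∃ (W₁ : ValuationSubring (AlgebraicClosure (FractionRing (MvPolynomial (Fin N) K))))
      (ψ₁ : ZMod p →+* IsLocalRing.ResidueField W₁),
      (∀ c : K, W₁.valuation (algebraMap K _ c) < 1 ↔ W.valuation c < 1) ∧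
      ∀ P : MvPolynomial (Fin N) (ringO ψ),
        ∃ h : ((evz (zz u l)).comp (MvPolynomial.map (ringO ψ).subtype)) P ∈ W₁,
          IsLocalRing.residue W₁ ⟨_, h⟩ =
            ψ₁ (MvPolynomial.eval (fun a => redQ p (β a)) (MvPolynomial.map (thO ψ) P)) := by
  classical
  have hp : p.Prime := Fact.out
  have hRs : ∀ a, Rs ψ (β a : ℂ) (redQ p (β a)) := fun a => Rs.rat (hβ a)
  obtain ⟨W₁, h1, h2, h3⟩ := exists_val W (fun a => algebraMap ℂ K (β a : ℂ)) fun a => (hW _).2 (hRs a).1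
  set Ω := AlgebraicClosure (FractionRing (MvPolynomial (Fin N) K)) with hΩ
  have hc : ∀ c : ℂ, W₁.valuation (algebraMap K Ω (algebraMap ℂ K c)) < 1 ↔ V.valuation c < 1 := fun c =>
    (h2 _).trans (val_lt_transfer (algebraMap ℂ K) V W hW c)
  have hpc : W₁.valuation (p : Ω) < 1 := by
    have h4 := (hc (p : ℂ)).2 hV
    rw [map_natCast, map_natCast] at h4
    exact h4
  have hch : CharP (IsLocalRing.ResidueField W₁) p := charP_res W₁ hp hpc
  let ψ₁ : ZMod p →+* IsLocalRing.ResidueField W₁ := ZMod.castHom (dvd_refl p) _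
  refine ⟨W₁, ψ₁, h2, ?_⟩
  -- constants
  let jO : ringO ψ →+* Ω := ((algebraMap K Ω).comp (algebraMap ℂ K)).comp (ringO ψ).subtype
  have hjO : ∀ c, jO c ∈ W₁ := by
    intro c
    obtain ⟨c, a, hca⟩ := c
    exact (h1 _).2 ((hW _).2 hca.1)
  have hres : ∀ (c : ℂ) (a : ZMod p), Rs ψ c a → ∀ x : W₁,
      W₁.valuation ((x : Ω) - algebraMap K Ω (algebraMap ℂ K c)) < 1 → IsLocalRing.residue W₁ x = ψ₁ a := by
    intro c a hca x hx
    have h4 : Rs ψ (c - (a.val : ℂ)) 0 := by
      have h9 := hca.sub (Rs.int (ψ := ψ) (a.val : ℤ))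
      simp only [Int.cast_natCast, ZMod.natCast_zmod_val, sub_self] at h9
      exact h9
    have h5 := (hc _).2 h4.val_lt
    have h6 : W₁.valuation ((x : Ω) - ((a.val : W₁) : Ω)) < 1 := by
      have h7 : (x : Ω) - ((a.val : W₁) : Ω) = ((x : Ω) - algebraMap K Ω (algebraMap ℂ K c)) +
          algebraMap K Ω (algebraMap ℂ K (c - (a.val : ℂ))) := by
        rw [map_sub, map_sub, map_natCast, map_natCast]
        push_cast
        ring
      rw [h7]
      exact W₁.valuation.map_add_lt hx h5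
    rw [res_eq W₁ _ _ h6, map_natCast, ← map_natCast ψ₁, ZMod.natCast_zmod_val]
  -- the variables
  obtain ⟨X', hX'⟩ : ∃ X' : MvPolynomial (Fin N) K →+* Ω, X' =
      (algebraMap (FractionRing (MvPolynomial (Fin N) K)) Ω).comp
        (algebraMap (MvPolynomial (Fin N) K) (FractionRing (MvPolynomial (Fin N) K))) := ⟨_, rfl⟩
  have hXC : ∀ c : K, X' (MvPolynomial.C c) = algebraMap K Ω c := by
    intro c
    rw [hX', RingHom.comp_apply, ← MvPolynomial.algebraMap_eq, ← IsScalarTower.algebraMap_apply,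
      ← IsScalarTower.algebraMap_apply]
  have hx3 : ∀ a, W₁.valuation (X' (MvPolynomial.X a) - algebraMap K Ω (algebraMap ℂ K (β a : ℂ))) < 1 := by
    intro a
    rw [← hXC, ← map_sub, hX']
    exact h3 a
  have hle : ∀ c : K, c ∈ W → W₁.valuation (algebraMap K Ω c) ≤ 1 := fun c hcW =>
    (W₁.valuation_le_one_iff _).2 ((h1 c).2 hcW)
  have hz : ∀ a, W₁.valuation (algebraMap (FractionRing (MvPolynomial (Fin N) K)) Ω (zz u l a) -
      algebraMap K Ω (algebraMap ℂ K (β a : ℂ))) < 1 := by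
    intro a
    by_cases hal : a = l
    · subst hal
      have h4 : algebraMap (FractionRing (MvPolynomial (Fin N) K)) Ω (zz u a a) =
          - ∑ b ∈ Finset.univ.erase a, X' (MvPolynomial.X b) * algebraMap K Ω (u b) := by
        rw [zz, if_pos rfl, map_neg, map_sum]
        congr 1
        refine Finset.sum_congr rfl fun b _ => ?_
        rw [← hXC, ← map_mul, hX']
        rfl
      have h5 : algebraMap (FractionRing (MvPolynomial (Fin N) K)) Ω (zz u a a) -
          algebraMap K Ω (algebraMap ℂ K (β a : ℂ)) =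
          - (∑ b ∈ Finset.univ.erase a, (X' (MvPolynomial.X b) - algebraMap K Ω (algebraMap ℂ K (β b : ℂ))) *
            algebraMap K Ω (u b)) - algebraMap K Ω (∑ b, algebraMap ℂ K (β b : ℂ) * u b) := by
        rw [h4, map_sum, ← Finset.add_sum_erase _ _ (Finset.mem_univ a), hl]
        simp only [sub_mul, Finset.sum_sub_distrib, map_mul, map_one]
        ring
      rw [h5]
      refine W₁.valuation.map_sub_lt ?_ ((h2 _).2 h0)
      rw [Valuation.map_neg]
      refine W₁.valuation.map_sum_lt one_ne_zero fun b _ => ?_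
      rw [map_mul]
      exact mul_lt_one_of_lt_of_le (hx3 b) (hle _ (hu b))
    · have h4 : algebraMap (FractionRing (MvPolynomial (Fin N) K)) Ω (zz u l a) = X' (MvPolynomial.X a) := by
        rw [zz, if_neg hal, hX']
        rfl
      rw [h4]
      exact hx3 a
  have hzm : ∀ a, algebraMap (FractionRing (MvPolynomial (Fin N) K)) Ω (zz u l a) ∈ W₁ := by
    intro a
    have h4 : algebraMap K Ω (algebraMap ℂ K (β a : ℂ)) ∈ W₁ := (h1 _).2 ((hW _).2 (hRs a).1)
    have h5 := W₁.add_mem _ _ ((W₁.valuation_le_one_iff _).1 (hz a).le) h4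
    rwa [sub_add_cancel] at h5
  let G' : MvPolynomial (Fin N) (ringO ψ) →+* W₁ :=
    MvPolynomial.eval₂Hom (jO.codRestrict W₁ hjO) fun a => ⟨_, hzm a⟩
  have hG1 : W₁.subtype.comp G' = (evz (zz u l)).comp (MvPolynomial.map (ringO ψ).subtype) := by
    apply MvPolynomial.ringHom_ext
    · intro c
      simp only [RingHom.comp_apply, G', MvPolynomial.eval₂Hom_C, MvPolynomial.map_C, evz]
      have h4 : (MvPolynomial.aeval (zz u l)).toRingHom (MvPolynomial.C (σ := Fin N) ((ringO ψ).subtype c)) =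
          algebraMap ℂ (FractionRing (MvPolynomial (Fin N) K)) ((ringO ψ).subtype c) :=
        MvPolynomial.aeval_C _ _
      rw [h4, ← IsScalarTower.algebraMap_apply]
      change algebraMap K Ω (algebraMap ℂ K ((ringO ψ).subtype c)) = _
      rw [← IsScalarTower.algebraMap_apply]
    · intro a
      simp only [RingHom.comp_apply, G', MvPolynomial.eval₂Hom_X', MvPolynomial.map_X, evz]
      have h4 : (MvPolynomial.aeval (R := ℂ) (zz u l)).toRingHom (MvPolynomial.X a) = zz u l a :=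
        MvPolynomial.aeval_X _ _
      rw [h4]
      rfl
  have hG2 : (IsLocalRing.residue W₁).comp G' =
      ψ₁.comp ((MvPolynomial.eval fun a => redQ p (β a)).comp (MvPolynomial.map (thO ψ))) := by
    apply MvPolynomial.ringHom_ext
    · intro c
      simp only [RingHom.comp_apply, G', MvPolynomial.eval₂Hom_C, MvPolynomial.map_C, MvPolynomial.eval_C]
      refine hres (c : ℂ) _ (thO_spec ψ c) _ ?_
      have h4 : ((jO.codRestrict W₁ hjO c : W₁) : Ω) - algebraMap K Ω (algebraMap ℂ K (c : ℂ)) = 0 := sub_self _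
      rw [h4, map_zero]
      exact zero_lt_one
    · intro a
      simp only [RingHom.comp_apply, G', MvPolynomial.eval₂Hom_X', MvPolynomial.map_X, MvPolynomial.eval_X]
      exact hres _ _ (hRs a) _ (hz a)
  intro P
  have h4 : ((evz (zz u l)).comp (MvPolynomial.map (ringO ψ).subtype)) P = ((G' P : W₁) : Ω) :=
    (congrArg (fun f : MvPolynomial (Fin N) (ringO ψ) →+* Ω => f P) hG1).symm
  refine ⟨by rw [h4]; exact (G' P).2, ?_⟩
  have h5 := congrArg (fun f : MvPolynomial (Fin N) (ringO ψ) →+* _ => f P) hG2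
  simp only [RingHom.comp_apply] at h5
  rw [← h5]
  congr 1
  exact Subtype.ext h4

end place

/-- a bound for the degrees of the coefficients -/
noncomputable def bdF {R : Type*} [CommRing R] {N : ℕ} (F : (MvPolynomial (Fin N) R)[X]) : ℕ :=
  F.support.sup fun b => (F.coeff b).totalDegree

lemma le_bdF {R : Type*} [CommRing R] {N : ℕ} (F : (MvPolynomial (Fin N) R)[X]) (b : ℕ) :
    (F.coeff b).totalDegree ≤ bdF F := by
  by_cases hb : b ∈ F.support
  · exact Finset.le_sup (f := fun b => (F.coeff b).totalDegree) hb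
  · rw [notMem_support_iff.1 hb, MvPolynomial.totalDegree_zero]
    exact Nat.zero_le _

lemma bdF_red {O R S : Type*} [CommRing O] [CommRing R] [CommRing S] {N : ℕ} {i : O →+* R}
    (hi : Function.Injective i) (θ : O →+* S) (F : (MvPolynomial (Fin N) O)[X]) (b : ℕ) :
    ((mj N θ F).coeff b).totalDegree ≤ bdF (mj N i F) := by
  rw [mj, coe_mapRingHom, coeff_map]
  refine (degP θ _).trans ((degP_inj hi _).trans ?_)
  rw [← coeff_map, ← coe_mapRingHom]
  exact le_bdF _ _

theorem split_one {K : Type*} [Field K] [Algebra ℂ K] (htr : Algebra.trdeg ℂ K = 1) {n N : ℕ}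
    (u : Fin n → Fin N → K) (l : Fin n → Fin N) (hl : ∀ i, u i (l i) = 1) (j : Fin n)
    (hu : ∃ k, Transcendental ℂ (u j k)) : ∃ (S : Finset ℂ) (C₀ D₀ P₀ : ℕ), ∀ (p : ℕ) [Fact p.Prime],
    P₀ ≤ p → ∀ (V : ValuationSubring ℂ) (ψ : ZMod p →+* IsLocalRing.ResidueField V) (r : ℂ → ZMod p),
    V.valuation (p : ℂ) < 1 → (∀ s ∈ S, Rs ψ s (r s)) →
    ∃ (T : Finset (Fin N → ZMod p)) (E : (Fin N → ZMod p) → Finset (Fin n → Fin N → ZMod p)),
      p ^ N ≤ C₀ * T.card ∧ (∀ b, (E b).card ≤ D₀) ∧ (∀ b, ∀ ρ ∈ E b, ∀ k, ρ k (l k) = 1) ∧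
      ∀ β : Fin N → ℚ, (∀ a, ((β a).den : ZMod p) ≠ 0) → (fun a => redQ p (β a)) ∈ T →
        ∀ W : ValuationSubring K, (∀ c : ℂ, algebraMap ℂ K c ∈ W ↔ c ∈ V) → (∀ a, u j a ∈ W) →
        W.valuation (∑ a, algebraMap ℂ K (β a : ℂ) * u j a) < 1 →
        ∃ ρ ∈ E (fun a => redQ p (β a)), ∀ k a, ∀ m : ℤ, (m : ZMod p) = ρ k a →
          W.valuation (u k a - algebraMap ℂ K (m : ℂ)) < 1 := by
  classical
  have hN : 0 < N := by
    obtain ⟨k, _⟩ := hu
    exact k.pos
  obtain ⟨D, F, q, α, g₁, κ, A, B, φ, y, hmon, hdeg, hirr, hq, hone, hprod, hsep, hy, hφ⟩ :=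
    galData (zz (u j) (l j)) (algInd_zz _ _ (hl j) hu) (ι := Fin n × Fin N)
      (fun ka => algebraMap K _ (u ka.1 ka.2)) (fun ka => isAlgebraic_zz htr _ _ (hl j) hu _)
  have hE : Eqs F q α g₁ κ A B := ⟨hmon, hdeg, hone, hprod, hsep⟩
  have hD : 0 < D := by
    rw [← hdeg]
    refine Nat.pos_of_ne_zero fun h0 => hirr.not_isUnit ?_
    rw [hmon.natDegree_eq_zero.1 h0]
    exact isUnit_one
  -- a point outside the bad locus
  obtain ⟨a, ha⟩ : ∃ a : Fin N → ℤ, MvPolynomial.eval (fun i => (a i : ℂ)) q ≠ 0 := by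
    by_contra hcon
    push Not at hcon
    apply hq
    refine MvPolynomial.funext_set (fun _ => Set.range fun m : ℤ => (m : ℂ)) (fun _ => ?_) fun x hx => ?_
    · exact Set.infinite_range_of_injective Int.cast_injective
    · choose a ha using fun i => hx i (Set.mem_univ i)
      have : x = fun i => (a i : ℂ) := funext fun i => (ha i).symm
      rw [this, hcon a, map_zero]
  have hsepa : (F.map (MvPolynomial.eval fun i => (a i : ℂ))).Separable := by
    obtain ⟨c, hc⟩ : ∃ c, c = MvPolynomial.eval (fun i => (a i : ℂ)) q := ⟨_, rfl⟩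
    rw [← hc] at ha
    refine ⟨C c⁻¹ * A.map (MvPolynomial.eval fun i => (a i : ℂ)),
      C c⁻¹ * B.map (MvPolynomial.eval fun i => (a i : ℂ)), ?_⟩
    have h1 := congrArg (fun P => P.map (MvPolynomial.eval fun i => (a i : ℂ))) hsep
    simp only [Polynomial.map_add, Polynomial.map_mul, map_C, ← hc] at h1
    rw [mul_assoc, mul_assoc, ← mul_add, derivative_map, h1, ← C_mul, inv_mul_cancel₀ ha, C_1]
  obtain ⟨S₁, w₁, hw₁⟩ := irr_slices hN F hmon hirr a hsepa
  obtain ⟨w, hw⟩ : ∃ w, w = w₁ + bdF F + q.totalDegree + (∑ g, bdF (α g)) + ∑ g, (α g).natDegree := ⟨_, rfl⟩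
  have hwα : ∀ g, bdF (α g) ≤ w := by
    intro g
    have := Finset.single_le_sum (f := fun g => bdF (α g)) (fun _ _ => Nat.zero_le _) (Finset.mem_univ g)
    omega
  have hwd : ∀ g, (α g).natDegree ≤ w := by
    intro g
    have := Finset.single_le_sum (f := fun g => (α g).natDegree) (fun _ _ => Nat.zero_le _) (Finset.mem_univ g)
    omega
  obtain ⟨m₀, hm₀⟩ := MvPolynomial.exists_coeff_ne_zero hq
  obtain ⟨P₀, hP₀⟩ := split_count D w N hD hN
  obtain ⟨S, hS⟩ : ∃ S, S = S₁ ∪ cfs F ∪ q.coeffs ∪ {(q.coeff m₀)⁻¹} ∪ (Finset.univ.biUnion fun g => cfs (α g)) ∪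
    cfs2 κ ∪ cfs A ∪ cfs B ∪ (Finset.univ.biUnion fun k => cfs (φ k)) := ⟨_, rfl⟩
  refine ⟨S, 4 * D, D, P₀, ?_⟩
  intro p _ hp V ψ r hV hr
  have hO : ∀ s ∈ S, s ∈ ringO ψ := fun s hs => ⟨_, hr s hs⟩
  obtain ⟨F', hF'⟩ := lift1 (ringO ψ) F fun s hs => hO s (by rw [hS]; simp [hs])
  obtain ⟨q', hq'⟩ := lift0 (ringO ψ) q fun s hs => hO s (by rw [hS]; simp [hs])
  obtain ⟨κ', hκ'⟩ := lift2 (ringO ψ) κ fun s hs => hO s (by rw [hS]; simp [hs])
  obtain ⟨A', hA'⟩ := lift1 (ringO ψ) A fun s hs => hO s (by rw [hS]; simp [hs])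
  obtain ⟨B', hB'⟩ := lift1 (ringO ψ) B fun s hs => hO s (by rw [hS]; simp [hs])
  choose α' hα' using fun g => lift1 (ringO ψ) (α g) fun s hs => hO s (by
    rw [hS]
    have : s ∈ Finset.univ.biUnion fun g => cfs (α g) := Finset.mem_biUnion.2 ⟨g, Finset.mem_univ g, hs⟩
    simp only [Finset.mem_union]
    tauto)
  choose φ' hφ' using fun k => lift1 (ringO ψ) (φ k) fun s hs => hO s (by
    rw [hS]
    have : s ∈ Finset.univ.biUnion fun k => cfs (φ k) := Finset.mem_biUnion.2 ⟨k, Finset.mem_univ k, hs⟩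
    simp only [Finset.mem_union]
    tauto)
  have hinj : Function.Injective (ringO ψ).subtype := Subtype.val_injective
  have hE' : Eqs F' q' α' g₁ κ' A' B' := by
    refine Eqs.of_map (χ := (ringO ψ).subtype) hinj ?_
    have h1 : mj N (ringO ψ).subtype F' = F := hF'
    have h2 : (fun g => mj N (ringO ψ).subtype (α' g)) = α := funext fun g => hα' g
    have h3 : mj N (ringO ψ).subtype A' = A := hA'
    have h4 : mj N (ringO ψ).subtype B' = B := hB'
    have h5 : κ'.map (mj N (ringO ψ).subtype) = κ := hκ'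
    rw [h1, h2, h3, h4, h5, hq']
    exact hE
  have hEp := hE'.map (thO ψ)
  obtain ⟨qp, hqp⟩ : ∃ qp, qp = MvPolynomial.map (thO ψ) q' := ⟨_, rfl⟩
  have hqp0 : qp ≠ 0 := by
    intro h0
    have h1 : thO ψ (q'.coeff m₀) = 0 := by
      rw [← MvPolynomial.coeff_map, ← hqp, h0, MvPolynomial.coeff_zero]
    have h2 : ((q'.coeff m₀ : ringO ψ) : ℂ) = q.coeff m₀ := by
      rw [← hq', MvPolynomial.coeff_map]
      rfl
    have h3 : (q.coeff m₀)⁻¹ ∈ ringO ψ := hO _ (by rw [hS]; simp)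
    have h4 : q'.coeff m₀ * ⟨_, h3⟩ = 1 := by
      apply Subtype.ext
      change ((q'.coeff m₀ : ringO ψ) : ℂ) * (q.coeff m₀)⁻¹ = 1
      rw [h2, mul_inv_cancel₀ hm₀]
    have h5 := congrArg (thO ψ) h4
    rw [map_mul, h1, zero_mul, map_one] at h5
    exact zero_ne_one h5
  have hcount := hP₀ p hp (IsLocalRing.ResidueField V) ψ (mj N (thO ψ) F') qp (fun g => mj N (thO ψ) (α' g)) g₁
    (κ'.map (mj N (thO ψ))) (mj N (thO ψ) A') (mj N (thO ψ) B') (fun i => (a i : ZMod p)) hEp.monic hEp.natDegree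
    (fun b => by
      refine (bdF_red hinj (thO ψ) F' b).trans ?_
      have h1 : mj N (ringO ψ).subtype F' = F := hF'
      rw [h1]
      omega) hqp0
    (by
      rw [hqp]
      refine (degP _ _).trans ((degP_inj hinj _).trans ?_)
      rw [hq']
      omega)
    (fun g b => by
      refine (bdF_red hinj (thO ψ) (α' g) b).trans ?_
      have h1 : mj N (ringO ψ).subtype (α' g) = α g := hα' g
      rw [h1]
      exact hwα g)
    (fun g => by
      have h1 : (mj N (thO ψ) (α' g)).natDegree ≤ (α' g).natDegree := natDegree_map_le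
      have h2 : (α g).natDegree = (α' g).natDegree := by
        rw [← hα' g]
        exact natDegree_map_eq_of_injective (MvPolynomial.map_injective _ hinj) _
      have := hwd g
      omega)
    (by rw [hqp]; exact hEp.one) (by rw [hqp]; exact hEp.prod) (by rw [hqp]; exact hEp.sep)
    ((hw₁ p (ringO ψ) (thO ψ) (IsLocalRing.ResidueField V) ψ (fun s hs => hO s (by rw [hS]; simp [hs])) F' hF').trans
      (Nat.mul_le_mul_right _ (by omega)))
  refine ⟨_, fun b => ((((Finset.univ.filter fun y₁ : ZMod p =>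
    ((mj N (thO ψ) F').map (MvPolynomial.eval b)).eval y₁ = 0).image fun y₁ => fun k a =>
      ((mj N (thO ψ) (φ' (k, a))).map (MvPolynomial.eval b)).eval y₁ / MvPolynomial.eval b qp).filter
      fun ρ => ∀ k, ρ k (l k) = 1)), hcount, fun b => ?_, fun b ρ hρ => (Finset.mem_filter.1 hρ).2, ?_⟩
  · refine (Finset.card_filter_le _ _).trans (Finset.card_image_le.trans ?_)
    have h1 : ((mj N (thO ψ) F').map (MvPolynomial.eval b)).Monic := hEp.monic.map _
    have h2 : ((mj N (thO ψ) F').map (MvPolynomial.eval b)).natDegree = D :=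
      (hEp.monic.natDegree_map _).trans hEp.natDegree
    calc _ ≤ ((mj N (thO ψ) F').map (MvPolynomial.eval b)).roots.toFinset.card := by
          refine Finset.card_le_card fun y₁ hy₁ => ?_
          rw [Multiset.mem_toFinset, mem_roots h1.ne_zero]
          exact (Finset.mem_filter.1 hy₁).2
      _ ≤ _ := (Multiset.toFinset_card_le _).trans ((card_roots' _).trans h2.le)
  · intro β hβ hT W hW huW h0
    rw [Finset.mem_filter] at hT
    obtain ⟨_, hqb, y₀, hy₀⟩ := hT
    obtain ⟨W₁, ψ₁, h1, h2⟩ := place_zz (u j) (l j) (hl j) V ψ hV β hβ W hW huW h0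
    rw [hqp] at hqb
    obtain ⟨y₁, hy₁, h3⟩ := res_place W₁ (thO ψ) ψ₁ ((evz (zz (u j) (l j))).comp (MvPolynomial.map (ringO ψ).subtype))
      (fun a => redQ p (β a)) h2 hEp hE'.monic hqb y₀ hy₀ y (by rw [← eval₂_map, hF']; exact hy)
    have h4 : ∀ k a, ∀ m : ℤ, (m : ZMod p) = ((mj N (thO ψ) (φ' (k, a))).map
        (MvPolynomial.eval fun a => redQ p (β a))).eval y₁ / MvPolynomial.eval (fun a => redQ p (β a)) qp →
        W.valuation (u k a - algebraMap ℂ K (m : ℂ)) < 1 := by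
      intro k a m hm
      rw [hqp] at hm
      have h5 := h3 (φ' (k, a)) (algebraMap K _ (u k a)) (by
        rw [← eval₂_map, hφ' (k, a), ← hφ (k, a), RingHom.comp_apply, hq', ← IsScalarTower.algebraMap_apply]) m hm
      rw [← h1, map_sub]
      simpa using h5
    refine ⟨fun k a => ((mj N (thO ψ) (φ' (k, a))).map
        (MvPolynomial.eval fun a => redQ p (β a))).eval y₁ / MvPolynomial.eval (fun a => redQ p (β a)) qp, ?_, h4⟩
    rw [Finset.mem_filter]
    refine ⟨Finset.mem_image.2 ⟨y₁, Finset.mem_filter.2 ⟨Finset.mem_univ _, hy₁⟩, rfl⟩, fun k => ?_⟩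
    obtain ⟨ρ, hρ⟩ : ∃ ρ, ρ = ((mj N (thO ψ) (φ' (k, l k))).map
        (MvPolynomial.eval fun a => redQ p (β a))).eval y₁ / MvPolynomial.eval (fun a => redQ p (β a)) qp := ⟨_, rfl⟩
    have h5 := h4 k (l k) (ρ.val : ℤ) (by rw [← hρ]; simp)
    rw [hl k, ← map_one (algebraMap ℂ K), ← map_sub, val_lt_transfer (algebraMap ℂ K) V W hW] at h5
    have h6 : Rs ψ (1 - ((ρ.val : ℤ) : ℂ)) (1 - ((ρ.val : ℤ) : ZMod p)) := Rs.one.sub (Rs.int _)
    beta_reduce
    rw [← hρ]
    by_contra hne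
    have h7 : (1 : ZMod p) - ((ρ.val : ℤ) : ZMod p) ≠ 0 := by
      rw [Int.cast_natCast, ZMod.natCast_zmod_val]
      exact sub_ne_zero.2 (Ne.symm hne)
    rw [h6.val_one h7] at h5
    exact lt_irrefl _ h5

theorem exists_splitQ {K : Type*} [Field K] [Algebra ℂ K] (htr : Algebra.trdeg ℂ K = 1) {n N : ℕ}
    (u : Fin n → Fin N → K) (l : Fin n → Fin N) (hl : ∀ i, u i (l i) = 1)
    (hu : ∀ i, ∃ k, Transcendental ℂ (u i k)) : ∃ (S : Finset ℂ) (C₀ D₀ P₀ : ℕ), ∀ (p : ℕ) [Fact p.Prime],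
    P₀ ≤ p → ∀ (V : ValuationSubring ℂ) (ψ : ZMod p →+* IsLocalRing.ResidueField V) (r : ℂ → ZMod p),
    V.valuation (p : ℂ) < 1 → (∀ s ∈ S, Rs ψ s (r s)) →
    ∃ (T : Fin n → Finset (Fin N → ZMod p)) (E4 : Fin n → (Fin N → ZMod p) → Finset (Fin n → Fin N → ZMod p)),
      (∀ j, p ^ N ≤ C₀ * (T j).card) ∧ (∀ j b, (E4 j b).card ≤ D₀) ∧
      (∀ j b, ∀ ρ ∈ E4 j b, ∀ k, ρ k (l k) = 1) ∧ SplitQ u p V T E4 := by
  classical
  choose S C₀ D₀ P₀ h using fun j => split_one htr u l hl j (hu j)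
  have hle : ∀ (f : Fin n → ℕ) j, f j ≤ ∑ j, f j := fun f j =>
    Finset.single_le_sum (f := f) (fun _ _ => Nat.zero_le _) (Finset.mem_univ j)
  refine ⟨Finset.univ.biUnion S, ∑ j, C₀ j, ∑ j, D₀ j, ∑ j, P₀ j, fun p _ hp V ψ r hV hr => ?_⟩
  choose T E h1 h2 h3 h4 using fun j => h j p ((hle P₀ j).trans hp) V ψ r hV fun s hs =>
    hr s (Finset.mem_biUnion.2 ⟨j, Finset.mem_univ j, hs⟩)
  exact ⟨T, E, fun j => (h1 j).trans (Nat.mul_le_mul_right _ (hle C₀ j)), fun j b => (h2 j b).trans (hle D₀ j), h3,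
    fun j β hβ hT W hW huW h0 => h4 j β hβ hT W hW huW h0⟩

end Pool.Agent.ZPL
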